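import Pool.Agent.U587.ET.Susp

set_option autoImplicit false

/-!
Cubic averages of a map and of the time-`a` maps of its suspension flow.
-/

namespace Pool.Agent.U587.ET

open MeasureTheory Filter Finset
open Pool.Agent.Y957.MC (IsFlow)
open scoped Topology

universe u

variable {X : Type u} [MeasurableSpace X] {μ : Measure X} [IsProbabilityMeasure μ]

/-- the function with a window in the base -/
noncomputable def win (f : X → ℂ) (p : ℝ × X) : ℂ :=
  if Int.fract p.1 ∈ Set.Ico (9 / 16 : ℝ) (10 / 16) then f p.2 else 0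

/-- the function without a window -/
def lift2 (g : X → ℂ) (p : ℝ × X) : ℂ := g p.2

lemma win_meas {f : X → ℂ} (hf : Measurable f) : Measurable (win f) := by
  unfold win
  exact Measurable.ite (measurable_fst.fract measurableSet_Ico) (hf.comp measurable_snd) measurable_const

lemma lift2_meas {f : X → ℂ} (hf : Measurable f) : Measurable (lift2 f) := hf.comp measurable_snd

omit [MeasurableSpace X] in
lemma win_bd {f : X → ℂ} {C : ℝ} (hC0 : 0 ≤ C) (hC : ∀ x, ‖f x‖ ≤ C) (p : ℝ × X) : ‖win f p‖ ≤ C := by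
  unfold win
  split_ifs
  · exact hC _
  · simpa using hC0

/-- the cubic term -/
def cub (T : X ≃ᵐ X) (f g h : X → ℂ) (x : X) (n : ℕ) : ℂ := f (T^[n] x) * g (T^[2 * n] x) * h (T^[3 * n] x)

/-- the continuous cubic term of the suspension flow -/
noncomputable def phi (T : X ≃ᵐ X) (f g h : X → ℂ) (p : ℝ × X) (v : ℝ) : ℂ :=
  win f (susp T v p) * lift2 g (susp T (2 * v) p) * lift2 h (susp T (3 * v) p)

omit [MeasurableSpace X] in
lemma perm_iter (P : Equiv.Perm X) (n : ℕ) (x : X) : (P ^ (n : ℤ)) x = P^[n] x := by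
  rw [zpow_natCast, Equiv.Perm.iterate_eq_pow]

lemma phi_eq (T : X ≃ᵐ X) (f g h : X → ℂ) {s : ℝ} (hs : s ∈ Set.Ico (1 / 2 : ℝ) (9 / 16)) (x : X) (n : ℕ) {v : ℝ}
    (hv : v ∈ Set.Ico (n : ℝ) (n + 1)) : phi T f g h (s, x) v =
      (Set.Ico ((n : ℝ) + 9 / 16 - s) (n + 10 / 16 - s)).indicator (fun _ => cub T f g h x n) v := by
  have hs0 : ⌊s⌋ = 0 := Int.floor_eq_zero_iff.2 ⟨by linarith [hs.1], by linarith [hs.2]⟩
  by_cases hI : v ∈ Set.Ico ((n : ℝ) + 9 / 16 - s) (n + 10 / 16 - s)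
  · rw [Set.indicator_of_mem hI]
    have f1 : ⌊s + v⌋ = (n : ℤ) := by
      rw [Int.floor_eq_iff]
      push_cast
      constructor <;> linarith [hI.1, hI.2]
    have f2 : ⌊s + 2 * v⌋ = ((2 * n : ℕ) : ℤ) := by
      rw [Int.floor_eq_iff]
      push_cast
      constructor <;> linarith [hI.1, hI.2, hs.1, hs.2]
    have f3 : ⌊s + 3 * v⌋ = ((3 * n : ℕ) : ℤ) := by
      rw [Int.floor_eq_iff]
      push_cast
      constructor <;> linarith [hI.1, hI.2, hs.1, hs.2]
    have g1 : Int.fract (sh v s) ∈ Set.Ico (9 / 16 : ℝ) (10 / 16) := by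
      rw [fract_sh]
      unfold Int.fract
      rw [f1]
      push_cast
      constructor <;> linarith [hI.1, hI.2]
    unfold phi win lift2 susp cub
    simp only
    rw [if_pos g1]
    unfold ct
    rw [hs0, f1, f2, f3, sub_zero, sub_zero, sub_zero, perm_iter, perm_iter, perm_iter]
    rfl
  · rw [Set.indicator_of_notMem hI]
    have g1 : Int.fract (sh v s) ∉ Set.Ico (9 / 16 : ℝ) (10 / 16) := by
      rw [fract_sh]
      intro hfr
      apply hI
      have h1 : s + v = ⌊s + v⌋ + Int.fract (s + v) := (Int.floor_add_fract _).symm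
      have h2 : ((⌊s + v⌋ : ℤ) : ℝ) < n + 1 := by linarith [hfr.1, hv.2, hs.2]
      have h3 : (n : ℝ) - 1 < ((⌊s + v⌋ : ℤ) : ℝ) := by linarith [hfr.2, hv.1, hs.1]
      have h4 : ⌊s + v⌋ = (n : ℤ) := by
        have h5 : ⌊s + v⌋ < (n : ℤ) + 1 := by exact_mod_cast h2
        have h6 : (n : ℤ) - 1 < ⌊s + v⌋ := by exact_mod_cast h3
        omega
      rw [h4] at h1
      push_cast at h1
      constructor <;> linarith [hfr.1, hfr.2]
    unfold phi win susp
    simp only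
    rw [if_neg g1]
    simp

lemma phi_meas {T : X ≃ᵐ X} (hT : MeasurePreserving T μ μ) {f g h : X → ℂ} (hf : Measurable f) (hg : Measurable g)
    (hh : Measurable h) (p : ℝ × X) : Measurable (phi T f g h p) := by
  have hS := (susp_flow hT).meas
  have ho : ∀ c : ℝ, Measurable fun v : ℝ => susp T (c * v) p := fun c =>
    hS.comp ((measurable_id.const_mul c).prodMk measurable_const)
  unfold phi
  refine (((win_meas hf).comp ?_).mul ((lift2_meas hg).comp (ho 2))).mul ((lift2_meas hh).comp (ho 3))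
  exact hS.comp (measurable_id.prodMk measurable_const)

lemma phi_bd (T : X ≃ᵐ X) {f g h : X → ℂ} {C : ℝ} (hC0 : 0 ≤ C) (hf : ∀ x, ‖f x‖ ≤ C) (hg : ∀ x, ‖g x‖ ≤ C)
    (hh : ∀ x, ‖h x‖ ≤ C) (p : ℝ × X) (v : ℝ) : ‖phi T f g h p v‖ ≤ C * C * C := by
  unfold phi lift2
  rw [norm_mul, norm_mul]
  have h1 := win_bd hC0 hf (susp T v p)
  have h2 := hg (susp T (2 * v) p).2
  have h3 := hh (susp T (3 * v) p).2
  gcongr

lemma phi_ii {T : X ≃ᵐ X} (hT : MeasurePreserving T μ μ) {f g h : X → ℂ} (hf : Measurable f) (hg : Measurable g)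
    (hh : Measurable h) {C : ℝ} (hC0 : 0 ≤ C) (hfb : ∀ x, ‖f x‖ ≤ C) (hgb : ∀ x, ‖g x‖ ≤ C)
    (hhb : ∀ x, ‖h x‖ ≤ C) (p : ℝ × X) (a b : ℝ) : IntervalIntegrable (phi T f g h p) volume a b := by
  rw [intervalIntegrable_iff]
  exact Measure.integrableOn_of_bounded (M := C * C * C) (by simp) (phi_meas hT hf hg hh p).aestronglyMeasurable
    (ae_of_all _ fun r => phi_bd T hC0 hfb hgb hhb p r)

lemma phi_piece (T : X ≃ᵐ X) (f g h : X → ℂ) {s : ℝ} (hs : s ∈ Set.Ico (1 / 2 : ℝ) (9 / 16)) (x : X) (n : ℕ) :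
    ∫ v in (n : ℝ)..((n + 1 : ℕ) : ℝ), phi T f g h (s, x) v = (1 / 16 : ℂ) * cub T f g h x n := by
  push_cast
  rw [intervalIntegral.integral_of_le (by linarith), ← integral_Ico_eq_integral_Ioc,
    setIntegral_congr_fun measurableSet_Ico (fun v hv => phi_eq T f g h hs x n hv),
    setIntegral_indicator measurableSet_Ico]
  have h1 : Set.Ico (n : ℝ) (n + 1) ∩ Set.Ico ((n : ℝ) + 9 / 16 - s) (n + 10 / 16 - s) =
      Set.Ico ((n : ℝ) + 9 / 16 - s) (n + 10 / 16 - s) := by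
    apply Set.inter_eq_self_of_subset_right
    intro v hv
    constructor
    · linarith [hv.1, hs.2]
    · linarith [hv.2, hs.1]
  rw [h1, setIntegral_const, Real.volume_real_Ico_of_le (by linarith)]
  have h2 : (n : ℝ) + 10 / 16 - s - ((n : ℝ) + 9 / 16 - s) = 1 / 16 := by ring
  rw [h2, Complex.real_smul]
  push_cast
  ring

lemma phi_int {T : X ≃ᵐ X} (hT : MeasurePreserving T μ μ) {f g h : X → ℂ} (hf : Measurable f) (hg : Measurable g)
    (hh : Measurable h) {C : ℝ} (hC0 : 0 ≤ C) (hfb : ∀ x, ‖f x‖ ≤ C) (hgb : ∀ x, ‖g x‖ ≤ C)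
    (hhb : ∀ x, ‖h x‖ ≤ C) {s : ℝ} (hs : s ∈ Set.Ico (1 / 2 : ℝ) (9 / 16)) (x : X) (N : ℕ) :
    ∫ v in (0 : ℝ)..N, phi T f g h (s, x) v = (1 / 16 : ℂ) * ∑ n ∈ range N, cub T f g h x n := by
  have h1 := intervalIntegral.sum_integral_adjacent_intervals (f := phi T f g h (s, x)) (μ := volume)
    (a := fun n : ℕ => (n : ℝ)) (n := N) (fun k _ => phi_ii hT hf hg hh hC0 hfb hgb hhb _ _ _)
  rw [Nat.cast_zero] at h1
  rw [← h1, mul_sum]
  exact sum_congr rfl fun n _ => phi_piece T f g h hs x n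

/-- continuous convergence implies discrete convergence for the map -/
lemma disc_of_cont {T : X ≃ᵐ X} (hT : MeasurePreserving T μ μ) {f g h : X → ℂ} (hf : Measurable f)
    (hg : Measurable g) (hh : Measurable h) {C : ℝ} (hC0 : 0 ≤ C) (hfb : ∀ x, ‖f x‖ ≤ C) (hgb : ∀ x, ‖g x‖ ≤ C)
    (hhb : ∀ x, ‖h x‖ ≤ C) {s : ℝ} (hs : s ∈ Set.Ico (1 / 2 : ℝ) (9 / 16)) (x : X) {L : ℂ}
    (hL : Tendsto (fun V : ℝ => (1 / (V : ℂ)) * ∫ v in (0 : ℝ)..V, phi T f g h (s, x) v) atTop (𝓝 L)) :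
    Tendsto (fun N : ℕ => (1 / (N : ℂ)) * ∑ n ∈ Icc 1 N, cub T f g h x n) atTop (𝓝 (16 * L)) := by
  have h1 := (hL.comp tendsto_natCast_atTop_atTop).const_mul (16 : ℂ)
  have hb : ∀ n, ‖cub T f g h x n‖ ≤ C * C * C := by
    intro n
    unfold cub
    rw [norm_mul, norm_mul]
    have h1 := hfb (T^[n] x)
    have h2 := hgb (T^[2 * n] x)
    have h3 := hhb (T^[3 * n] x)
    gcongr
  have h2 : Tendsto (fun N : ℕ => (1 / (N : ℂ)) * (cub T f g h x N - cub T f g h x 0)) atTop (𝓝 0) := by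
    have h3 : Tendsto (fun N : ℕ => (2 * (C * C * C)) * (1 / (N : ℝ))) atTop (𝓝 0) := by
      have := (tendsto_one_div_atTop_nhds_zero_nat (𝕜 := ℝ)).const_mul (2 * (C * C * C))
      rwa [mul_zero] at this
    refine squeeze_zero_norm (fun N => ?_) h3
    rw [norm_mul, norm_div, norm_one, Complex.norm_natCast, mul_comm]
    refine mul_le_mul_of_nonneg_right ?_ (by positivity)
    refine (norm_sub_le _ _).trans ?_
    linarith [hb N, hb 0]
  have h3 := h1.add h2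
  rw [add_zero] at h3
  refine h3.congr fun N => ?_
  simp only [Function.comp_apply]
  rw [Complex.ofReal_natCast, phi_int hT hf hg hh hC0 hfb hgb hhb hs x N]
  have h4 : ∑ n ∈ Icc 1 N, cub T f g h x n = ∑ n ∈ range N, cub T f g h x n +
      (cub T f g h x N - cub T f g h x 0) := by
    have h5 : ∑ n ∈ range (N + 1), cub T f g h x n = ∑ n ∈ range N, cub T f g h x n + cub T f g h x N :=
      sum_range_succ _ _
    have h6 : ∑ n ∈ range (N + 1), cub T f g h x n = ∑ n ∈ Icc 1 N, cub T f g h x n + cub T f g h x 0 := by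
      rw [sum_range_succ', ← Ioc_Icc]
      congr 1
      have hI : Ioc 0 N = Ico (0 + 1) (N + 1) := by
        ext n
        simp only [mem_Ioc, mem_Ico]
        omega
      rw [hI, ← sum_Ico_add' (fun n => cub T f g h x n) 0 N 1, ← range_eq_Ico]
    have h7 := h5.symm.trans h6
    linear_combination -h7
  rw [h4]
  ring

/-- the times of convergence of the suspension flow of a map with divergent averages -/
theorem amp {T : X ≃ᵐ X} (hT : MeasurePreserving T μ μ) {f g h : X → ℂ} (hf : Measurable f)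
    (hg : Measurable g) (hh : Measurable h) {C : ℝ} (hC0 : 0 ≤ C) (hfb : ∀ x, ‖f x‖ ≤ C) (hgb : ∀ x, ‖g x‖ ≤ C)
    (hhb : ∀ x, ‖h x‖ ≤ C)
    (hbad : ¬ ∀ᵐ x ∂μ, ∃ L : ℂ, Tendsto (fun N : ℕ => (1 / (N : ℂ)) * ∑ n ∈ Icc 1 N, cub T f g h x n)
      atTop (𝓝 L)) {q : ℝ} (hq : 3 < q) :
    GNull q {a : ℝ | 0 < a ∧ ∀ᵐ p ∂(lam.prod μ), ∃ L : ℂ, Tendsto (fun N : ℕ => (1 / (N : ℂ)) * ∑ n ∈ Icc 1 N,
      win f ((susp T a)^[n] p) * lift2 g ((susp T a)^[2 * n] p) * lift2 h ((susp T a)^[3 * n] p))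
      atTop (𝓝 L)} := by
  have hS := susp_flow hT
  have hτ : ∀ j : Fin 3, IsFlow (lam.prod μ) (fun t => susp T (((j : ℕ) + 1 : ℝ) * t)) := fun j =>
    Pool.Agent.Y256.MC.isFlow_mul hS _
  have hFm : ∀ j : Fin 3, AEStronglyMeasurable ((![win f, lift2 g, lift2 h] : Fin 3 → ℝ × X → ℂ) j)
      (lam.prod μ) := by
    intro j
    fin_cases j
    · exact (win_meas hf).aestronglyMeasurable
    · exact (lift2_meas hg).aestronglyMeasurable
    · exact (lift2_meas hh).aestronglyMeasurable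
  have hFb : ∀ j : Fin 3, ∃ C' : ℝ, ∀ᵐ p ∂(lam.prod μ), ‖(![win f, lift2 g, lift2 h] : Fin 3 → ℝ × X → ℂ) j p‖ ≤
      C' := by
    intro j
    refine ⟨C, ae_of_all _ ?_⟩
    intro p
    fin_cases j
    · exact win_bd hC0 hfb p
    · exact hgb _
    · exact hhb _
  have hB : Pool.Agent.Y957.MC.Bes (fun _ => 1) := fun ε hε =>
    ⟨{0}, fun _ => 1, Eventually.of_forall fun N => by simp [hε.le]⟩
  have hmean : Tendsto (fun N : ℕ => (1 / (N : ℂ)) * ∑ n ∈ Icc 1 N, (fun _ : ℕ => (1 : ℂ)) n) atTop (𝓝 1) := by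
    refine tendsto_const_nhds.congr' ?_
    filter_upwards [eventually_gt_atTop 0] with N hN
    have hN' : (N : ℂ) ≠ 0 := by exact_mod_cast hN.ne'
    simp [hN']
  refine (bes_gnull (μ := lam.prod μ) hq hB hmean hτ hFm hFb).mono ?_
  rintro a ⟨ha0, ha⟩
  refine ⟨ha0, fun hcon => hbad ?_⟩
  have h1 := conv_iff (B := fun _ => 1) (b := 1) one_ne_zero hτ hFm hFb ha0 hcon
  have hprod : ∀ (p : ℝ × X) (v : ℝ), ∏ j : Fin 3, (![win f, lift2 g, lift2 h] : Fin 3 → ℝ × X → ℂ) j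
      ((fun t => susp T (((j : ℕ) + 1 : ℝ) * t)) v p) = phi T f g h p v := by
    intro p v
    rw [Fin.prod_univ_three]
    have a0 : ((((0 : Fin 3) : ℕ) : ℝ) + 1) * v = v := by simp
    have a1 : ((((1 : Fin 3) : ℕ) : ℝ) + 1) * v = 2 * v := by
      have : (((1 : Fin 3) : ℕ) : ℝ) = 1 := by norm_num
      rw [this]
      ring
    have a2 : ((((2 : Fin 3) : ℕ) : ℝ) + 1) * v = 3 * v := by
      have : (((2 : Fin 3) : ℕ) : ℝ) = 2 := by norm_num
      rw [this]
      ring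
    beta_reduce
    rw [a0, a1, a2]
    rfl
  -- convergence of the continuous averages
  have h2 : ∀ᵐ p ∂(lam.prod μ), ∃ L : ℂ,
      Tendsto (fun V : ℝ => (1 / (V : ℂ)) * ∫ v in (0 : ℝ)..V, phi T f g h p v) atTop (𝓝 L) := by
    filter_upwards [h1, ha] with p hp hL
    obtain ⟨L, hL⟩ := hL
    refine ⟨L, ?_⟩
    have h3 := (hp L).1 (by
      rw [one_mul]
      refine hL.congr fun N => ?_
      congr 1
      refine sum_congr rfl fun n _ => ?_
      rw [one_mul, hprod]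
      have hit := fun k : ℕ => iter_flow hS.zero hS.add a k p
      rw [hit, hit, hit]
      unfold phi
      have b2 : a * ((2 * n : ℕ) : ℝ) = 2 * (a * n) := by push_cast; ring
      have b3 : a * ((3 * n : ℕ) : ℝ) = 3 * (a * n) := by push_cast; ring
      rw [b2, b3])
    refine h3.congr fun V => ?_
    congr 1
    exact intervalIntegral.integral_congr fun v _ => hprod p v
  have h3 := Measure.ae_ae_of_ae_prod h2
  have hJ : lam (Set.Ico (1 / 2 : ℝ) (9 / 16)) ≠ 0 := by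
    unfold lam
    rw [Measure.restrict_apply measurableSet_Ico]
    have : Set.Ico (1 / 2 : ℝ) (9 / 16) ∩ Set.Ico 0 1 = Set.Ico (1 / 2 : ℝ) (9 / 16) := by
      apply Set.inter_eq_self_of_subset_left
      intro v hv
      exact ⟨by linarith [hv.1], by linarith [hv.2]⟩
    rw [this, Real.volume_Ico]
    simp only [ne_eq, ENNReal.ofReal_eq_zero, not_le]
    norm_num
  obtain ⟨s, hs, hsx⟩ : ∃ s ∈ Set.Ico (1 / 2 : ℝ) (9 / 16), ∀ᵐ x ∂μ, ∃ L : ℂ,
      Tendsto (fun V : ℝ => (1 / (V : ℂ)) * ∫ v in (0 : ℝ)..V, phi T f g h (s, x) v) atTop (𝓝 L) := by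
    by_contra hne
    apply hJ
    refine measure_mono_null (fun s hs => ?_) (ae_iff.1 h3)
    exact fun hgood => hne ⟨s, hs, hgood⟩
  filter_upwards [hsx] with x hx
  obtain ⟨L, hL⟩ := hx
  exact ⟨16 * L, disc_of_cont hT hf hg hh hC0 hfb hgb hhb hs x hL⟩

end Pool.Agent.U587.ET
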