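import Pool.Agent.U587.ET.Core3

set_option autoImplicit false

/-!
One exceptional set of times for all functions: approximation in `L¹` at a fixed time.
-/

namespace Pool.Agent.U587.ET

open MeasureTheory Filter Finset
open Pool.Agent.H469R2.NK (e norm_e)
open Pool.Agent.Y957.MC (IsFlow smo flowInv smo_lip exists_version Bes)
open Pool.Agent.Y312.MC (smo_meas smo_bdd smo_L1 meas_orb flowInv_le ii_orb)
open scoped Topology

universe u

variable {X : Type u} [mX : MeasurableSpace X] {μ : Measure X} [IsProbabilityMeasure μ]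

/-- approximation at one time -/
theorem transfer {α a : ℝ} (ha0 : 0 < a) {m : ℕ} {τ : Fin m → ℝ → X → X} (hτ : ∀ j, IsFlow μ (τ j))
    {f : Fin m → X → ℂ} (hf : ∀ j, Measurable (f j)) (hf1 : ∀ j x, ‖f j x‖ ≤ 1)
    {g : ℕ → Fin m → X → ℂ} (hg : ∀ i j, Measurable (g i j)) (hg1 : ∀ i j x, ‖g i j x‖ ≤ 1)
    (hfg : ∀ j, Tendsto (fun i => ∫ x, ‖f j x - g i j x‖ ∂μ) atTop (𝓝 0))
    (h : ∀ i, ∀ᵐ x ∂μ, Tendsto (fun N => fd α (fun v => ∏ j, g i j (τ j v x)) a N) atTop (𝓝 0)) :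
    ∀ᵐ x ∂μ, Tendsto (fun N => fd α (fun v => ∏ j, f j (τ j v x)) a N) atTop (𝓝 0) := by
  obtain ⟨G, hG⟩ : ∃ G : ℕ → X → ℝ → ℂ, ∀ i x v, G i x v = ∏ j, g i j (τ j v x) := ⟨_, fun i x v => rfl⟩
  have hGm : ∀ i, Measurable (fun p : X × ℝ => G i p.1 p.2) := by
    intro i
    simp only [hG]
    refine Finset.measurable_prod _ fun j _ => ?_
    exact (hg i j).comp ((hτ j).meas.comp measurable_swap)
  have hG1 : ∀ i x v, ‖G i x v‖ ≤ 1 := by
    intro i x v
    rw [hG]
    exact norm_prod_le_one _ _ fun j _ => hg1 i j _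
  have hmain : ∀ᵐ x ∂μ, ∀ i, Tendsto (fun N => fd α (G i x) a N) atTop (𝓝 0) := by
    rw [ae_all_iff]
    intro i
    filter_upwards [h i] with x hx
    refine hx.congr fun N => ?_
    congr 1
    funext v
    rw [hG]
  obtain ⟨E, hE⟩ : ∃ E : ℕ → Fin m → X → ℝ, ∀ i j, E i j = fun x => ‖f j x - g i j x‖ := ⟨_, fun i j => rfl⟩
  have hEm : ∀ i j, Measurable (E i j) := fun i j => by rw [hE]; exact ((hf j).sub (hg i j)).norm
  have hEb : ∀ i j x, 0 ≤ E i j x ∧ E i j x ≤ 2 := fun i j x => by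
    rw [hE]
    refine ⟨norm_nonneg _, (norm_sub_le _ _).trans ?_⟩
    linarith [hf1 j x, hg1 i j x]
  have hEb' : ∀ i j x, |E i j x| ≤ 2 := fun i j x => by
    rw [abs_of_nonneg (hEb i j x).1]
    exact (hEb i j x).2
  have hE1 : ∀ j, Tendsto (fun i => ∫ x, E i j x ∂μ) atTop (𝓝 0) := by
    intro j
    refine (hfg j).congr fun i => ?_
    rw [hE]
  have hEi : ∀ i j, Integrable (E i j) μ := fun i j =>
    Integrable.of_bound (hEm i j).aestronglyMeasurable 2 (ae_of_all _ (hEb' i j))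
  obtain ⟨c1, hc1⟩ : ∃ c1 : ℕ → Fin m → X → ℝ, ∀ i j, c1 i j =
      μ[fun y => E i j (τ j a y) | MeasurableSpace.invariants (τ j a)] := ⟨_, fun i j => rfl⟩
  obtain ⟨c2, hc2⟩ : ∃ c2 : ℕ → Fin m → X → ℝ, ∀ i j, c2 i j = μ[E i j | flowInv (τ j)] := ⟨_, fun i j => rfl⟩
  have hd : ∀ᵐ x ∂μ, ∀ i j, Tendsto (fun N : ℕ => (1 / (N : ℝ)) * ∑ n ∈ Ioc 0 N, E i j (τ j (a * n) x)) atTop
      (𝓝 (c1 i j x)) := by
    rw [ae_all_iff]
    intro i
    rw [ae_all_iff]
    intro j
    rw [hc1]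
    exact disc_erg (hτ j) (hEm i j) (hEb' i j) a
  have hcn : ∀ᵐ x ∂μ, ∀ i j, Tendsto (fun V : ℝ => smo (τ j) (E i j) V x) atTop (𝓝 (c2 i j x)) := by
    rw [ae_all_iff]
    intro i
    rw [ae_all_iff]
    intro j
    rw [hc2]
    exact Pool.Agent.Y48.MC.flwb X μ (τ j) (E i j) (hτ j) (hEm i j) ⟨2, hEb' i j⟩
  have hc1i : ∀ i j, Integrable (c1 i j) μ := fun i j => by rw [hc1]; exact integrable_condExp
  have hc2i : ∀ i j, Integrable (c2 i j) μ := fun i j => by rw [hc2]; exact integrable_condExp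
  have hc1I : ∀ i j, ∫ x, c1 i j x ∂μ = ∫ x, E i j x ∂μ := by
    intro i j
    rw [hc1, integral_condExp (MeasurableSpace.invariants_le _)]
    have := (hτ j).mp a
    rw [← integral_map this.measurable.aemeasurable (by rw [this.map_eq]; exact (hEm i j).aestronglyMeasurable),
      this.map_eq]
  have hc2I : ∀ i j, ∫ x, c2 i j x ∂μ = ∫ x, E i j x ∂μ := by
    intro i j
    rw [hc2, integral_condExp (flowInv_le (τ j))]
  obtain ⟨Ψ, hΨ⟩ : ∃ Ψ : ℕ → X → ℝ, ∀ i, Ψ i = fun x => ∑ j, (c1 i j x + c2 i j x) := ⟨_, fun i => rfl⟩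
  have hΨ0 : ∀ i, 0 ≤ᵐ[μ] Ψ i := by
    intro i
    have h1 : ∀ᵐ x ∂μ, ∀ j, 0 ≤ c1 i j x := by
      rw [ae_all_iff]
      intro j
      rw [hc1]
      exact condExp_nonneg (ae_of_all _ fun x => (hEb i j _).1)
    have h2 : ∀ᵐ x ∂μ, ∀ j, 0 ≤ c2 i j x := by
      rw [ae_all_iff]
      intro j
      rw [hc2]
      exact condExp_nonneg (ae_of_all _ fun x => (hEb i j _).1)
    filter_upwards [h1, h2] with x hx1 hx2
    rw [hΨ]
    exact Finset.sum_nonneg fun j _ => add_nonneg (hx1 j) (hx2 j)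
  have hΨi : ∀ i, Integrable (Ψ i) μ := fun i => by
    rw [hΨ]
    exact integrable_finsetSum _ fun j _ => (hc1i i j).add (hc2i i j)
  have hΨint : ∀ i, ∫ x, Ψ i x ∂μ = ∑ j, (∫ x, E i j x ∂μ + ∫ x, E i j x ∂μ) := by
    intro i
    have h1 : ∫ x, Ψ i x ∂μ = ∫ x, ∑ j, (c1 i j x + c2 i j x) ∂μ := by rw [hΨ]
    rw [h1, integral_finsetSum (Finset.univ : Finset (Fin m)) (f := fun j x => c1 i j x + c2 i j x)
      fun j _ => (hc1i i j).add (hc2i i j)]
    refine Finset.sum_congr rfl fun j _ => ?_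
    rw [integral_add (hc1i i j) (hc2i i j), hc1I, hc2I]
  have hΨlim : Tendsto (fun i => ∫ x, Ψ i x ∂μ) atTop (𝓝 0) := by
    simp only [hΨint]
    have := tendsto_finsetSum (Finset.univ : Finset (Fin m)) fun j _ => (hE1 j).add (hE1 j)
    simpa using this
  filter_upwards [hmain, hd, hcn, exists_small hΨ0 hΨi hΨlim] with x hx1 hx2 hx3 hx4
  rw [Metric.tendsto_nhds]
  intro ε hε
  obtain ⟨k, hk⟩ := exists_nat_one_div_lt hε
  obtain ⟨i, hi⟩ := hx4 k
  have hlimN : Tendsto (fun N : ℕ => a * (N : ℝ)) atTop atTop :=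
    tendsto_natCast_atTop_atTop.const_mul_atTop ha0
  have h1 : Tendsto (fun N : ℕ => ‖fd α (G i x) a N‖ +
      ∑ j, ((1 / (N : ℝ)) * ∑ n ∈ Ioc 0 N, E i j (τ j (a * n) x) + smo (τ j) (E i j) (a * N) x)) atTop
      (𝓝 (0 + Ψ i x)) := by
    rw [hΨ]
    refine Tendsto.add ?_ (tendsto_finsetSum _ fun j _ => (hx2 i j).add ((hx3 i j).comp hlimN))
    have := (hx1 i).norm
    rwa [norm_zero] at this
  have h2 : 0 + Ψ i x < ε := by linarith
  filter_upwards [h1.eventually (gt_mem_nhds h2), eventually_ge_atTop 1] with N hN hN1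
  rw [dist_zero_right]
  refine lt_of_le_of_lt ?_ hN
  have hN0 : (0 : ℝ) < N := by exact_mod_cast hN1
  have hPm : Measurable fun v : ℝ => ∏ j, f j (τ j v x) :=
    Finset.measurable_prod _ fun j _ => (hf j).comp ((hτ j).meas.comp (measurable_id.prodMk measurable_const))
  have hGmx : Measurable fun v : ℝ => G i x v := (hGm i).comp (measurable_const.prodMk measurable_id)
  have hPi : ∀ s t : ℝ, IntervalIntegrable (fun v : ℝ => ∏ j, f j (τ j v x)) volume s t := by
    intro s t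
    rw [intervalIntegrable_iff]
    exact Measure.integrableOn_of_bounded (M := 1) (by simp) hPm.aestronglyMeasurable
      (ae_of_all _ fun r => norm_prod_le_one _ _ fun j _ => hf1 j _)
  have hGi : ∀ s t : ℝ, IntervalIntegrable (fun v : ℝ => G i x v) volume s t := by
    intro s t
    rw [intervalIntegrable_iff]
    exact Measure.integrableOn_of_bounded (M := 1) (by simp) hGmx.aestronglyMeasurable
      (ae_of_all _ fun r => hG1 i x r)
  have hEii : ∀ j, ∀ s t : ℝ, IntervalIntegrable (fun v => E i j (τ j v x)) volume s t := fun j s t =>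
    ii_orb (hτ j) (hEm i j) (hEb' i j) x s t
  have hDi : ∀ s t : ℝ, IntervalIntegrable (fun v => ∑ j, E i j (τ j v x)) volume s t := by
    intro s t
    have h5 := IntervalIntegrable.sum (Finset.univ : Finset (Fin m)) (f := fun j v => E i j (τ j v x))
      (μ := volume) (a := s) (b := t) (fun j _ => hEii j s t)
    have h6 : (fun v => ∑ j, E i j (τ j v x)) = ∑ j : Fin m, fun v => E i j (τ j v x) := by
      ext v
      simp only [Finset.sum_apply]
    rw [h6]
    exact h5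
  refine (fd_comp (α := α) (P := fun v => ∏ j, f j (τ j v x)) (G := G i x)
    (Er := fun v => ∑ j, E i j (τ j v x)) (fun v => ?_) hPi hGi hDi ha0 hN1).trans (le_of_eq ?_)
  · rw [hG]
    refine (prod_diff_c _ _ _ (fun j _ => hf1 j _) (fun j _ => hg1 i j _)).trans ?_
    refine Finset.sum_le_sum fun j _ => ?_
    rw [hE]
  · rw [add_assoc]
    congr 1
    rw [Finset.sum_add_distrib]
    congr 1
    · rw [Finset.sum_comm, Finset.mul_sum]
    · rw [intervalIntegral.integral_finsetSum fun j _ => hEii j 0 (a * N), Finset.mul_sum]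
      rfl

omit [IsProbabilityMeasure μ] in
/-- a countable family of bounded functions, dense in `L¹` among the functions bounded by `1 / 2` -/
theorem dense_fns [IsFiniteMeasure μ] [IsSeparable μ] : ∃ d : ℕ → X → ℂ, (∀ i, Measurable (d i)) ∧
    (∀ i x, ‖d i x‖ ≤ 1) ∧ ∀ f : X → ℂ, Measurable f → (∀ x, ‖f x‖ ≤ 1 / 2) → ∀ ε : ℝ, 0 < ε →
      ∃ i, ∫ x, ‖f x - d i x‖ ∂μ < ε := by
  classical
  have : Nonempty (Lp ℂ 1 μ) := ⟨0⟩
  have : Fact ((1 : ENNReal) ≠ ⊤) := ⟨ENNReal.one_ne_top⟩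
  obtain ⟨u, hu⟩ := TopologicalSpace.exists_dense_seq (Lp ℂ 1 μ)
  have hum : ∀ i, Measurable (u i : X → ℂ) := fun i => (Lp.stronglyMeasurable (u i)).measurable
  refine ⟨fun i x => if ‖u i x‖ ≤ 1 then u i x else 0, fun i => ?_, fun i x => ?_, ?_⟩
  · exact Measurable.ite (measurableSet_le (hum i).norm measurable_const) (hum i) measurable_const
  · beta_reduce
    split_ifs with h
    · exact h
    · simp
  · intro f hf hf1 ε hε
    have hfm : MemLp f 1 μ := MemLp.of_bound hf.aestronglyMeasurable (1 / 2) (ae_of_all _ hf1)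
    obtain ⟨i, hi⟩ := hu.exists_dist_lt (hfm.toLp f) hε
    refine ⟨i, lt_of_le_of_lt ?_ hi⟩
    rw [L1.dist_eq_integral_dist]
    have hui : Integrable (u i : X → ℂ) μ := L1.integrable_coeFn (u i)
    have hfi : Integrable f μ := hfm.integrable le_rfl
    have h1 : ∫ x, dist ((hfm.toLp f : X → ℂ) x) (u i x) ∂μ = ∫ x, ‖f x - u i x‖ ∂μ := by
      refine integral_congr_ae ?_
      filter_upwards [hfm.coeFn_toLp] with x hx
      rw [hx, dist_eq_norm]
    rw [h1]
    refine integral_mono_ae ?_ (hfi.sub hui).norm (ae_of_all _ fun x => ?_)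
    · refine Integrable.of_bound (C := 2) (hf.sub (Measurable.ite (measurableSet_le (hum i).norm
        measurable_const) (hum i) measurable_const)).norm.aestronglyMeasurable (ae_of_all _ fun x => ?_)
      rw [norm_norm]
      refine (norm_sub_le _ _).trans ?_
      have h2 := hf1 x
      have h3 : ‖(if ‖u i x‖ ≤ 1 then u i x else 0 : ℂ)‖ ≤ 1 := by
        split_ifs with h
        · exact h
        · simp
      linarith
    · beta_reduce
      split_ifs with h
      · exact le_rfl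
      · rw [sub_zero]
        have h2 := norm_sub_norm_le (u i x) (f x)
        rw [norm_sub_rev] at h2
        have h3 := hf1 x
        linarith

/-- one exceptional set for all functions, and countably many frequencies -/
theorem uniform_char [IsSeparable μ] {m : ℕ} {τ : Fin m → ℝ → X → X} (hτ : ∀ j, IsFlow μ (τ j))
    {A : Set ℝ} (hA : A.Countable) : ∃ D : Set ℝ, (∀ q : ℝ, 3 < q → GNull q D) ∧ ∀ a : ℝ, 0 < a → a ∉ D →
      ∀ α ∈ A, ∀ f : Fin m → X → ℂ, (∀ j, AEStronglyMeasurable (f j) μ) → (∀ j, ∃ C : ℝ, ∀ᵐ x ∂μ, ‖f j x‖ ≤ C) →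
        ∀ᵐ x ∂μ, Tendsto (fun N => cmp (fun n => e (α * n)) (dl α) (fun v => ∏ j, f j (τ j v x)) a N)
          atTop (𝓝 0) := by
  obtain ⟨d, hdm, hd1, hd⟩ := dense_fns (μ := μ)
  have : Countable A := hA.to_subtype
  refine ⟨⋃ p : A × (Fin m → ℕ), {a | 0 < a ∧ ¬ ∀ᵐ x ∂μ, Tendsto (fun N => cmp (fun n => e ((p.1 : ℝ) * n))
    (dl (p.1 : ℝ)) (fun v => ∏ j, d (p.2 j) (τ j v x)) a N) atTop (𝓝 0)}, fun q hq => ?_, ?_⟩
  · refine gnull_iUnion (by linarith) fun p => ?_
    exact char_gnull hq (p.1 : ℝ) hτ (f := fun j => d (p.2 j)) (fun j => (hdm _).aestronglyMeasurable)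
      fun j => ⟨1, ae_of_all _ (hd1 _)⟩
  · intro a ha0 haD α hα f hf hfb
    simp only [Set.mem_iUnion, Set.mem_ofPred_eq, not_exists, not_and, not_not] at haD
    choose g hgm hgb hfg using fun j => exists_version (hf j) (hfb j)
    choose C hC using hgb
    obtain ⟨R, hR⟩ : ∃ R : ℝ, R = 2 * (∑ j, |C j| + 1) := ⟨_, rfl⟩
    have hR0 : 0 < R := by
      rw [hR]
      have : 0 ≤ ∑ j, |C j| := Finset.sum_nonneg fun j _ => abs_nonneg _
      linarith
    have hRc : (R : ℂ) ≠ 0 := by exact_mod_cast hR0.ne'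
    have hgR : ∀ j x, ‖g j x / (R : ℂ)‖ ≤ 1 / 2 := by
      intro j x
      rw [norm_div, Complex.norm_real, Real.norm_of_nonneg hR0.le, div_le_iff₀ hR0]
      have h1 := (hC j x).trans (le_abs_self _)
      have h2 : |C j| ≤ ∑ j, |C j| :=
        Finset.single_le_sum (f := fun j => |C j|) (fun i _ => abs_nonneg _) (Finset.mem_univ j)
      rw [hR]
      linarith
    have hgRm : ∀ j, Measurable fun x => g j x / (R : ℂ) := fun j => (hgm j).div_const _
    choose s hs using fun (i : ℕ) (j : Fin m) => hd (fun x => g j x / (R : ℂ)) (hgRm j) (hgR j)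
      (1 / ((i : ℝ) + 1)) (by positivity)
    have hlim : ∀ j, Tendsto (fun i => ∫ x, ‖g j x / (R : ℂ) - d (s i j) x‖ ∂μ) atTop (𝓝 0) := by
      intro j
      refine squeeze_zero (fun i => integral_nonneg fun x => norm_nonneg _) (fun i => (hs i j).le) ?_
      exact tendsto_one_div_add_atTop_nhds_zero_nat
    have h1 := transfer (α := α) ha0 hτ hgRm (fun j x => (hgR j x).trans (by norm_num))
      (g := fun i j => d (s i j)) (fun i j => hdm _) (fun i j => hd1 _) hlim (fun i => by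
        have h2 := haD (⟨α, hα⟩, s i) ha0
        filter_upwards [h2] with x hx
        refine hx.congr fun N => ?_
        rw [fd_cmp α _ ha0])
    filter_upwards [h1, versions hτ hfg a] with x hx hv
    have h2 := hx.const_mul ((R : ℂ) ^ m)
    rw [mul_zero] at h2
    refine h2.congr fun N => ?_
    rw [fd_cmp α _ ha0, ← cmp_smul, hv]
    congr 1
    funext v
    rw [Finset.prod_div_distrib]
    simp only [Finset.prod_const, Finset.card_univ, Fintype.card_fin]
    field_simp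

end Pool.Agent.U587.ET
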