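import Pool.Agent.U587.ET.Exp3
import Pool.Agent.Y758.MC.ParM
import Pool.Agent.Y259.MC.Par
import Pool.Agent.Y259.MC.Tail

set_option autoImplicit false

/-!
The mean square over the times `a` in `[A, 2 A]` of one block of the averages, uniformly over all Lipschitz functions.
-/

namespace Pool.Agent.U587.ET

open MeasureTheory Filter Finset Pool.Agent.Y957.MC
open Pool.Agent.H469R2.NK (e norm_e harm_le)

/-- modulus of continuity of a Lipschitz function -/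
lemma mod_unif {F : ℝ → ℂ} {L : ℝ} (hL : 0 ≤ L) (hF : ∀ v w, ‖F v - F w‖ ≤ L * |v - w|) {Λ : ℝ} (hΛ : 1 ≤ Λ)
    {M : ℝ} (hM : 1 ≤ M) : Mod Λ F (L * (2 * Real.exp Λ) * Λ) M := by
  intro t ht0 ht1
  have h1 : ‖∫ s in (0 : ℝ)..Λ, ‖F (M * Real.exp (s + t)) - F (M * Real.exp s)‖‖ ≤
      (L * (2 * Real.exp Λ) * M * t) * |Λ - 0| := by
    refine intervalIntegral.norm_integral_le_of_norm_le_const fun s hs => ?_
    rw [Set.uIoc_of_le (by linarith)] at hs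
    rw [norm_norm]
    have h2 := hF (M * Real.exp (s + t)) (M * Real.exp s)
    have h3 : |M * Real.exp (s + t) - M * Real.exp s| ≤ M * Real.exp Λ * (2 * t) := by
      have e2 : M * Real.exp (s + t) - M * Real.exp s = M * Real.exp s * (Real.exp t - 1) := by
        rw [Real.exp_add]; ring
      have h4 : Real.exp t - 1 ≤ 2 * t := by
        have h5 : |Real.exp t - 1 - t| ≤ t ^ 2 := Real.abs_exp_sub_one_sub_id_le (by rw [abs_of_pos ht0]; exact ht1)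
        have h6 := (abs_le.mp h5).2
        nlinarith
      have h5 : 0 ≤ Real.exp t - 1 := by
        have := Real.add_one_le_exp t; linarith
      rw [e2, abs_of_nonneg (by positivity)]
      have h6 : Real.exp s ≤ Real.exp Λ := Real.exp_le_exp.mpr hs.2
      gcongr
    calc ‖F (M * Real.exp (s + t)) - F (M * Real.exp s)‖ ≤ L * (M * Real.exp Λ * (2 * t)) :=
          h2.trans (by gcongr)
      _ = _ := by ring
  rw [sub_zero, abs_of_pos (by linarith : 0 < Λ)] at h1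
  calc _ ≤ ‖∫ s in (0 : ℝ)..Λ, ‖F (M * Real.exp (s + t)) - F (M * Real.exp s)‖‖ := Real.le_norm_self _
    _ ≤ _ := h1
    _ = _ := by ring

/-- summation by parts -/
lemma wsum {c : ℤ → ℝ} (S : Finset ℤ) {P : ℕ} (hP : 1 ≤ P) {T : ℝ} (hT : 0 ≤ T)
    (h1 : ∑ k ∈ S, c k ≤ 1) (ht : ∀ j : ℕ, 1 ≤ j → ∑ k ∈ S.filter (fun k => (j : ℤ) < |k|), c k ≤ T / j)
    (hS : ∀ k ∈ S, |k| ≤ (P : ℤ)) (hc : ∀ k, 0 ≤ c k) :
    ∑ k ∈ S, c k * |(k : ℝ)| ≤ 1 + T * (1 + Real.log P) := by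
  have hk : ∀ k ∈ S, c k * |(k : ℝ)| = ∑ j ∈ range P, if (j : ℤ) < |k| then c k else 0 := by
    intro k hkS
    have h2 : |(k : ℝ)| = (k.natAbs : ℝ) := by
      rw [← Int.cast_abs, Nat.cast_natAbs]
    have hab : |k| = (k.natAbs : ℤ) := Int.abs_eq_natAbs k
    have h3 : k.natAbs ≤ P := by
      have := hS k hkS
      rw [hab] at this
      exact_mod_cast this
    have h4 : (range P).filter (fun j : ℕ => (j : ℤ) < |k|) = range k.natAbs := by
      ext j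
      simp only [mem_filter, mem_range]
      rw [hab, Nat.cast_lt]
      omega
    rw [← sum_filter, h4, sum_const, card_range, nsmul_eq_mul, h2, mul_comm]
  rw [sum_congr rfl hk, sum_comm, range_eq_Ico, sum_eq_sum_Ico_succ_bot (by omega)]
  refine add_le_add ?_ ?_
  · rw [← sum_filter]
    exact (sum_le_sum_of_subset_of_nonneg (filter_subset _ _) fun k _ _ => hc k).trans h1
  · calc ∑ j ∈ Ico (0 + 1) P, ∑ k ∈ S, (if (j : ℤ) < |k| then c k else 0) ≤ ∑ j ∈ Ico 1 P, T * (1 / (j : ℝ)) := by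
          refine sum_le_sum fun j hj => ?_
          rw [← sum_filter]
          have := ht j (by rw [mem_Ico] at hj; omega)
          rw [mul_one_div]
          exact this
      _ = T * ∑ j ∈ Ico 1 P, 1 / (j : ℝ) := by rw [mul_sum]
      _ ≤ T * (1 + Real.log P) := mul_le_mul_of_nonneg_left (harm_le P) hT

lemma tsum_bound {c b : ℤ → ℝ} (hc0 : ∀ k, 0 ≤ c k) (hcs : Summable c) (hc1 : ∑' k, c k ≤ 1) (hb0 : ∀ k, 0 ≤ b k)
    (hb4 : ∀ k, b k ≤ 4) {P : ℕ} (hP : 1 ≤ P) {α β T : ℝ} (hα : 0 ≤ α) (hβ : 0 ≤ β) (hT : 0 ≤ T)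
    (hb : ∀ k : ℤ, b k ≤ α + β * |(k : ℝ)|)
    (htail : ∀ j : ℕ, 1 ≤ j → ∀ S : Finset ℤ, (∀ k ∈ S, (j : ℤ) < |k|) → ∑ k ∈ S, c k ≤ T / j) :
    ∑' k, c k * b k ≤ α + β * (1 + T * (1 + Real.log P)) + 4 * (T / P) := by
  have hle : ∀ k, c k * b k ≤ 4 * c k := fun k => by
    rw [mul_comm 4]
    exact mul_le_mul_of_nonneg_left (hb4 k) (hc0 k)
  have hsum : Summable fun k : ℤ => c k * b k :=
    Summable.of_nonneg_of_le (fun k => mul_nonneg (hc0 k) (hb0 k)) hle (hcs.mul_left 4)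
  refine hsum.tsum_le_of_sum_le fun S => ?_
  rw [← sum_filter_add_sum_filter_not S (fun k => |k| ≤ (P : ℤ))]
  refine add_le_add ?_ ?_
  · have h1 : ∑ k ∈ S with |k| ≤ (P : ℤ), c k ≤ 1 := (hcs.sum_le_tsum _ (fun k _ => hc0 k)).trans hc1
    calc ∑ k ∈ S with |k| ≤ (P : ℤ), c k * b k
        ≤ ∑ k ∈ S with |k| ≤ (P : ℤ), (α * c k + β * (c k * |(k : ℝ)|)) := by
          refine sum_le_sum fun k _ => ?_
          calc c k * b k ≤ c k * (α + β * |(k : ℝ)|) := mul_le_mul_of_nonneg_left (hb k) (hc0 k)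
            _ = _ := by ring
      _ = α * ∑ k ∈ S with |k| ≤ (P : ℤ), c k + β * ∑ k ∈ S with |k| ≤ (P : ℤ), c k * |(k : ℝ)| := by
          rw [sum_add_distrib, mul_sum, mul_sum]
      _ ≤ α * 1 + β * (1 + T * (1 + Real.log P)) := by
          refine add_le_add (mul_le_mul_of_nonneg_left h1 hα) (mul_le_mul_of_nonneg_left ?_ hβ)
          refine wsum _ hP hT h1 (fun j hj => ?_) (fun k hk => (mem_filter.1 hk).2) hc0
          exact htail j hj _ fun k hk => (mem_filter.1 hk).2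
      _ = _ := by ring
  · refine (sum_le_sum fun k _ => hle k).trans ?_
    rw [← mul_sum]
    refine mul_le_mul_of_nonneg_left ?_ (by norm_num)
    refine htail P hP _ fun k hk => ?_
    rw [mem_filter] at hk
    exact not_le.mp hk.2

lemma lip_meas {F : ℝ → ℂ} {L : ℝ} (hL : 0 ≤ L) (hF : ∀ v w, ‖F v - F w‖ ≤ L * |v - w|) : Continuous F := by
  have : LipschitzWith (Real.toNNReal L) F := by
    apply LipschitzWith.of_dist_le_mul
    intro v w
    rw [Real.dist_eq, dist_eq_norm, Real.coe_toNNReal _ hL]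
    exact hF v w
  exact this.continuous

/-- `q` at `y = v / U` -/
lemma q_div {κ v U : ℝ} (hv : 0 < v) (hU : 0 < U) :
    Complex.exp (((κ * Real.log (v / U) : ℝ) : ℂ) * Complex.I) =
      Complex.exp (((-(κ * Real.log U) : ℝ) : ℂ) * Complex.I) * q κ v := by
  unfold q
  rw [← Complex.exp_add, ← add_mul, ← Complex.ofReal_add]
  congr 3
  rw [Real.log_div hv.ne' hU.ne']
  ring

/-- numerical part -/
lemma fin_num {A C₀ Cm C : ℝ} {N M : ℕ} (hA : 0 < A) (hC₀ : 0 < C₀) (hCm : 1 ≤ Cm) (hC : 0 < C)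
    (hN : 1 ≤ N) (hM : M ≤ N) :
    C * (1 + Real.log N) / N + 7 * C / N ^ 2 * (1 + C₀ * Cm * (A * M) * (1 + Real.log ((N ^ 2 : ℕ) : ℝ))) +
      4 * (C₀ * Cm * (A * M) / ((N ^ 2 : ℕ) : ℝ)) ≤
    (8 * C + 14 * C * (C₀ * Cm * A) + 4 * (C₀ * Cm * A)) * (1 + Real.log N) / N := by
  have hN1 : (1 : ℝ) ≤ N := by exact_mod_cast hN
  have hN0 : (0 : ℝ) < N := by linarith
  have hM' : (M : ℝ) ≤ N := by exact_mod_cast hM
  have hlog : 0 ≤ Real.log N := Real.log_nonneg hN1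
  have e1 : Real.log ((N ^ 2 : ℕ) : ℝ) = 2 * Real.log N := by
    push_cast
    rw [Real.log_pow]
    push_cast
    ring
  rw [e1]
  push_cast
  set T : ℝ := C₀ * Cm * A with hT
  have hT0 : 0 < T := by positivity
  have e2 : C₀ * Cm * (A * M) = T * M := by rw [hT]; ring
  rw [e2]
  have h1 : 7 * C / (N : ℝ) ^ 2 * (1 + T * M * (1 + 2 * Real.log N)) ≤
      7 * C * (1 + Real.log N) / N + 14 * C * T * (1 + Real.log N) / N := by
    have h2 : 7 * C / (N : ℝ) ^ 2 * (1 + T * M * (1 + 2 * Real.log N)) ≤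
        7 * C / (N : ℝ) ^ 2 * (N * (1 + Real.log N) + T * N * (2 * (1 + Real.log N))) := by
      refine mul_le_mul_of_nonneg_left (add_le_add ?_ ?_) (by positivity)
      · nlinarith
      · refine mul_le_mul (by gcongr) (by linarith) (by positivity) (by positivity)
    refine h2.trans (le_of_eq ?_)
    field_simp
    ring
  have h3 : 4 * (T * M / (N : ℝ) ^ 2) ≤ 4 * T * (1 + Real.log N) / N := by
    calc 4 * (T * M / (N : ℝ) ^ 2) ≤ 4 * (T * N / (N : ℝ) ^ 2) := by gcongr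
      _ = 4 * T * 1 / N := by field_simp
      _ ≤ 4 * T * (1 + Real.log N) / N := by gcongr; linarith
  calc _ ≤ C * (1 + Real.log N) / N + (7 * C * (1 + Real.log N) / N + 14 * C * T * (1 + Real.log N) / N) +
        4 * T * (1 + Real.log N) / N := by linarith
    _ = _ := by ring

theorem blk_int {ε A L : ℝ} (hε : 0 < ε) (hε1 : ε ≤ 1) (hA : 0 < A) (hL : 0 ≤ L) :
    ∃ C : ℝ, 0 < C ∧ ∀ᶠ N : ℕ in atTop, ∀ F : ℝ → ℂ, (∀ v, ‖F v‖ ≤ 1) →
      (∀ v w, ‖F v - F w‖ ≤ L * |v - w|) →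
      ∫ a in A..2 * A, ‖(1 / (N : ℂ)) * (∑ n ∈ Ioc ⌊ε * N⌋₊ N, F (a * n) -
        ∫ v in (⌊ε * N⌋₊ : ℝ)..N, F (a * v))‖ ^ 2 ≤ C * (1 + Real.log N) / N := by
  obtain ⟨Λ, hΛd⟩ : ∃ Λ : ℝ, Λ = 1 + Real.log (4 / ε) := ⟨_, rfl⟩
  have hlogε : 0 ≤ Real.log (4 / ε) := by
    refine Real.log_nonneg ?_
    rw [le_div_iff₀ hε]
    linarith
  have hΛ : 1 ≤ Λ := by linarith
  have hΛ0 : 0 < Λ := by linarith
  obtain ⟨C₀, hC₀, htail⟩ := Pool.Agent.Y259.MC.tail Λ hΛ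
  obtain ⟨Cm, hCmd⟩ : ∃ Cm : ℝ, Cm = max (L * (2 * Real.exp Λ) * Λ) 1 := ⟨_, rfl⟩
  have hCm : 1 ≤ Cm := hCmd ▸ le_max_right _ _
  have hCmle : L * (2 * Real.exp Λ) * Λ ≤ Cm := hCmd ▸ le_max_left _ _
  have hK : (1 : ℝ) ≤ 2 / ε := by
    rw [le_div_iff₀ hε]
    linarith
  obtain ⟨C, hC, hexp⟩ := uni_int (2 / ε) hK
  refine ⟨2 * Λ * A * (8 * C + 14 * C * (C₀ * Cm * A) + 4 * (C₀ * Cm * A)), by positivity, ?_⟩
  have hMt : Tendsto (fun N : ℕ => ((⌊ε * N⌋₊ : ℕ) : ℝ)) atTop atTop := by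
    refine tendsto_natCast_atTop_atTop.comp (tendsto_nat_floor_atTop.comp ?_)
    exact tendsto_natCast_atTop_atTop.const_mul_atTop hε
  have e1 : ∀ᶠ N : ℕ in atTop, max 1 (1 / A) ≤ ((⌊ε * N⌋₊ : ℕ) : ℝ) := hMt.eventually_ge_atTop _
  have e3 : ∀ᶠ N : ℕ in atTop, 2 / ε ≤ (N : ℝ) := tendsto_natCast_atTop_atTop.eventually_ge_atTop _
  filter_upwards [eventually_ge_atTop 1, e1, e3] with N hN1 hMX hNε F hF1 hFL
  have hN0 : (0 : ℝ) < N := by exact_mod_cast hN1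
  have hN1' : (1 : ℝ) ≤ N := by exact_mod_cast hN1
  have hFm : Measurable F := (lip_meas hL hFL).measurable
  obtain ⟨M, hM⟩ : ∃ M : ℕ, M = ⌊ε * N⌋₊ := ⟨_, rfl⟩
  rw [← hM] at hMX ⊢
  have hM1 : (1 : ℝ) ≤ M := (le_max_left _ _).trans hMX
  have hM1' : 1 ≤ M := by exact_mod_cast hM1
  have hM0 : (0 : ℝ) < M := by linarith
  have hMN' : (M : ℝ) ≤ N := by
    rw [hM]
    refine (Nat.floor_le (by positivity)).trans ?_
    nlinarith
  have hMN : M ≤ N := by exact_mod_cast hMN'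
  have hNM : (N : ℝ) / M ≤ 2 / ε := by
    rw [div_le_div_iff₀ hM0 hε]
    have h1 : ε * N < M + 1 := by
      rw [hM]
      exact Nat.lt_floor_add_one _
    rw [div_le_iff₀ hε] at hNε
    nlinarith
  have hNM' : (N : ℝ) ≤ 2 / ε * M := by rwa [div_le_iff₀ hM0] at hNM
  have hAU : 1 ≤ A * M := by
    have := (le_max_right _ _).trans hMX
    rw [div_le_iff₀ hA] at this
    linarith
  have hmod : Mod Λ F Cm (A * M) := by
    intro h h0 h1
    refine (mod_unif hL hFL hΛ hAU h h0 h1).trans ?_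
    gcongr
  -- the points
  obtain ⟨y, hy⟩ : ∃ y : ℝ → ℝ, y = fun v : ℝ => v / (M : ℝ) := ⟨_, rfl⟩
  have hym : Measurable y := by
    rw [hy]
    exact measurable_id.div_const _
  have hylog : ∀ v : ℝ, (M : ℝ) ≤ v → v ≤ N → 1 ≤ y v ∧ Real.log (2 * y v) ≤ Λ := by
    intro v hv1 hv2
    rw [hy]
    have h1 : v / M ≤ 2 / ε := le_trans (by gcongr) hNM
    refine ⟨by rw [le_div_iff₀ hM0]; linarith, ?_⟩
    have h2 : Real.log (2 * (v / M)) ≤ Real.log (4 / ε) := by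
      apply Real.log_le_log
      · have : 0 < v := hM0.trans_le hv1
        positivity
      · calc 2 * (v / M) ≤ 2 * (2 / ε) := by gcongr
          _ = 4 / ε := by ring
    simp only
    linarith
  have hmem : ∀ n ∈ Ioc M N, (M : ℝ) ≤ (n : ℝ) ∧ (n : ℝ) ≤ N := by
    intro n hn
    rw [mem_Ioc] at hn
    exact ⟨by exact_mod_cast hn.1.le, by exact_mod_cast hn.2⟩
  have p3 := Pool.Agent.Y758.MC.parm Λ F (Ioc M N) y A M M N N hΛ hFm hF1 hA hM0 hN1 hMN' hym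
    (fun n hn => hylog n (hmem n hn).1 (hmem n hn).2)
    (fun v hv => hylog v hv.1 hv.2)
  obtain ⟨p1, p2, -⟩ := Pool.Agent.Y259.MC.par Λ F (fun _ => 0) ∅ (fun _ => 1) A M 1 hΛ hFm hF1 hA hM0 le_rfl
    (fun n hn => absurd hn (Finset.notMem_empty n))
  have hUy : ∀ v : ℝ, (M : ℝ) * y v = v := fun v => by
    rw [hy]
    field_simp
  simp only [hUy] at p3
  refine p3.trans ?_
  have hbtm : ∀ k : ℤ, ‖btm Λ (Ioc M N) y M N N k‖ ^ 2 ≤
      C * (1 + Real.log N) / N + 7 * C / N ^ 2 * |(k : ℝ)| ∧ ‖btm Λ (Ioc M N) y M N N k‖ ≤ 2 := by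
    intro k
    obtain ⟨κ, hκ⟩ : ∃ κ : ℝ, κ = 2 * Real.pi * k / Λ := ⟨_, rfl⟩
    have hκk : |κ| ≤ 7 * |(k : ℝ)| := by
      rw [hκ, abs_div, abs_mul, abs_of_pos (by positivity : (0 : ℝ) < 2 * Real.pi), abs_of_pos hΛ0]
      have hpi : Real.pi ≤ 3.15 := by have := Real.pi_lt_d2; linarith
      calc 2 * Real.pi * |(k : ℝ)| / Λ ≤ 2 * Real.pi * |(k : ℝ)| := div_le_self (by positivity) hΛ
        _ ≤ 7 * |(k : ℝ)| := by
          refine mul_le_mul_of_nonneg_right ?_ (abs_nonneg _)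
          linarith
    have h3 : ∀ v : ℝ, (M : ℝ) ≤ v → Complex.exp (((κ * Real.log (y v) : ℝ) : ℂ) * Complex.I) =
        Complex.exp (((-(κ * Real.log M) : ℝ) : ℂ) * Complex.I) * q κ v := by
      intro v hv1
      rw [hy]
      exact q_div (hM0.trans_le hv1) hM0
    have h4 : ∫ v in (M : ℝ)..N, Complex.exp (((κ * Real.log (y v) : ℝ) : ℂ) * Complex.I) =
        Complex.exp (((-(κ * Real.log M) : ℝ) : ℂ) * Complex.I) * ∫ v in (M : ℝ)..N, q κ v := by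
      rw [← intervalIntegral.integral_const_mul]
      refine intervalIntegral.integral_congr fun v hv => ?_
      rw [Set.uIcc_of_le hMN'] at hv
      exact h3 v hv.1
    have h2 : btm Λ (Ioc M N) y M N N k = (1 / (N : ℂ)) *
        (Complex.exp (((-(κ * Real.log M) : ℝ) : ℂ) * Complex.I) *
        (∑ n ∈ Ioc M N, q κ n - ∫ v in (M : ℝ)..N, q κ v)) := by
      unfold btm
      rw [← hκ, h4, mul_sub (Complex.exp _), mul_sum]
      congr 2
      exact sum_congr rfl fun n hn => h3 n (hmem n hn).1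
    have h5 : ‖btm Λ (Ioc M N) y M N N k‖ = 1 / (N : ℝ) * ‖∑ n ∈ Ioc M N, q κ n - ∫ v in (M : ℝ)..N, q κ v‖ := by
      rw [h2, norm_mul, norm_mul, Complex.norm_exp_ofReal_mul_I, one_mul, norm_div,
        norm_one, Complex.norm_natCast]
    refine ⟨?_, ?_⟩
    · rw [h5, mul_pow]
      calc (1 / (N : ℝ)) ^ 2 * ‖∑ n ∈ Ioc M N, q κ n - ∫ v in (M : ℝ)..N, q κ v‖ ^ 2
          ≤ (1 / (N : ℝ)) ^ 2 * (C * (N * (1 + Real.log N) + |κ|)) :=
            mul_le_mul_of_nonneg_left (hexp M N hM1' hMN hNM' κ) (by positivity)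
        _ ≤ (1 / (N : ℝ)) ^ 2 * (C * (N * (1 + Real.log N) + 7 * |(k : ℝ)|)) := by gcongr
        _ = _ := by
          field_simp
    · rw [h5, one_div, inv_mul_le_iff₀ hN0]
      have g1 : ‖∑ n ∈ Ioc M N, q κ n‖ ≤ N := by
        refine (triv_le _ (fun n => q κ n) fun n => (norm_q κ n).le).trans ?_
        rw [Nat.card_Ioc]
        exact_mod_cast Nat.sub_le _ _
      have g2 : ‖∫ v in (M : ℝ)..N, q κ v‖ ≤ N := by
        refine (intervalIntegral.norm_integral_le_of_norm_le_const (C := 1) fun v _ => (norm_q κ v).le).trans ?_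
        rw [one_mul, abs_of_nonneg (by linarith)]
        linarith
      calc _ ≤ (N : ℝ) + N := (norm_sub_le _ _).trans (add_le_add g1 g2)
        _ = N * 2 := by ring
  have hgoal := tsum_bound (c := fun k => ‖cf Λ F (A * M) k‖ ^ 2) (b := fun k => ‖btm Λ (Ioc M N) y M N N k‖ ^ 2)
    (P := N ^ 2) (α := C * (1 + Real.log N) / N) (β := 7 * C / N ^ 2) (T := C₀ * Cm * (A * M))
    (fun k => by positivity) p1 p2 (fun k => by positivity)
    (fun k => by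
      have h1 := (hbtm k).2
      have h2 := norm_nonneg (btm Λ (Ioc M N) y M N N k)
      nlinarith) (Nat.one_le_pow _ _ hN1)
    (by have := Real.log_nonneg hN1'; positivity) (by positivity) (by positivity) (fun k => (hbtm k).1)
    (fun j hj S hS => htail F Cm (A * M) j hFm hF1 hCm hAU hmod hj S hS)
  have hnum := fin_num hA hC₀ hCm hC hN1 hMN
  calc 2 * Λ * A * ∑' k : ℤ, ‖cf Λ F (A * M) k‖ ^ 2 * ‖btm Λ (Ioc M N) y M N N k‖ ^ 2
      ≤ 2 * Λ * A * ((8 * C + 14 * C * (C₀ * Cm * A) + 4 * (C₀ * Cm * A)) * (1 + Real.log N) / N) :=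
        mul_le_mul_of_nonneg_left (hgoal.trans hnum) (by positivity)
    _ = _ := by ring

theorem blk_nonint {α ε A L : ℝ} (hα : ∀ k : ℤ, α ≠ k) (hε : 0 < ε) (hε1 : ε ≤ 1) (hA : 0 < A) (hL : 0 ≤ L) :
    ∃ C : ℝ, 0 < C ∧ ∀ᶠ N : ℕ in atTop, ∀ F : ℝ → ℂ, (∀ v, ‖F v‖ ≤ 1) →
      (∀ v w, ‖F v - F w‖ ≤ L * |v - w|) →
      ∫ a in A..2 * A, ‖(1 / (N : ℂ)) * ∑ n ∈ Ioc ⌊ε * N⌋₊ N, e (α * n) * F (a * n)‖ ^ 2 ≤
        C * (1 + Real.log N) / N := by
  obtain ⟨Λ, hΛd⟩ : ∃ Λ : ℝ, Λ = 1 + Real.log (4 / ε) := ⟨_, rfl⟩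
  have hlogε : 0 ≤ Real.log (4 / ε) := by
    refine Real.log_nonneg ?_
    rw [le_div_iff₀ hε]
    linarith
  have hΛ : 1 ≤ Λ := by linarith
  have hΛ0 : 0 < Λ := by linarith
  obtain ⟨C₀, hC₀, htail⟩ := Pool.Agent.Y259.MC.tail Λ hΛ
  obtain ⟨Cm, hCmd⟩ : ∃ Cm : ℝ, Cm = max (L * (2 * Real.exp Λ) * Λ) 1 := ⟨_, rfl⟩
  have hCm : 1 ≤ Cm := hCmd ▸ le_max_right _ _
  have hCmle : L * (2 * Real.exp Λ) * Λ ≤ Cm := hCmd ▸ le_max_left _ _
  have hK : (1 : ℝ) ≤ 2 / ε := by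
    rw [le_div_iff₀ hε]
    linarith
  obtain ⟨C, hC, hexp⟩ := uni_nonint (2 / ε) α hK hα
  refine ⟨2 * Λ * A * (8 * C + 14 * C * (C₀ * Cm * A) + 4 * (C₀ * Cm * A)), by positivity, ?_⟩
  have hMt : Tendsto (fun N : ℕ => ((⌊ε * N⌋₊ : ℕ) : ℝ)) atTop atTop := by
    refine tendsto_natCast_atTop_atTop.comp (tendsto_nat_floor_atTop.comp ?_)
    exact tendsto_natCast_atTop_atTop.const_mul_atTop hε
  have e1 : ∀ᶠ N : ℕ in atTop, max 1 (1 / A) ≤ ((⌊ε * N⌋₊ : ℕ) : ℝ) := hMt.eventually_ge_atTop _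
  have e3 : ∀ᶠ N : ℕ in atTop, 2 / ε ≤ (N : ℝ) := tendsto_natCast_atTop_atTop.eventually_ge_atTop _
  filter_upwards [eventually_ge_atTop 1, e1, e3] with N hN1 hMX hNε F hF1 hFL
  have hN0 : (0 : ℝ) < N := by exact_mod_cast hN1
  have hN1' : (1 : ℝ) ≤ N := by exact_mod_cast hN1
  have hFm : Measurable F := (lip_meas hL hFL).measurable
  obtain ⟨M, hM⟩ : ∃ M : ℕ, M = ⌊ε * N⌋₊ := ⟨_, rfl⟩
  rw [← hM] at hMX ⊢
  have hM1 : (1 : ℝ) ≤ M := (le_max_left _ _).trans hMX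
  have hM1' : 1 ≤ M := by exact_mod_cast hM1
  have hM0 : (0 : ℝ) < M := by linarith
  have hMN' : (M : ℝ) ≤ N := by
    rw [hM]
    refine (Nat.floor_le (by positivity)).trans ?_
    nlinarith
  have hMN : M ≤ N := by exact_mod_cast hMN'
  have hNM : (N : ℝ) / M ≤ 2 / ε := by
    rw [div_le_div_iff₀ hM0 hε]
    have h1 : ε * N < M + 1 := by
      rw [hM]
      exact Nat.lt_floor_add_one _
    rw [div_le_iff₀ hε] at hNε
    nlinarith
  have hNM' : (N : ℝ) ≤ 2 / ε * M := by rwa [div_le_iff₀ hM0] at hNM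
  have hAU : 1 ≤ A * M := by
    have := (le_max_right _ _).trans hMX
    rw [div_le_iff₀ hA] at this
    linarith
  have hmod : Mod Λ F Cm (A * M) := by
    intro h h0 h1
    refine (mod_unif hL hFL hΛ hAU h h0 h1).trans ?_
    gcongr
  -- the points
  obtain ⟨y, hy⟩ : ∃ y : ℕ → ℝ, y = fun v : ℕ => (v : ℝ) / (M : ℝ) := ⟨_, rfl⟩
  have hylog : ∀ v : ℕ, (M : ℝ) ≤ v → (v : ℝ) ≤ N → 1 ≤ y v ∧ Real.log (2 * y v) ≤ Λ := by
    intro v hv1 hv2
    rw [hy]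
    have h1 : (v : ℝ) / M ≤ 2 / ε := le_trans (by gcongr) hNM
    refine ⟨by rw [le_div_iff₀ hM0]; linarith, ?_⟩
    have h2 : Real.log (2 * ((v : ℝ) / M)) ≤ Real.log (4 / ε) := by
      apply Real.log_le_log
      · have : (0 : ℝ) < v := hM0.trans_le hv1
        positivity
      · calc 2 * ((v : ℝ) / M) ≤ 2 * (2 / ε) := by gcongr
          _ = 4 / ε := by ring
    simp only
    linarith
  have hmem : ∀ n ∈ Ioc M N, (M : ℝ) ≤ (n : ℝ) ∧ (n : ℝ) ≤ N := by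
    intro n hn
    rw [mem_Ioc] at hn
    exact ⟨by exact_mod_cast hn.1.le, by exact_mod_cast hn.2⟩
  obtain ⟨p1, p2, p3⟩ := Pool.Agent.Y259.MC.par Λ F (fun n => e (α * n)) (Ioc M N) y A M N hΛ hFm hF1 hA hM0 hN1
    (fun n hn => hylog n (hmem n hn).1 (hmem n hn).2)
  have hUy : ∀ v : ℕ, (M : ℝ) * y v = v := fun v => by
    rw [hy]
    field_simp
  simp only [hUy] at p3
  refine p3.trans ?_
  have hbtm : ∀ k : ℤ, ‖bt Λ (fun n => e (α * n)) (Ioc M N) y N k‖ ^ 2 ≤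
      C * (1 + Real.log N) / N + 7 * C / N ^ 2 * |(k : ℝ)| ∧ ‖bt Λ (fun n => e (α * n)) (Ioc M N) y N k‖ ≤ 2 := by
    intro k
    obtain ⟨κ, hκ⟩ : ∃ κ : ℝ, κ = 2 * Real.pi * k / Λ := ⟨_, rfl⟩
    have hκk : |κ| ≤ 7 * |(k : ℝ)| := by
      rw [hκ, abs_div, abs_mul, abs_of_pos (by positivity : (0 : ℝ) < 2 * Real.pi), abs_of_pos hΛ0]
      have hpi : Real.pi ≤ 3.15 := by have := Real.pi_lt_d2; linarith
      calc 2 * Real.pi * |(k : ℝ)| / Λ ≤ 2 * Real.pi * |(k : ℝ)| := div_le_self (by positivity) hΛ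
        _ ≤ 7 * |(k : ℝ)| := by
          refine mul_le_mul_of_nonneg_right ?_ (abs_nonneg _)
          linarith
    have h3 : ∀ v : ℕ, (M : ℝ) ≤ v → Complex.exp (((κ * Real.log (y v) : ℝ) : ℂ) * Complex.I) =
        Complex.exp (((-(κ * Real.log M) : ℝ) : ℂ) * Complex.I) * q κ v := by
      intro v hv1
      rw [hy]
      exact q_div (hM0.trans_le hv1) hM0
    have h2 : bt Λ (fun n => e (α * n)) (Ioc M N) y N k = (1 / (N : ℂ)) *
        (Complex.exp (((-(κ * Real.log M) : ℝ) : ℂ) * Complex.I) * (∑ n ∈ Ioc M N, e (α * n) * q κ n)) := by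
      unfold bt
      rw [← hκ]
      congr 1
      rw [mul_sum]
      refine sum_congr rfl fun n hn => ?_
      rw [h3 n (hmem n hn).1]
      ring
    have h5 : ‖bt Λ (fun n => e (α * n)) (Ioc M N) y N k‖ = 1 / (N : ℝ) * ‖∑ n ∈ Ioc M N, e (α * n) * q κ n‖ := by
      rw [h2, norm_mul, norm_mul, Complex.norm_exp_ofReal_mul_I, one_mul, norm_div,
        norm_one, Complex.norm_natCast]
    refine ⟨?_, ?_⟩
    · rw [h5, mul_pow]
      calc (1 / (N : ℝ)) ^ 2 * ‖∑ n ∈ Ioc M N, e (α * n) * q κ n‖ ^ 2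
          ≤ (1 / (N : ℝ)) ^ 2 * (C * (N * (1 + Real.log N) + |κ|)) :=
            mul_le_mul_of_nonneg_left (hexp M N hM1' hMN hNM' κ) (by positivity)
        _ ≤ (1 / (N : ℝ)) ^ 2 * (C * (N * (1 + Real.log N) + 7 * |(k : ℝ)|)) := by gcongr
        _ = _ := by
          field_simp
    · rw [h5, one_div, inv_mul_le_iff₀ hN0]
      have g1 : ‖∑ n ∈ Ioc M N, e (α * n) * q κ n‖ ≤ N := by
        refine (triv_le (Ioc M N) (fun n => e (α * n) * q κ n) fun n => ?_).trans ?_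
        · rw [norm_mul, norm_e, norm_q, one_mul]
        · rw [Nat.card_Ioc]
          exact_mod_cast Nat.sub_le _ _
      linarith
  have hgoal := tsum_bound (c := fun k => ‖cf Λ F (A * M) k‖ ^ 2) (b := fun k => ‖bt Λ (fun n => e (α * n)) (Ioc M N) y N k‖ ^ 2)
    (P := N ^ 2) (α := C * (1 + Real.log N) / N) (β := 7 * C / N ^ 2) (T := C₀ * Cm * (A * M))
    (fun k => by positivity) p1 p2 (fun k => by positivity)
    (fun k => by
      have h1 := (hbtm k).2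
      have h2 := norm_nonneg (bt Λ (fun n => e (α * n)) (Ioc M N) y N k)
      nlinarith) (Nat.one_le_pow _ _ hN1)
    (by have := Real.log_nonneg hN1'; positivity) (by positivity) (by positivity) (fun k => (hbtm k).1)
    (fun j hj S hS => htail F Cm (A * M) j hFm hF1 hCm hAU hmod hj S hS)
  have hnum := fin_num hA hC₀ hCm hC hN1 hMN
  calc 2 * Λ * A * ∑' k : ℤ, ‖cf Λ F (A * M) k‖ ^ 2 * ‖bt Λ (fun n => e (α * n)) (Ioc M N) y N k‖ ^ 2
      ≤ 2 * Λ * A * ((8 * C + 14 * C * (C₀ * Cm * A) + 4 * (C₀ * Cm * A)) * (1 + Real.log N) / N) :=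
        mul_le_mul_of_nonneg_left (hgoal.trans hnum) (by positivity)
    _ = _ := by ring


open Classical in
/-- the mean of `e (α n)` -/
noncomputable def dl (α : ℝ) : ℂ := if ∃ k : ℤ, α = k then 1 else 0

lemma norm_dl (α : ℝ) : ‖dl α‖ ≤ 1 := by
  unfold dl
  split_ifs <;> simp

/-- one block of the difference of the discrete and the continuous averages -/
noncomputable def bk (α ε : ℝ) (F : ℝ → ℂ) (N : ℕ) (a : ℝ) : ℂ :=
  (1 / (N : ℂ)) * (∑ n ∈ Ioc ⌊ε * N⌋₊ N, e (α * n) * F (a * n) - dl α * ∫ v in (⌊ε * N⌋₊ : ℝ)..N, F (a * v))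

theorem blk (α : ℝ) {ε A L : ℝ} (hε : 0 < ε) (hε1 : ε ≤ 1) (hA : 0 < A) (hL : 0 ≤ L) :
    ∃ C : ℝ, 0 < C ∧ ∀ᶠ N : ℕ in atTop, ∀ F : ℝ → ℂ, (∀ v, ‖F v‖ ≤ 1) →
      (∀ v w, ‖F v - F w‖ ≤ L * |v - w|) →
      ∫ a in A..2 * A, ‖bk α ε F N a‖ ^ 2 ≤ C * (1 + Real.log N) / N := by
  by_cases h : ∃ k : ℤ, α = k
  · obtain ⟨C, hC, h1⟩ := blk_int hε hε1 hA hL
    refine ⟨C, hC, ?_⟩
    filter_upwards [h1] with N hN F hF1 hFL
    have h2 : ∀ a, bk α ε F N a = (1 / (N : ℂ)) * (∑ n ∈ Ioc ⌊ε * N⌋₊ N, F (a * n) -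
        ∫ v in (⌊ε * N⌋₊ : ℝ)..N, F (a * v)) := by
      intro a
      unfold bk dl
      rw [if_pos h, one_mul]
      obtain ⟨k, rfl⟩ := h
      simp only [e_int_mul, one_mul]
    simp only [h2]
    exact hN F hF1 hFL
  · have h' : ∀ k : ℤ, α ≠ k := fun k hk => h ⟨k, hk⟩
    obtain ⟨C, hC, h1⟩ := blk_nonint h' hε hε1 hA hL
    refine ⟨C, hC, ?_⟩
    filter_upwards [h1] with N hN F hF1 hFL
    have h2 : ∀ a, bk α ε F N a = (1 / (N : ℂ)) * ∑ n ∈ Ioc ⌊ε * N⌋₊ N, e (α * n) * F (a * n) := by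
      intro a
      unfold bk dl
      rw [if_neg h, zero_mul, sub_zero]
    simp only [h2]
    exact hN F hF1 hFL

end Pool.Agent.U587.ET
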