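import Pool.Agent.U587.ET.Fam
import Pool.Agent.Y957.MC.Fin7
import Pool.Agent.H165R3.BPE

set_option autoImplicit false

/-!
Multiple averages along several flows: all times off a set of gauge measure zero (measurable functions bounded by
`1 / 2`).
-/

namespace Pool.Agent.U587.ET

open MeasureTheory Filter Finset
open Pool.Agent.H469R2.NK (e norm_e)
open Pool.Agent.Y957.MC (IsFlow smo flowInv smo_lip)
open Pool.Agent.Y312.MC (smo_meas smo_bdd smo_L1 meas_orb flowInv_le ii_orb)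
open scoped Topology

universe u

/-- products of complex numbers of norm at most one -/
lemma prod_diff_c {ι : Type*} (s : Finset ι) (a b : ι → ℂ) (ha : ∀ i ∈ s, ‖a i‖ ≤ 1) (hb : ∀ i ∈ s, ‖b i‖ ≤ 1) :
    ‖∏ i ∈ s, a i - ∏ i ∈ s, b i‖ ≤ ∑ i ∈ s, ‖a i - b i‖ := by
  classical
  induction s using Finset.induction_on with
  | empty => simp
  | insert k s hk ih =>
    rw [Finset.prod_insert hk, Finset.prod_insert hk, Finset.sum_insert hk]
    have h1 := ih (fun i hi => ha i (Finset.mem_insert_of_mem hi)) (fun i hi => hb i (Finset.mem_insert_of_mem hi))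
    have h2 := ha k (Finset.mem_insert_self _ _)
    have h3 : ‖∏ i ∈ s, b i‖ ≤ 1 := by
      rw [norm_prod]
      exact Finset.prod_le_one (fun i _ => norm_nonneg _) (fun i hi => hb i (Finset.mem_insert_of_mem hi))
    have e1 : a k * ∏ i ∈ s, a i - b k * ∏ i ∈ s, b i =
        a k * (∏ i ∈ s, a i - ∏ i ∈ s, b i) + (a k - b k) * ∏ i ∈ s, b i := by ring
    rw [e1]
    calc ‖a k * (∏ i ∈ s, a i - ∏ i ∈ s, b i) + (a k - b k) * ∏ i ∈ s, b i‖
        ≤ ‖a k * (∏ i ∈ s, a i - ∏ i ∈ s, b i)‖ + ‖(a k - b k) * ∏ i ∈ s, b i‖ := norm_add_le _ _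
      _ = ‖a k‖ * ‖∏ i ∈ s, a i - ∏ i ∈ s, b i‖ + ‖a k - b k‖ * ‖∏ i ∈ s, b i‖ := by rw [norm_mul, norm_mul]
      _ ≤ 1 * (∑ i ∈ s, ‖a i - b i‖) + ‖a k - b k‖ * 1 := by gcongr
      _ = _ := by ring

lemma norm_prod_le_one {ι : Type*} (s : Finset ι) (a : ι → ℂ) (ha : ∀ i ∈ s, ‖a i‖ ≤ 1) : ‖∏ i ∈ s, a i‖ ≤ 1 := by
  rw [norm_prod]
  exact Finset.prod_le_one (fun i _ => norm_nonneg _) ha

section flow

variable {X : Type u} [mX : MeasurableSpace X] {μ : Measure X}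

/-- the smoothing of a complex function -/
noncomputable def gs (τ : ℝ → X → X) (f : X → ℂ) (δ : ℝ) (x : X) : ℂ :=
  ((smo τ (fun y => (f y).re) δ x : ℝ) : ℂ) + ((smo τ (fun y => (f y).im) δ x : ℝ) : ℂ) * Complex.I

/-- the error -/
noncomputable def er (τ : ℝ → X → X) (f : X → ℂ) (δ : ℝ) (x : X) : ℝ :=
  |(f x).re - smo τ (fun y => (f y).re) δ x| + |(f x).im - smo τ (fun y => (f y).im) δ x|

variable [IsProbabilityMeasure μ] {τ : ℝ → X → X} {f : X → ℂ}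

omit mX in
lemma re_bd (hf1 : ∀ x, ‖f x‖ ≤ 1 / 2) (x : X) : |(f x).re| ≤ 1 / 2 := (Complex.abs_re_le_norm _).trans (hf1 x)

omit mX in
lemma im_bd (hf1 : ∀ x, ‖f x‖ ≤ 1 / 2) (x : X) : |(f x).im| ≤ 1 / 2 := (Complex.abs_im_le_norm _).trans (hf1 x)

lemma gs_meas (hτ : IsFlow μ τ) (hf : Measurable f) {δ : ℝ} (hδ : 0 < δ) : Measurable (gs τ f δ) := by
  unfold gs
  exact (Complex.measurable_ofReal.comp (smo_meas hτ (Complex.measurable_re.comp hf) hδ)).add
    ((Complex.measurable_ofReal.comp (smo_meas hτ (Complex.measurable_im.comp hf) hδ)).mul_const _)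

lemma er_meas (hτ : IsFlow μ τ) (hf : Measurable f) {δ : ℝ} (hδ : 0 < δ) : Measurable (er τ f δ) := by
  unfold er
  exact (((Complex.measurable_re.comp hf).sub (smo_meas hτ (Complex.measurable_re.comp hf) hδ)).abs).add
    (((Complex.measurable_im.comp hf).sub (smo_meas hτ (Complex.measurable_im.comp hf) hδ)).abs)

lemma gs_bd (hf1 : ∀ x, ‖f x‖ ≤ 1 / 2) {δ : ℝ} (hδ : 0 < δ) (x : X) : ‖gs τ f δ x‖ ≤ 1 := by
  unfold gs
  have h1 := smo_bdd (τ := τ) (re_bd hf1) hδ x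
  have h2 := smo_bdd (τ := τ) (im_bd hf1) hδ x
  refine (norm_add_le _ _).trans ?_
  rw [norm_mul, Complex.norm_I, mul_one, Complex.norm_real, Complex.norm_real, Real.norm_eq_abs, Real.norm_eq_abs]
  linarith

lemma er_bd (hf1 : ∀ x, ‖f x‖ ≤ 1 / 2) {δ : ℝ} (hδ : 0 < δ) (x : X) : 0 ≤ er τ f δ x ∧ er τ f δ x ≤ 2 := by
  unfold er
  have h1 := smo_bdd (τ := τ) (re_bd hf1) hδ x
  have h2 := smo_bdd (τ := τ) (im_bd hf1) hδ x
  have h3 := re_bd hf1 x
  have h4 := im_bd hf1 x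
  have h5 := abs_sub (f x).re (smo τ (fun y => (f y).re) δ x)
  have h6 := abs_sub (f x).im (smo τ (fun y => (f y).im) δ x)
  refine ⟨by positivity, by linarith⟩

omit mX in
lemma sub_gs (δ : ℝ) (x : X) : ‖f x - gs τ f δ x‖ ≤ er τ f δ x := by
  refine (Complex.norm_le_abs_re_add_abs_im _).trans (le_of_eq ?_)
  unfold gs er
  simp

omit [IsProbabilityMeasure μ] in
lemma gs_lip (hτ : IsFlow μ τ) (hf : Measurable f) (hf1 : ∀ x, ‖f x‖ ≤ 1 / 2) {δ : ℝ} (hδ : 0 < δ) (x : X)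
    (u v : ℝ) : ‖gs τ f δ (τ u x) - gs τ f δ (τ v x)‖ ≤ 2 / δ * |u - v| := by
  have h1 := smo_lip hτ (Complex.measurable_re.comp hf) (re_bd hf1) hδ x u v
  have h2 := smo_lip hτ (Complex.measurable_im.comp hf) (im_bd hf1) hδ x u v
  refine (Complex.norm_le_abs_re_add_abs_im _).trans ?_
  have e1 : (gs τ f δ (τ u x) - gs τ f δ (τ v x)).re =
      smo τ (fun y => (f y).re) δ (τ u x) - smo τ (fun y => (f y).re) δ (τ v x) := by
    unfold gs; simp
  have e2 : (gs τ f δ (τ u x) - gs τ f δ (τ v x)).im =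
      smo τ (fun y => (f y).im) δ (τ u x) - smo τ (fun y => (f y).im) δ (τ v x) := by
    unfold gs; simp
  rw [e1, e2]
  have e3 : 2 / δ * |u - v| = 2 * (1 / 2) / δ * |u - v| + 2 * (1 / 2) / δ * |u - v| := by ring
  rw [e3]
  exact add_le_add h1 h2

lemma er_L1 (hτ : IsFlow μ τ) (hf : Measurable f) (hf1 : ∀ x, ‖f x‖ ≤ 1 / 2) :
    Tendsto (fun i : ℕ => ∫ x, er τ f (1 / ((i : ℝ) + 1)) x ∂μ) atTop (𝓝 0) := by
  have h1 := smo_L1 hτ (Complex.measurable_re.comp hf) (re_bd hf1)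
  have h2 := smo_L1 hτ (Complex.measurable_im.comp hf) (im_bd hf1)
  have h3 := h1.add h2
  rw [add_zero] at h3
  refine h3.congr fun i => ?_
  have hpos : 0 < 1 / ((i : ℝ) + 1) := by positivity
  unfold er
  rw [integral_add]
  · rfl
  · refine Integrable.of_bound (C := 1) (((Complex.measurable_re.comp hf).sub
      (smo_meas hτ (Complex.measurable_re.comp hf) hpos)).abs).aestronglyMeasurable (ae_of_all _ fun x => ?_)
    rw [Real.norm_eq_abs, abs_abs]
    have h4 := smo_bdd (τ := τ) (re_bd hf1) hpos x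
    have h5 := re_bd hf1 x
    have h6 := abs_sub (f x).re (smo τ (fun y => (f y).re) (1 / ((i : ℝ) + 1)) x)
    linarith
  · refine Integrable.of_bound (C := 1) (((Complex.measurable_im.comp hf).sub
      (smo_meas hτ (Complex.measurable_im.comp hf) hpos)).abs).aestronglyMeasurable (ae_of_all _ fun x => ?_)
    rw [Real.norm_eq_abs, abs_abs]
    have h4 := smo_bdd (τ := τ) (im_bd hf1) hpos x
    have h5 := im_bd hf1 x
    have h6 := abs_sub (f x).im (smo τ (fun y => (f y).im) (1 / ((i : ℝ) + 1)) x)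
    linarith

omit mX in
lemma iter_flow (hz : ∀ x, τ 0 x = x) (ha : ∀ s t x, τ (s + t) x = τ s (τ t x)) (a : ℝ) (k : ℕ) (x : X) :
    (τ a)^[k] x = τ (a * k) x := by
  induction k with
  | zero => simp [hz]
  | succ k ih =>
    rw [Function.iterate_succ_apply', ih, ← ha]
    congr 1
    push_cast
    ring

lemma sum_Ioc_range (N : ℕ) (g : ℕ → ℝ) : ∑ n ∈ Ioc 0 N, g n = ∑ k ∈ range N, g (k + 1) := by
  have h : Ioc 0 N = Ico (0 + 1) (N + 1) := by
    ext n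
    simp only [mem_Ioc, mem_Ico]
    omega
  rw [h, sum_Ico_add' g 0 N 1 |>.symm, ← range_eq_Ico]

/-- the ergodic theorem at every time -/
lemma disc_erg (hτ : IsFlow μ τ) {g : X → ℝ} (hg : Measurable g) {C : ℝ} (hC : ∀ x, |g x| ≤ C) (a : ℝ) :
    ∀ᵐ x ∂μ, Tendsto (fun N : ℕ => (1 / (N : ℝ)) * ∑ n ∈ Ioc 0 N, g (τ (a * n) x)) atTop
      (𝓝 ((μ[fun y => g (τ a y) | MeasurableSpace.invariants (τ a)]) x)) := by
  have h1 := Pool.Agent.H165R3.BPE.birkhoff (hτ.mp a) (fun y => g (τ a y)) (hg.comp (hτ.mp a).measurable) C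
    (fun y => hC _)
  filter_upwards [h1] with x hx
  refine hx.congr fun N => ?_
  rw [one_div, sum_Ioc_range N (fun n : ℕ => g (τ (a * n) x))]
  congr 1
  refine sum_congr rfl fun k _ => ?_
  rw [iter_flow hτ.zero hτ.add, ← hτ.add]
  congr 2
  push_cast
  ring

end flow

variable {X : Type u} [mX : MeasurableSpace X] {μ : Measure X} [IsProbabilityMeasure μ]

/-- comparison of two functions on the line -/
lemma fd_comp {α : ℝ} {P G : ℝ → ℂ} {Er : ℝ → ℝ} (hPG : ∀ v, ‖P v - G v‖ ≤ Er v)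
    (hP : ∀ s t : ℝ, IntervalIntegrable P volume s t) (hG : ∀ s t : ℝ, IntervalIntegrable G volume s t)
    (hEr : ∀ s t : ℝ, IntervalIntegrable Er volume s t) {a : ℝ} (ha : 0 < a) {N : ℕ} (hN : 1 ≤ N) :
    ‖fd α P a N‖ ≤ ‖fd α G a N‖ + (1 / (N : ℝ)) * ∑ n ∈ Ioc 0 N, Er (a * n) +
      (1 / (a * N)) * ∫ v in (0 : ℝ)..(a * N), Er v := by
  have hN0 : (0 : ℝ) < N := by exact_mod_cast hN
  have hsc : ∀ {E : Type} [NormedAddCommGroup E] [NormedSpace ℝ E] (H : ℝ → E),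
      (∀ s t : ℝ, IntervalIntegrable H volume s t) → ∀ s t : ℝ, IntervalIntegrable (fun v => H (a * v)) volume s t := by
    intro E _ _ H hH s t
    have := (hH (a * s) (a * t)).comp_mul_left (c := a)
    simpa [ha.ne'] using this
  have e1 : fd α P a N = fd α G a N + (1 / (N : ℂ)) * (∑ n ∈ Ioc 0 N, e (α * n) * (P (a * n) - G (a * n)) -
      dl α * ∫ v in ((0 : ℕ) : ℝ)..N, (P (a * v) - G (a * v))) := by
    unfold fd rs
    rw [intervalIntegral.integral_sub (hsc P hP _ _) (hsc G hG _ _)]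
    simp only [mul_sub, sum_sub_distrib]
    ring
  have h1 : ‖∑ n ∈ Ioc 0 N, e (α * n) * (P (a * n) - G (a * n))‖ ≤ ∑ n ∈ Ioc 0 N, Er (a * n) := by
    refine (norm_sum_le _ _).trans (sum_le_sum fun n _ => ?_)
    rw [norm_mul, norm_e, one_mul]
    exact hPG _
  have h2 : ‖∫ v in ((0 : ℕ) : ℝ)..N, (P (a * v) - G (a * v))‖ ≤ ∫ v in ((0 : ℕ) : ℝ)..N, Er (a * v) := by
    refine intervalIntegral.norm_integral_le_of_norm_le (by rw [Nat.cast_zero]; exact hN0.le) ?_ (hsc Er hEr _ _)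
    exact ae_of_all _ fun v _ => hPG _
  have h3 : ∫ v in ((0 : ℕ) : ℝ)..N, Er (a * v) = a⁻¹ * ∫ v in (0 : ℝ)..(a * N), Er v := by
    rw [intervalIntegral.integral_comp_mul_left _ ha.ne', Nat.cast_zero, mul_zero, smul_eq_mul]
  have h4 : ‖dl α * ∫ v in ((0 : ℕ) : ℝ)..N, (P (a * v) - G (a * v))‖ ≤ 1 * (a⁻¹ * ∫ v in (0 : ℝ)..(a * N), Er v) := by
    rw [norm_mul]
    exact mul_le_mul (norm_dl α) (h2.trans h3.le) (norm_nonneg _) zero_le_one
  rw [e1]
  refine (norm_add_le _ _).trans ?_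
  rw [add_assoc]
  refine add_le_add le_rfl ?_
  rw [norm_mul, norm_div, norm_one, Complex.norm_natCast]
  calc 1 / (N : ℝ) * ‖∑ n ∈ Ioc 0 N, e (α * n) * (P (a * n) - G (a * n)) -
        dl α * ∫ v in ((0 : ℕ) : ℝ)..N, (P (a * v) - G (a * v))‖
      ≤ 1 / (N : ℝ) * (∑ n ∈ Ioc 0 N, Er (a * n) + 1 * (a⁻¹ * ∫ v in (0 : ℝ)..(a * N), Er v)) := by
        refine mul_le_mul_of_nonneg_left ?_ (by positivity)
        exact (norm_sub_le _ _).trans (add_le_add h1 h4)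
    _ = _ := by
        field_simp

end Pool.Agent.U587.ET
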