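import Pool.Agent.U587.ET.Core

set_option autoImplicit false

/-!
Multiple averages along several flows: all times off a set of gauge measure zero.
-/

namespace Pool.Agent.U587.ET

open MeasureTheory Filter Finset
open Pool.Agent.H469R2.NK (e norm_e)
open Pool.Agent.Y957.MC (IsFlow smo flowInv smo_lip)
open Pool.Agent.Y312.MC (smo_meas smo_bdd smo_L1 meas_orb flowInv_le ii_orb)
open scoped Topology

universe u

variable {X : Type u} [mX : MeasurableSpace X] {μ : Measure X} [IsProbabilityMeasure μ]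

/-- `L¹` norms tending to zero -/
lemma exists_small {Ψ : ℕ → X → ℝ} (h0 : ∀ i, 0 ≤ᵐ[μ] Ψ i) (hi : ∀ i, Integrable (Ψ i) μ)
    (hlim : Tendsto (fun i => ∫ x, Ψ i x ∂μ) atTop (𝓝 0)) :
    ∀ᵐ x ∂μ, ∀ k : ℕ, ∃ i, Ψ i x < 1 / ((k : ℝ) + 1) := by
  rw [ae_all_iff]
  intro k
  have hk : 0 < 1 / ((k : ℝ) + 1) := by positivity
  have hmk : ∀ i, 1 / ((k : ℝ) + 1) * μ.real {x | 1 / ((k : ℝ) + 1) ≤ Ψ i x} ≤ ∫ x, Ψ i x ∂μ :=
    fun i => mul_meas_ge_le_integral_of_nonneg (h0 i) (hi i) (1 / ((k : ℝ) + 1))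
  have hbad : μ.real {x | ¬ ∃ i, Ψ i x < 1 / ((k : ℝ) + 1)} ≤ 0 := by
    have e3 : ∀ i, 1 / ((k : ℝ) + 1) * μ.real {x | ¬ ∃ i, Ψ i x < 1 / ((k : ℝ) + 1)} ≤ ∫ x, Ψ i x ∂μ := by
      intro i
      refine le_trans (mul_le_mul_of_nonneg_left ?_ hk.le) (hmk i)
      refine measureReal_mono ?_ (measure_ne_top _ _)
      intro x hx
      simp only [Set.mem_ofPred_eq, not_exists, not_lt] at hx ⊢
      exact hx i
    have e4 := ge_of_tendsto' hlim e3
    nlinarith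
  have : μ {x | ¬ ∃ i, Ψ i x < 1 / ((k : ℝ) + 1)} = 0 := by
    have e5 := le_antisymm hbad measureReal_nonneg
    rwa [measureReal_eq_zero_iff] at e5
  exact this

theorem core {q : ℝ} (hq : 3 < q) (α : ℝ) {m : ℕ} {τ : Fin m → ℝ → X → X} (hτ : ∀ j, IsFlow μ (τ j))
    {f : Fin m → X → ℂ} (hf : ∀ j, Measurable (f j)) (hf1 : ∀ j x, ‖f j x‖ ≤ 1 / 2) :
    GNull q {a | 0 < a ∧ ¬ ∀ᵐ x ∂μ, Tendsto (fun N => fd α (fun v => ∏ j, f j (τ j v x)) a N) atTop (𝓝 0)} := by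
  have hpos : ∀ i : ℕ, 0 < 1 / ((i : ℝ) + 1) := fun i => by positivity
  obtain ⟨G, hG⟩ : ∃ G : ℕ → X → ℝ → ℂ, ∀ i x v, G i x v = ∏ j, gs (τ j) (f j) (1 / ((i : ℝ) + 1)) (τ j v x) :=
    ⟨_, fun i x v => rfl⟩
  have hGm : ∀ i, Measurable (fun p : X × ℝ => G i p.1 p.2) := by
    intro i
    simp only [hG]
    refine Finset.measurable_prod _ fun j _ => ?_
    exact (gs_meas (hτ j) (hf j) (hpos i)).comp ((hτ j).meas.comp measurable_swap)
  have hG1 : ∀ i x v, ‖G i x v‖ ≤ 1 := by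
    intro i x v
    rw [hG]
    exact norm_prod_le_one _ _ fun j _ => gs_bd (hf1 j) (hpos i) _
  have hGL : ∀ i x v w, ‖G i x v - G i x w‖ ≤ (∑ _j : Fin m, 2 / (1 / ((i : ℝ) + 1))) * |v - w| := by
    intro i x v w
    rw [hG, hG]
    refine (prod_diff_c _ _ _ (fun j _ => gs_bd (hf1 j) (hpos i) _) (fun j _ => gs_bd (hf1 j) (hpos i) _)).trans ?_
    rw [Finset.sum_mul]
    exact Finset.sum_le_sum fun j _ => gs_lip (hτ j) (hf j) (hf1 j) (hpos i) x v w
  have hL0 : ∀ i : ℕ, 0 ≤ ∑ _j : Fin m, 2 / (1 / ((i : ℝ) + 1)) := fun i =>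
    Finset.sum_nonneg fun j _ => by positivity
  have hfam := fun i => fam (μ := μ) hq α (hGm i) (hG1 i) (hL0 i) (hGL i)
  refine (gnull_iUnion (by linarith) hfam).mono ?_
  rintro a ⟨ha0, ha⟩
  by_contra hcon
  apply ha
  simp only [Set.mem_iUnion, Set.mem_ofPred_eq, not_exists, not_and, not_not] at hcon
  have hmain : ∀ᵐ x ∂μ, ∀ i, Tendsto (fun N => fd α (G i x) a N) atTop (𝓝 0) :=
    ae_all_iff.2 fun i => hcon i ha0
  -- the errors
  obtain ⟨E, hE⟩ : ∃ E : ℕ → Fin m → X → ℝ, ∀ i j, E i j = er (τ j) (f j) (1 / ((i : ℝ) + 1)) :=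
    ⟨_, fun i j => rfl⟩
  have hEm : ∀ i j, Measurable (E i j) := fun i j => by rw [hE]; exact er_meas (hτ j) (hf j) (hpos i)
  have hEb : ∀ i j x, 0 ≤ E i j x ∧ E i j x ≤ 2 := fun i j x => by rw [hE]; exact er_bd (hf1 j) (hpos i) x
  have hEb' : ∀ i j x, |E i j x| ≤ 2 := fun i j x => by
    rw [abs_of_nonneg (hEb i j x).1]
    exact (hEb i j x).2
  have hE1 : ∀ j, Tendsto (fun i => ∫ x, E i j x ∂μ) atTop (𝓝 0) := by
    intro j
    refine (er_L1 (hτ j) (hf j) (hf1 j)).congr fun i => ?_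
    rw [hE]
  have hEi : ∀ i j, Integrable (E i j) μ := fun i j =>
    Integrable.of_bound (hEm i j).aestronglyMeasurable 2 (ae_of_all _ (hEb' i j))
  obtain ⟨c1, hc1⟩ : ∃ c1 : ℕ → Fin m → X → ℝ, ∀ i j, c1 i j =
      μ[fun y => E i j (τ j a y) | MeasurableSpace.invariants (τ j a)] := ⟨_, fun i j => rfl⟩
  obtain ⟨c2, hc2⟩ : ∃ c2 : ℕ → Fin m → X → ℝ, ∀ i j, c2 i j = μ[E i j | flowInv (τ j)] := ⟨_, fun i j => rfl⟩
  have hd : ∀ᵐ x ∂μ, ∀ i j, Tendsto (fun N : ℕ => (1 / (N : ℝ)) * ∑ n ∈ Ioc 0 N, E i j (τ j (a * n) x)) atTop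
      (𝓝 (c1 i j x)) := by
    rw [ae_all_iff]
    intro i
    rw [ae_all_iff]
    intro j
    rw [hc1]
    exact disc_erg (hτ j) (hEm i j) (hEb' i j) a
  have hcn : ∀ᵐ x ∂μ, ∀ i j, Tendsto (fun V : ℝ => smo (τ j) (E i j) V x) atTop (𝓝 (c2 i j x)) := by
    rw [ae_all_iff]
    intro i
    rw [ae_all_iff]
    intro j
    rw [hc2]
    exact Pool.Agent.Y48.MC.flwb X μ (τ j) (E i j) (hτ j) (hEm i j) ⟨2, hEb' i j⟩
  have hc1i : ∀ i j, Integrable (c1 i j) μ := fun i j => by rw [hc1]; exact integrable_condExp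
  have hc2i : ∀ i j, Integrable (c2 i j) μ := fun i j => by rw [hc2]; exact integrable_condExp
  have hc1I : ∀ i j, ∫ x, c1 i j x ∂μ = ∫ x, E i j x ∂μ := by
    intro i j
    rw [hc1, integral_condExp (MeasurableSpace.invariants_le _)]
    have := (hτ j).mp a
    rw [← integral_map this.measurable.aemeasurable (by rw [this.map_eq]; exact (hEm i j).aestronglyMeasurable),
      this.map_eq]
  have hc2I : ∀ i j, ∫ x, c2 i j x ∂μ = ∫ x, E i j x ∂μ := by
    intro i j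
    rw [hc2, integral_condExp (flowInv_le (τ j))]
  obtain ⟨Ψ, hΨ⟩ : ∃ Ψ : ℕ → X → ℝ, ∀ i, Ψ i = fun x => ∑ j, (c1 i j x + c2 i j x) := ⟨_, fun i => rfl⟩
  have hΨ0 : ∀ i, 0 ≤ᵐ[μ] Ψ i := by
    intro i
    have h1 : ∀ᵐ x ∂μ, ∀ j, 0 ≤ c1 i j x := by
      rw [ae_all_iff]
      intro j
      rw [hc1]
      exact condExp_nonneg (ae_of_all _ fun x => (hEb i j _).1)
    have h2 : ∀ᵐ x ∂μ, ∀ j, 0 ≤ c2 i j x := by
      rw [ae_all_iff]
      intro j
      rw [hc2]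
      exact condExp_nonneg (ae_of_all _ fun x => (hEb i j _).1)
    filter_upwards [h1, h2] with x hx1 hx2
    rw [hΨ]
    exact Finset.sum_nonneg fun j _ => add_nonneg (hx1 j) (hx2 j)
  have hΨi : ∀ i, Integrable (Ψ i) μ := fun i => by
    rw [hΨ]
    exact integrable_finsetSum _ fun j _ => (hc1i i j).add (hc2i i j)
  have hΨint : ∀ i, ∫ x, Ψ i x ∂μ = ∑ j, (∫ x, E i j x ∂μ + ∫ x, E i j x ∂μ) := by
    intro i
    have h1 : ∫ x, Ψ i x ∂μ = ∫ x, ∑ j, (c1 i j x + c2 i j x) ∂μ := by rw [hΨ]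
    rw [h1, integral_finsetSum (Finset.univ : Finset (Fin m)) (f := fun j x => c1 i j x + c2 i j x)
      fun j _ => (hc1i i j).add (hc2i i j)]
    refine Finset.sum_congr rfl fun j _ => ?_
    rw [integral_add (hc1i i j) (hc2i i j), hc1I, hc2I]
  have hΨlim : Tendsto (fun i => ∫ x, Ψ i x ∂μ) atTop (𝓝 0) := by
    simp only [hΨint]
    have := tendsto_finsetSum (Finset.univ : Finset (Fin m)) fun j _ => (hE1 j).add (hE1 j)
    simpa using this
  filter_upwards [hmain, hd, hcn, exists_small hΨ0 hΨi hΨlim] with x hx1 hx2 hx3 hx4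
  rw [Metric.tendsto_nhds]
  intro ε hε
  obtain ⟨k, hk⟩ := exists_nat_one_div_lt hε
  obtain ⟨i, hi⟩ := hx4 k
  have hlimN : Tendsto (fun N : ℕ => a * (N : ℝ)) atTop atTop :=
    tendsto_natCast_atTop_atTop.const_mul_atTop ha0
  have h1 : Tendsto (fun N : ℕ => ‖fd α (G i x) a N‖ +
      ∑ j, ((1 / (N : ℝ)) * ∑ n ∈ Ioc 0 N, E i j (τ j (a * n) x) + smo (τ j) (E i j) (a * N) x)) atTop
      (𝓝 (0 + Ψ i x)) := by
    rw [hΨ]
    refine Tendsto.add ?_ (tendsto_finsetSum _ fun j _ => (hx2 i j).add ((hx3 i j).comp hlimN))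
    have := (hx1 i).norm
    rwa [norm_zero] at this
  have h2 : 0 + Ψ i x < ε := by linarith
  filter_upwards [h1.eventually (gt_mem_nhds h2), eventually_ge_atTop 1] with N hN hN1
  rw [dist_zero_right]
  refine lt_of_le_of_lt ?_ hN
  have hN0 : (0 : ℝ) < N := by exact_mod_cast hN1
  have hPm : Measurable fun v : ℝ => ∏ j, f j (τ j v x) :=
    Finset.measurable_prod _ fun j _ => (hf j).comp ((hτ j).meas.comp (measurable_id.prodMk measurable_const))
  have hGmx : Measurable fun v : ℝ => G i x v := (hGm i).comp (measurable_const.prodMk measurable_id)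
  have hf1' : ∀ j y, ‖f j y‖ ≤ 1 := fun j y => (hf1 j y).trans (by norm_num)
  have hPi : ∀ s t : ℝ, IntervalIntegrable (fun v : ℝ => ∏ j, f j (τ j v x)) volume s t := by
    intro s t
    rw [intervalIntegrable_iff]
    exact Measure.integrableOn_of_bounded (M := 1) (by simp) hPm.aestronglyMeasurable
      (ae_of_all _ fun r => norm_prod_le_one _ _ fun j _ => hf1' j _)
  have hGi : ∀ s t : ℝ, IntervalIntegrable (fun v : ℝ => G i x v) volume s t := by
    intro s t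
    rw [intervalIntegrable_iff]
    exact Measure.integrableOn_of_bounded (M := 1) (by simp) hGmx.aestronglyMeasurable
      (ae_of_all _ fun r => hG1 i x r)
  have hEii : ∀ j, ∀ s t : ℝ, IntervalIntegrable (fun v => E i j (τ j v x)) volume s t := fun j s t =>
    ii_orb (hτ j) (hEm i j) (hEb' i j) x s t
  have hDi : ∀ s t : ℝ, IntervalIntegrable (fun v => ∑ j, E i j (τ j v x)) volume s t := by
    intro s t
    have h5 := IntervalIntegrable.sum (Finset.univ : Finset (Fin m)) (f := fun j v => E i j (τ j v x))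
      (μ := volume) (a := s) (b := t) (fun j _ => hEii j s t)
    have h6 : (fun v => ∑ j, E i j (τ j v x)) = ∑ j : Fin m, fun v => E i j (τ j v x) := by
      ext v
      simp only [Finset.sum_apply]
    rw [h6]
    exact h5
  refine (fd_comp (α := α) (P := fun v => ∏ j, f j (τ j v x)) (G := G i x)
    (Er := fun v => ∑ j, E i j (τ j v x)) (fun v => ?_) hPi hGi hDi ha0 hN1).trans (le_of_eq ?_)
  · rw [hG]
    refine (prod_diff_c _ _ _ (fun j _ => hf1' j _) (fun j _ => gs_bd (hf1 j) (hpos i) _)).trans ?_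
    refine Finset.sum_le_sum fun j _ => ?_
    rw [hE]
    exact sub_gs _ _
  · rw [add_assoc]
    congr 1
    rw [Finset.sum_add_distrib]
    congr 1
    · rw [Finset.sum_comm, Finset.mul_sum]
    · rw [intervalIntegral.integral_finsetSum fun j _ => hEii j 0 (a * N), Finset.mul_sum]
      rfl

end Pool.Agent.U587.ET
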