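import Pool.Agent.U587.ET.Core2

set_option autoImplicit false

/-!
Multiple averages with Besicovitch almost periodic weights: all times off a set of gauge measure zero.
-/

namespace Pool.Agent.U587.ET

open MeasureTheory Filter Finset
open Pool.Agent.H469R2.NK (e norm_e)
open Pool.Agent.Y957.MC (IsFlow Bes exists_version psav_mean orb_good cont_of_disc)
open scoped Topology

universe u

/-- the difference of the weighted discrete averages and the continuous averages of one function -/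
noncomputable def cmp (B : ℕ → ℂ) (b : ℂ) (P : ℝ → ℂ) (a : ℝ) (N : ℕ) : ℂ :=
  (1 / (N : ℂ)) * ∑ n ∈ Icc 1 N, B n * P (a * n) - b * ((1 / ((a * N : ℝ) : ℂ)) * ∫ v in (0 : ℝ)..(a * N), P v)

lemma Ioc_Icc (N : ℕ) : Ioc 0 N = Icc 1 N := by
  ext n
  simp only [mem_Ioc, mem_Icc]
  omega

lemma fd_cmp (α : ℝ) (P : ℝ → ℂ) {a : ℝ} (ha : 0 < a) (N : ℕ) :
    fd α P a N = cmp (fun n => e (α * n)) (dl α) P a N := by
  unfold fd rs cmp
  rw [Ioc_Icc, intervalIntegral.integral_comp_mul_left _ ha.ne', Nat.cast_zero, mul_zero, Complex.real_smul]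
  have hac : (a : ℂ) ≠ 0 := by exact_mod_cast ha.ne'
  generalize ∫ v in (0 : ℝ)..(a * N), P v = J
  generalize ∑ n ∈ Icc 1 N, e (α * n) * P (a * n) = S
  push_cast
  rcases Nat.eq_zero_or_pos N with rfl | hN
  · simp
  · have hNc : (N : ℂ) ≠ 0 := by exact_mod_cast hN.ne'
    field_simp

variable {X : Type u} [mX : MeasurableSpace X] {μ : Measure X} [IsProbabilityMeasure μ]

/-- two versions of the same functions -/
lemma versions {m : ℕ} {τ : Fin m → ℝ → X → X} (hτ : ∀ j, IsFlow μ (τ j)) {f g : Fin m → X → ℂ}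
    (hfg : ∀ j, f j =ᵐ[μ] g j) (a : ℝ) : ∀ᵐ x ∂μ, ∀ (B : ℕ → ℂ) (b : ℂ) (N : ℕ),
      cmp B b (fun v => ∏ j, f j (τ j v x)) a N = cmp B b (fun v => ∏ j, g j (τ j v x)) a N := by
  have h4 : ∀ᵐ x ∂μ, ∀ᵐ v : ℝ, ∀ j, f j (τ j v x) = g j (τ j v x) := by
    have h5 : ∀ j, ∀ᵐ x ∂μ, ∀ᵐ v : ℝ, f j (τ j v x) = g j (τ j v x) := by
      intro j
      obtain ⟨E, hE, hEm, hE0⟩ : ∃ E : Set X, {x | ¬ f j x = g j x} ⊆ E ∧ MeasurableSet E ∧ μ E = 0 :=
        exists_measurable_superset_of_null (ae_iff.mp (hfg j))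
      have h5 : ∀ᵐ x ∂μ, ∀ᵐ t : ℝ, τ j t x ∉ E := by
        have hset : MeasurableSet {q : ℝ × X | τ j q.1 q.2 ∉ E} := (hτ j).meas hEm.compl
        rw [← Measure.ae_ae_comm hset]
        refine ae_of_all _ fun t => ?_
        exact ((hτ j).mp t).quasiMeasurePreserving.ae (show ∀ᵐ x ∂μ, x ∉ E from by rw [ae_iff]; simpa using hE0)
      filter_upwards [h5] with x hx
      filter_upwards [hx] with t ht
      by_contra hne
      exact ht (hE hne)
    filter_upwards [ae_all_iff.2 h5] with x hx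
    exact ae_all_iff.2 hx
  have h6 : ∀ᵐ x ∂μ, ∀ (n : ℕ) (j : Fin m), f j (τ j (a * n) x) = g j (τ j (a * n) x) := by
    rw [ae_all_iff]
    intro n
    rw [ae_all_iff]
    intro j
    exact ((hτ j).mp (a * n)).quasiMeasurePreserving.ae (hfg j)
  filter_upwards [h4, h6] with x hx4 hx6 B b N
  unfold cmp
  simp only [hx6]
  congr 3
  refine intervalIntegral.integral_congr_ae ?_
  filter_upwards [hx4] with v hv _
  simp only [hv]

lemma cmp_smul (B : ℕ → ℂ) (b : ℂ) (P : ℝ → ℂ) (c : ℂ) (a : ℝ) (N : ℕ) :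
    cmp B b (fun v => c * P v) a N = c * cmp B b P a N := by
  unfold cmp
  have h1 : ∑ n ∈ Icc 1 N, B n * (fun v => c * P v) (a * n) = c * ∑ n ∈ Icc 1 N, B n * P (a * n) := by
    rw [Finset.mul_sum]
    exact Finset.sum_congr rfl fun n _ => by ring
  rw [h1, intervalIntegral.integral_const_mul]
  ring

/-- characters as weights, essentially bounded functions -/
theorem char_gnull {q : ℝ} (hq : 3 < q) (α : ℝ) {m : ℕ} {τ : Fin m → ℝ → X → X} (hτ : ∀ j, IsFlow μ (τ j))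
    {f : Fin m → X → ℂ} (hf : ∀ j, AEStronglyMeasurable (f j) μ) (hfb : ∀ j, ∃ C : ℝ, ∀ᵐ x ∂μ, ‖f j x‖ ≤ C) :
    GNull q {a | 0 < a ∧ ¬ ∀ᵐ x ∂μ,
      Tendsto (fun N => cmp (fun n => e (α * n)) (dl α) (fun v => ∏ j, f j (τ j v x)) a N) atTop (𝓝 0)} := by
  choose g hgm hgb hfg using fun j => exists_version (hf j) (hfb j)
  choose C hC using hgb
  obtain ⟨R, hR⟩ : ∃ R : ℝ, R = 2 * (∑ j, |C j| + 1) := ⟨_, rfl⟩
  have hR0 : 0 < R := by
    rw [hR]
    have : 0 ≤ ∑ j, |C j| := Finset.sum_nonneg fun j _ => abs_nonneg _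
    linarith
  have hRc : (R : ℂ) ≠ 0 := by exact_mod_cast hR0.ne'
  have hgR : ∀ j x, ‖g j x / (R : ℂ)‖ ≤ 1 / 2 := by
    intro j x
    rw [norm_div, Complex.norm_real, Real.norm_of_nonneg hR0.le, div_le_iff₀ hR0]
    have h1 := (hC j x).trans (le_abs_self _)
    have h2 : |C j| ≤ ∑ j, |C j| :=
      Finset.single_le_sum (f := fun j => |C j|) (fun i _ => abs_nonneg _) (Finset.mem_univ j)
    rw [hR]
    linarith
  have h1 := core (μ := μ) hq α hτ (f := fun j x => g j x / (R : ℂ)) (fun j => (hgm j).div_const _) hgR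
  refine h1.mono ?_
  rintro a ⟨ha0, ha⟩
  refine ⟨ha0, fun hcon => ha ?_⟩
  filter_upwards [hcon, versions hτ hfg a] with x hx hv
  have h2 := hx.const_mul ((R : ℂ) ^ m)
  rw [mul_zero] at h2
  refine h2.congr fun N => ?_
  rw [fd_cmp α _ ha0, ← cmp_smul, hv]
  congr 1
  funext v
  rw [Finset.prod_div_distrib]
  simp only [Finset.prod_const, Finset.card_univ, Fintype.card_fin]
  field_simp

lemma cmp_add (B B' : ℕ → ℂ) (b b' : ℂ) (P : ℝ → ℂ) (a : ℝ) (N : ℕ) :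
    cmp (fun n => B n + B' n) (b + b') P a N = cmp B b P a N + cmp B' b' P a N := by
  unfold cmp
  simp only [add_mul, Finset.sum_add_distrib, mul_add]
  ring

lemma cmp_wmul (B : ℕ → ℂ) (b c : ℂ) (P : ℝ → ℂ) (a : ℝ) (N : ℕ) :
    cmp (fun n => c * B n) (c * b) P a N = c * cmp B b P a N := by
  unfold cmp
  have h1 : ∑ n ∈ Icc 1 N, (fun n => c * B n) n * P (a * n) = c * ∑ n ∈ Icc 1 N, B n * P (a * n) := by
    rw [Finset.mul_sum]
    exact Finset.sum_congr rfl fun n _ => by ring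
  rw [h1]
  ring

/-- trigonometric polynomials as weights -/
theorem trig_gnull {q : ℝ} (hq : 3 < q) (s : Finset ℝ) (c : ℝ → ℂ) {m : ℕ} {τ : Fin m → ℝ → X → X}
    (hτ : ∀ j, IsFlow μ (τ j)) {f : Fin m → X → ℂ} (hf : ∀ j, AEStronglyMeasurable (f j) μ)
    (hfb : ∀ j, ∃ C : ℝ, ∀ᵐ x ∂μ, ‖f j x‖ ≤ C) :
    GNull q {a | 0 < a ∧ ¬ ∀ᵐ x ∂μ,
      Tendsto (fun N => cmp (fun n => ∑ α ∈ s, c α * e (α * n)) (∑ α ∈ s, c α * dl α)
        (fun v => ∏ j, f j (τ j v x)) a N) atTop (𝓝 0)} := by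
  have h1 := fun α : s => char_gnull (μ := μ) hq (α : ℝ) hτ hf hfb
  refine (gnull_iUnion (by linarith) h1).mono ?_
  rintro a ⟨ha0, ha⟩
  by_contra hcon
  apply ha
  simp only [Set.mem_iUnion, Set.mem_ofPred_eq, not_exists, not_and, not_not] at hcon
  have h2 : ∀ᵐ x ∂μ, ∀ α : s, Tendsto (fun N => cmp (fun n => e ((α : ℝ) * n)) (dl α)
      (fun v => ∏ j, f j (τ j v x)) a N) atTop (𝓝 0) := ae_all_iff.2 fun α => hcon α ha0
  filter_upwards [h2] with x hx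
  have h3 : ∀ t ⊆ s, ∀ N, cmp (fun n => ∑ α ∈ t, c α * e (α * n)) (∑ α ∈ t, c α * dl α)
      (fun v => ∏ j, f j (τ j v x)) a N = ∑ α ∈ t, c α * cmp (fun n => e (α * n)) (dl α)
      (fun v => ∏ j, f j (τ j v x)) a N := by
    classical
    intro t
    induction t using Finset.induction_on with
    | empty =>
      intro _ N
      simp [cmp]
    | insert α t hα ih =>
      intro ht N
      rw [Finset.sum_insert hα, Finset.sum_insert hα, ← ih ((Finset.subset_insert _ _).trans ht), ← cmp_wmul,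
        ← cmp_add]
      simp only [Finset.sum_insert hα]
  have h4 : Tendsto (fun N => ∑ α ∈ s, c α * cmp (fun n => e (α * n)) (dl α)
      (fun v => ∏ j, f j (τ j v x)) a N) atTop (𝓝 (∑ α ∈ s, c α * 0)) :=
    tendsto_finsetSum _ fun α hα => (hx ⟨α, hα⟩).const_mul _
  simp only [mul_zero, Finset.sum_const_zero] at h4
  exact h4.congr fun N => (h3 s le_rfl N).symm

lemma e_exp (α : ℝ) (n : ℕ) : e (α * n) = Complex.exp (((2 * Real.pi * α * n : ℝ) : ℂ) * Complex.I) := by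
  unfold e
  congr 3
  ring

lemma mean_char (α : ℝ) : Tendsto (fun N : ℕ => (1 / (N : ℂ)) * ∑ n ∈ Icc 1 N, e (α * n)) atTop (𝓝 (dl α)) := by
  by_cases h : ∃ k : ℤ, α = k
  · have h1 : dl α = 1 := by
      unfold dl
      rw [if_pos h]
    rw [h1]
    obtain ⟨k, rfl⟩ := h
    simp only [e_int_mul]
    refine tendsto_const_nhds.congr' ?_
    filter_upwards [eventually_gt_atTop 0] with N hN
    have hN' : (N : ℂ) ≠ 0 := by exact_mod_cast hN.ne'
    simp [hN']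
  · have h1 : dl α = 0 := by
      unfold dl
      rw [if_neg h]
    rw [h1]
    have h2 := Pool.Agent.Y220.MC.PS.pse α fun k hk => h ⟨k, hk⟩
    have h3 := psav_mean h2 ⟨1, fun n => by rw [Complex.norm_exp_ofReal_mul_I]⟩
    simpa only [e_exp] using h3

lemma mean_trig (s : Finset ℝ) (c : ℝ → ℂ) :
    Tendsto (fun N : ℕ => (1 / (N : ℂ)) * ∑ n ∈ Icc 1 N, ∑ α ∈ s, c α * e (α * n)) atTop
      (𝓝 (∑ α ∈ s, c α * dl α)) := by
  have h1 : Tendsto (fun N : ℕ => ∑ α ∈ s, c α * ((1 / (N : ℂ)) * ∑ n ∈ Icc 1 N, e (α * n))) atTop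
      (𝓝 (∑ α ∈ s, c α * dl α)) := tendsto_finsetSum _ fun α _ => (mean_char α).const_mul _
  refine h1.congr fun N => ?_
  rw [Finset.sum_comm, Finset.mul_sum]
  refine Finset.sum_congr rfl fun α _ => ?_
  rw [← Finset.mul_sum]
  ring

/-- Besicovitch almost periodic weights -/
theorem bes_gnull {q : ℝ} (hq : 3 < q) {B : ℕ → ℂ} {b : ℂ} (hB : Bes B)
    (hmean : Tendsto (fun N : ℕ => (1 / (N : ℂ)) * ∑ n ∈ Icc 1 N, B n) atTop (𝓝 b)) {m : ℕ}
    {τ : Fin m → ℝ → X → X}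
    (hτ : ∀ j, IsFlow μ (τ j)) {f : Fin m → X → ℂ} (hf : ∀ j, AEStronglyMeasurable (f j) μ)
    (hfb : ∀ j, ∃ C : ℝ, ∀ᵐ x ∂μ, ‖f j x‖ ≤ C) :
    GNull q {a | 0 < a ∧ ¬ ∀ᵐ x ∂μ,
      Tendsto (fun N => cmp B b (fun v => ∏ j, f j (τ j v x)) a N) atTop (𝓝 0)} := by
  choose C' hC' using hfb
  obtain ⟨K, hK⟩ : ∃ K : ℝ, K = ∏ j, |C' j| := ⟨_, rfl⟩
  have hK0 : 0 ≤ K := hK ▸ Finset.prod_nonneg fun j _ => abs_nonneg _
  choose s c hsc using fun k : ℕ => hB (1 / ((k : ℝ) + 1)) (by positivity)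
  simp only [← e_exp] at hsc
  obtain ⟨P, hP⟩ : ∃ P : ℕ → ℕ → ℂ, ∀ k, P k = fun n : ℕ => ∑ α ∈ s k, c k α * e (α * n) := ⟨_, fun k => rfl⟩
  obtain ⟨b', hb'⟩ : ∃ b' : ℕ → ℂ, ∀ k, b' k = ∑ α ∈ s k, c k α * dl α := ⟨_, fun k => rfl⟩
  have hsc' : ∀ k, ∀ᶠ N : ℕ in atTop, (1 / (N : ℝ)) * ∑ n ∈ Icc 1 N, ‖B n - P k n‖ ≤ 1 / ((k : ℝ) + 1) := by
    intro k
    rw [hP]
    exact hsc k
  have hbb : ∀ k, ‖b' k - b‖ ≤ 1 / ((k : ℝ) + 1) := by
    intro k
    have h1 : Tendsto (fun N : ℕ => (1 / (N : ℂ)) * ∑ n ∈ Icc 1 N, P k n) atTop (𝓝 (b' k)) := by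
      rw [hP, hb']
      exact mean_trig (s k) (c k)
    have h2 := (h1.sub hmean).norm
    refine le_of_tendsto h2 ?_
    filter_upwards [hsc' k] with N hN
    rw [← mul_sub, ← Finset.sum_sub_distrib, norm_mul, norm_div, norm_one, Complex.norm_natCast]
    refine le_trans (mul_le_mul_of_nonneg_left (norm_sum_le _ _) (by positivity)) ?_
    refine le_trans (le_of_eq ?_) hN
    congr 1
    exact Finset.sum_congr rfl fun n _ => norm_sub_rev _ _
  have h1 : ∀ k, GNull q {a | 0 < a ∧ ¬ ∀ᵐ x ∂μ,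
      Tendsto (fun N => cmp (P k) (b' k) (fun v => ∏ j, f j (τ j v x)) a N) atTop (𝓝 0)} := by
    intro k
    rw [hP, hb']
    exact trig_gnull hq (s k) (c k) hτ hf fun j => ⟨C' j, hC' j⟩
  refine (gnull_iUnion (by linarith) h1).mono ?_
  rintro a ⟨ha0, ha⟩
  by_contra hcon
  apply ha
  simp only [Set.mem_iUnion, Set.mem_ofPred_eq, not_exists, not_and, not_not] at hcon
  have h2 : ∀ᵐ x ∂μ, ∀ k, Tendsto (fun N : ℕ => cmp (P k) (b' k) (fun v => ∏ j, f j (τ j v x)) a N)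
      atTop (𝓝 0) := ae_all_iff.2 fun k => hcon k ha0
  have h3 : ∀ᵐ x ∂μ, ∀ n : ℕ, ‖∏ j, f j (τ j (a * n) x)‖ ≤ K := by
    rw [ae_all_iff]
    intro n
    have h4 : ∀ᵐ x ∂μ, ∀ j, ‖f j (τ j (a * n) x)‖ ≤ C' j :=
      ae_all_iff.2 fun j => ((hτ j).mp (a * n)).quasiMeasurePreserving.ae (hC' j)
    filter_upwards [h4] with x hx
    rw [norm_prod, hK]
    exact Finset.prod_le_prod (fun j _ => norm_nonneg _) fun j _ => (hx j).trans (le_abs_self _)
  have h4 : ∀ᵐ x ∂μ, ∀ᵐ v : ℝ, ‖∏ j, f j (τ j v x)‖ ≤ K := by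
    have h5 : ∀ j, ∀ᵐ x ∂μ, ∀ᵐ v : ℝ, ‖f j (τ j v x)‖ ≤ C' j := by
      intro j
      obtain ⟨E, hE, hEm, hE0⟩ : ∃ E : Set X, {x | ¬ ‖f j x‖ ≤ C' j} ⊆ E ∧ MeasurableSet E ∧ μ E = 0 :=
        exists_measurable_superset_of_null (ae_iff.mp (hC' j))
      have h5 : ∀ᵐ x ∂μ, ∀ᵐ t : ℝ, τ j t x ∉ E := by
        have hset : MeasurableSet {q : ℝ × X | τ j q.1 q.2 ∉ E} := (hτ j).meas hEm.compl
        rw [← Measure.ae_ae_comm hset]
        refine ae_of_all _ fun t => ?_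
        exact ((hτ j).mp t).quasiMeasurePreserving.ae (show ∀ᵐ x ∂μ, x ∉ E from by rw [ae_iff]; simpa using hE0)
      filter_upwards [h5] with x hx
      filter_upwards [hx] with t ht
      by_contra hne
      exact ht (hE hne)
    filter_upwards [ae_all_iff.2 h5] with x hx
    filter_upwards [ae_all_iff.2 hx] with v hv
    rw [norm_prod, hK]
    exact Finset.prod_le_prod (fun j _ => norm_nonneg _) fun j _ => (hv j).trans (le_abs_self _)
  filter_upwards [h2, h3, h4] with x hx2 hx3 hx4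
  rw [Metric.tendsto_nhds]
  intro ε hε
  obtain ⟨k, hk⟩ := exists_nat_one_div_lt (show 0 < ε / (4 * (K + 1)) by positivity)
  have hk' : 1 / ((k : ℝ) + 1) * (K + 1) < ε / 4 := by
    rw [lt_div_iff₀ (by positivity)] at hk
    linarith
  filter_upwards [(Metric.tendsto_nhds.1 (hx2 k)) (ε / 4) (by positivity), hsc' k, eventually_gt_atTop 0]
    with N hN1 hN2 hN0
  rw [dist_zero_right] at hN1 ⊢
  have hN' : (0 : ℝ) < N := Nat.cast_pos.2 hN0
  have haN : 0 < a * N := by positivity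
  unfold cmp at hN1 ⊢
  obtain ⟨I, hI⟩ : ∃ I : ℂ, I = (1 / ((a * N : ℝ) : ℂ)) * ∫ v in (0 : ℝ)..(a * N), ∏ j, f j (τ j v x) := ⟨_, rfl⟩
  rw [← hI] at hN1 ⊢
  have hIn : ‖I‖ ≤ K := by
    rw [hI, norm_mul, norm_div, norm_one, Complex.norm_real, Real.norm_of_nonneg haN.le]
    have h5 : ‖∫ v in (0 : ℝ)..(a * N), ∏ j, f j (τ j v x)‖ ≤ K * |a * N - 0| :=
      intervalIntegral.norm_integral_le_of_norm_le_const_ae (by
        filter_upwards [hx4] with v hv _ using hv)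
    rw [sub_zero, abs_of_pos haN] at h5
    rw [one_div, inv_mul_le_iff₀ haN]
    linarith
  have e1 : (1 / (N : ℂ)) * ∑ n ∈ Icc 1 N, B n * ∏ j, f j (τ j (a * n) x) - b * I =
      ((1 / (N : ℂ)) * ∑ n ∈ Icc 1 N, P k n * ∏ j, f j (τ j (a * n) x) - b' k * I) +
      ((1 / (N : ℂ)) * ∑ n ∈ Icc 1 N, (B n - P k n) * ∏ j, f j (τ j (a * n) x)) + (b' k - b) * I := by
    simp only [sub_mul, Finset.sum_sub_distrib, mul_sub]
    ring
  rw [e1]
  have h5 : ‖(1 / (N : ℂ)) * ∑ n ∈ Icc 1 N, (B n - P k n) * ∏ j, f j (τ j (a * n) x)‖ ≤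
      1 / ((k : ℝ) + 1) * K := by
    rw [norm_mul, norm_div, norm_one, Complex.norm_natCast]
    calc 1 / (N : ℝ) * ‖∑ n ∈ Icc 1 N, (B n - P k n) * ∏ j, f j (τ j (a * n) x)‖
        ≤ 1 / (N : ℝ) * ∑ n ∈ Icc 1 N, ‖B n - P k n‖ * K := by
          refine mul_le_mul_of_nonneg_left ((norm_sum_le _ _).trans (Finset.sum_le_sum fun n _ => ?_)) (by positivity)
          rw [norm_mul]
          exact mul_le_mul_of_nonneg_left (hx3 n) (norm_nonneg _)
      _ = (1 / (N : ℝ) * ∑ n ∈ Icc 1 N, ‖B n - P k n‖) * K := by rw [← Finset.sum_mul, mul_assoc]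
      _ ≤ _ := mul_le_mul_of_nonneg_right hN2 hK0
  have h6 : ‖(b' k - b) * I‖ ≤ 1 / ((k : ℝ) + 1) * K := by
    rw [norm_mul]
    exact mul_le_mul (hbb k) hIn (norm_nonneg _) (by positivity)
  have h7 : 1 / ((k : ℝ) + 1) * K ≤ 1 / ((k : ℝ) + 1) * (K + 1) :=
    mul_le_mul_of_nonneg_left (by linarith) (by positivity)
  refine (norm_add_le _ _).trans_lt ?_
  have h8 := norm_add_le ((1 / (N : ℂ)) * ∑ n ∈ Icc 1 N, P k n * ∏ j, f j (τ j (a * n) x) - b' k * I)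
    ((1 / (N : ℂ)) * ∑ n ∈ Icc 1 N, (B n - P k n) * ∏ j, f j (τ j (a * n) x))
  linarith

/-- the difference tends to zero: the two kinds of averages converge to the same limits -/
theorem conv_iff {B : ℕ → ℂ} {b : ℂ} (hb : b ≠ 0) {m : ℕ} {τ : Fin m → ℝ → X → X}
    (hτ : ∀ j, IsFlow μ (τ j)) {f : Fin m → X → ℂ} (hf : ∀ j, AEStronglyMeasurable (f j) μ)
    (hfb : ∀ j, ∃ C : ℝ, ∀ᵐ x ∂μ, ‖f j x‖ ≤ C) {a : ℝ} (ha0 : 0 < a)
    (ha : ∀ᵐ x ∂μ, Tendsto (fun N => cmp B b (fun v => ∏ j, f j (τ j v x)) a N) atTop (𝓝 0)) :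
    ∀ᵐ x ∂μ, ∀ L : ℂ,
        (Tendsto (fun N : ℕ => (1 / (N : ℂ)) * ∑ n ∈ Icc 1 N, B n * ∏ j, f j (τ j (a * n) x)) atTop
          (𝓝 (b * L)) ↔
        Tendsto (fun V : ℝ => (1 / (V : ℂ)) * ∫ v in (0 : ℝ)..V, ∏ j, f j (τ j v x)) atTop (𝓝 L)) := by
  filter_upwards [ha, orb_good hτ hf hfb] with x hx1 hx2
  obtain ⟨⟨C, hC0, hC⟩, hi⟩ := hx2
  intro L
  refine ⟨fun h => ?_, fun h => ?_⟩
  · have h1 := h.sub hx1
    rw [sub_zero] at h1
    have h2 := h1.const_mul b⁻¹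
    rw [inv_mul_cancel_left₀ hb] at h2
    refine cont_of_disc ha0 hC0 hC hi (h2.congr fun N => ?_)
    unfold cmp
    rw [sub_sub_cancel, inv_mul_cancel_left₀ hb]
  · have hlimN : Tendsto (fun N : ℕ => a * (N : ℝ)) atTop atTop :=
      tendsto_natCast_atTop_atTop.const_mul_atTop ha0
    have h1 := (h.comp hlimN).const_mul b
    have h2 := hx1.add h1
    rw [zero_add] at h2
    refine h2.congr fun N => ?_
    unfold cmp
    simp only [Function.comp_apply]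
    ring

end Pool.Agent.U587.ET
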