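import Pool.Agent.U587.ET.Core4

set_option autoImplicit false

/-!
Besicovitch almost periodic weights at one time; one exceptional set for countably many flows and weights and for all
functions.
-/

namespace Pool.Agent.U587.ET

open MeasureTheory Filter Finset
open Pool.Agent.H469R2.NK (e norm_e)
open Pool.Agent.Y957.MC (IsFlow smo flowInv smo_lip exists_version Bes)
open scoped Topology

universe u

/-- at one time: convergence for characters implies convergence for a Besicovitch almost periodic weight -/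
theorem bes_at {B : ℕ → ℂ} {b : ℂ} (hB : Bes B)
    (hmean : Tendsto (fun N : ℕ => (1 / (N : ℂ)) * ∑ n ∈ Icc 1 N, B n) atTop (𝓝 b)) :
    ∃ A : Set ℝ, A.Countable ∧ ∀ {X : Type u} [MeasurableSpace X] {μ : Measure X} [IsProbabilityMeasure μ] {m : ℕ}
      {τ : Fin m → ℝ → X → X} (_ : ∀ j, IsFlow μ (τ j)) {f : Fin m → X → ℂ}
      (_ : ∀ j, ∃ C : ℝ, ∀ᵐ x ∂μ, ‖f j x‖ ≤ C) {a : ℝ} (_ : 0 < a)
      (_ : ∀ α ∈ A, ∀ᵐ x ∂μ, Tendsto (fun N => cmp (fun n => e (α * n)) (dl α) (fun v => ∏ j, f j (τ j v x)) a N)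
          atTop (𝓝 0)),
      ∀ᵐ x ∂μ, Tendsto (fun N => cmp B b (fun v => ∏ j, f j (τ j v x)) a N) atTop (𝓝 0) := by
  choose s c hsc using fun k : ℕ => hB (1 / ((k : ℝ) + 1)) (by positivity)
  simp only [← e_exp] at hsc
  obtain ⟨P, hP⟩ : ∃ P : ℕ → ℕ → ℂ, ∀ k, P k = fun n : ℕ => ∑ α ∈ s k, c k α * e (α * n) := ⟨_, fun k => rfl⟩
  obtain ⟨b', hb'⟩ : ∃ b' : ℕ → ℂ, ∀ k, b' k = ∑ α ∈ s k, c k α * dl α := ⟨_, fun k => rfl⟩
  have hsc' : ∀ k, ∀ᶠ N : ℕ in atTop, (1 / (N : ℝ)) * ∑ n ∈ Icc 1 N, ‖B n - P k n‖ ≤ 1 / ((k : ℝ) + 1) := by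
    intro k
    rw [hP]
    exact hsc k
  have hbb : ∀ k, ‖b' k - b‖ ≤ 1 / ((k : ℝ) + 1) := by
    intro k
    have h1 : Tendsto (fun N : ℕ => (1 / (N : ℂ)) * ∑ n ∈ Icc 1 N, P k n) atTop (𝓝 (b' k)) := by
      rw [hP, hb']
      exact mean_trig (s k) (c k)
    have h2 := (h1.sub hmean).norm
    refine le_of_tendsto h2 ?_
    filter_upwards [hsc' k] with N hN
    rw [← mul_sub, ← Finset.sum_sub_distrib, norm_mul, norm_div, norm_one, Complex.norm_natCast]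
    refine le_trans (mul_le_mul_of_nonneg_left (norm_sum_le _ _) (by positivity)) ?_
    refine le_trans (le_of_eq ?_) hN
    congr 1
    exact Finset.sum_congr rfl fun n _ => norm_sub_rev _ _
  refine ⟨⋃ k, (s k : Set ℝ), Set.countable_iUnion fun k => (s k).countable_toSet, ?_⟩
  intro X _ μ _ m τ hτ f hfb a ha0 hchar
  choose C' hC' using hfb
  obtain ⟨K, hK⟩ : ∃ K : ℝ, K = ∏ j, |C' j| := ⟨_, rfl⟩
  have hK0 : 0 ≤ K := hK ▸ Finset.prod_nonneg fun j _ => abs_nonneg _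
  have h2 : ∀ᵐ x ∂μ, ∀ k, Tendsto (fun N : ℕ => cmp (P k) (b' k) (fun v => ∏ j, f j (τ j v x)) a N)
      atTop (𝓝 0) := by
    rw [ae_all_iff]
    intro k
    have h3 : ∀ᵐ x ∂μ, ∀ α : s k, Tendsto (fun N => cmp (fun n => e ((α : ℝ) * n)) (dl α)
        (fun v => ∏ j, f j (τ j v x)) a N) atTop (𝓝 0) :=
      ae_all_iff.2 fun α => hchar α (Set.mem_iUnion.2 ⟨k, α.2⟩)
    filter_upwards [h3] with x hx
    have h3 : ∀ t ⊆ s k, ∀ N, cmp (fun n => ∑ α ∈ t, c k α * e (α * n)) (∑ α ∈ t, c k α * dl α)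
        (fun v => ∏ j, f j (τ j v x)) a N = ∑ α ∈ t, c k α * cmp (fun n => e (α * n)) (dl α)
        (fun v => ∏ j, f j (τ j v x)) a N := by
      classical
      intro t
      induction t using Finset.induction_on with
      | empty =>
        intro _ N
        simp [cmp]
      | insert α t hα ih =>
        intro ht N
        rw [Finset.sum_insert hα, Finset.sum_insert hα, ← ih ((Finset.subset_insert _ _).trans ht), ← cmp_wmul,
          ← cmp_add]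
        simp only [Finset.sum_insert hα]
    have h4 : Tendsto (fun N => ∑ α ∈ s k, c k α * cmp (fun n => e (α * n)) (dl α)
        (fun v => ∏ j, f j (τ j v x)) a N) atTop (𝓝 (∑ α ∈ s k, c k α * 0)) :=
      tendsto_finsetSum _ fun α hα => (hx ⟨α, hα⟩).const_mul _
    simp only [mul_zero, Finset.sum_const_zero] at h4
    rw [hP, hb']
    exact h4.congr fun N => (h3 (s k) le_rfl N).symm
  have h3 : ∀ᵐ x ∂μ, ∀ n : ℕ, ‖∏ j, f j (τ j (a * n) x)‖ ≤ K := by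
    rw [ae_all_iff]
    intro n
    have h4 : ∀ᵐ x ∂μ, ∀ j, ‖f j (τ j (a * n) x)‖ ≤ C' j :=
      ae_all_iff.2 fun j => ((hτ j).mp (a * n)).quasiMeasurePreserving.ae (hC' j)
    filter_upwards [h4] with x hx
    rw [norm_prod, hK]
    exact Finset.prod_le_prod (fun j _ => norm_nonneg _) fun j _ => (hx j).trans (le_abs_self _)
  have h4 : ∀ᵐ x ∂μ, ∀ᵐ v : ℝ, ‖∏ j, f j (τ j v x)‖ ≤ K := by
    have h5 : ∀ j, ∀ᵐ x ∂μ, ∀ᵐ v : ℝ, ‖f j (τ j v x)‖ ≤ C' j := by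
      intro j
      obtain ⟨E, hE, hEm, hE0⟩ : ∃ E : Set X, {x | ¬ ‖f j x‖ ≤ C' j} ⊆ E ∧ MeasurableSet E ∧ μ E = 0 :=
        exists_measurable_superset_of_null (ae_iff.mp (hC' j))
      have h5 : ∀ᵐ x ∂μ, ∀ᵐ t : ℝ, τ j t x ∉ E := by
        have hset : MeasurableSet {q : ℝ × X | τ j q.1 q.2 ∉ E} := (hτ j).meas hEm.compl
        rw [← Measure.ae_ae_comm hset]
        refine ae_of_all _ fun t => ?_
        exact ((hτ j).mp t).quasiMeasurePreserving.ae (show ∀ᵐ x ∂μ, x ∉ E from by rw [ae_iff]; simpa using hE0)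
      filter_upwards [h5] with x hx
      filter_upwards [hx] with t ht
      by_contra hne
      exact ht (hE hne)
    filter_upwards [ae_all_iff.2 h5] with x hx
    filter_upwards [ae_all_iff.2 hx] with v hv
    rw [norm_prod, hK]
    exact Finset.prod_le_prod (fun j _ => norm_nonneg _) fun j _ => (hv j).trans (le_abs_self _)
  filter_upwards [h2, h3, h4] with x hx2 hx3 hx4
  rw [Metric.tendsto_nhds]
  intro ε hε
  obtain ⟨k, hk⟩ := exists_nat_one_div_lt (show 0 < ε / (4 * (K + 1)) by positivity)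
  have hk' : 1 / ((k : ℝ) + 1) * (K + 1) < ε / 4 := by
    rw [lt_div_iff₀ (by positivity)] at hk
    linarith
  filter_upwards [(Metric.tendsto_nhds.1 (hx2 k)) (ε / 4) (by positivity), hsc' k, eventually_gt_atTop 0]
    with N hN1 hN2 hN0
  rw [dist_zero_right] at hN1 ⊢
  have hN' : (0 : ℝ) < N := Nat.cast_pos.2 hN0
  have haN : 0 < a * N := by positivity
  unfold cmp at hN1 ⊢
  obtain ⟨I, hI⟩ : ∃ I : ℂ, I = (1 / ((a * N : ℝ) : ℂ)) * ∫ v in (0 : ℝ)..(a * N), ∏ j, f j (τ j v x) := ⟨_, rfl⟩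
  rw [← hI] at hN1 ⊢
  have hIn : ‖I‖ ≤ K := by
    rw [hI, norm_mul, norm_div, norm_one, Complex.norm_real, Real.norm_of_nonneg haN.le]
    have h5 : ‖∫ v in (0 : ℝ)..(a * N), ∏ j, f j (τ j v x)‖ ≤ K * |a * N - 0| :=
      intervalIntegral.norm_integral_le_of_norm_le_const_ae (by
        filter_upwards [hx4] with v hv _ using hv)
    rw [sub_zero, abs_of_pos haN] at h5
    rw [one_div, inv_mul_le_iff₀ haN]
    linarith
  have e1 : (1 / (N : ℂ)) * ∑ n ∈ Icc 1 N, B n * ∏ j, f j (τ j (a * n) x) - b * I =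
      ((1 / (N : ℂ)) * ∑ n ∈ Icc 1 N, P k n * ∏ j, f j (τ j (a * n) x) - b' k * I) +
      ((1 / (N : ℂ)) * ∑ n ∈ Icc 1 N, (B n - P k n) * ∏ j, f j (τ j (a * n) x)) + (b' k - b) * I := by
    simp only [sub_mul, Finset.sum_sub_distrib, mul_sub]
    ring
  rw [e1]
  have h5 : ‖(1 / (N : ℂ)) * ∑ n ∈ Icc 1 N, (B n - P k n) * ∏ j, f j (τ j (a * n) x)‖ ≤
      1 / ((k : ℝ) + 1) * K := by
    rw [norm_mul, norm_div, norm_one, Complex.norm_natCast]
    calc 1 / (N : ℝ) * ‖∑ n ∈ Icc 1 N, (B n - P k n) * ∏ j, f j (τ j (a * n) x)‖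
        ≤ 1 / (N : ℝ) * ∑ n ∈ Icc 1 N, ‖B n - P k n‖ * K := by
          refine mul_le_mul_of_nonneg_left ((norm_sum_le _ _).trans (Finset.sum_le_sum fun n _ => ?_)) (by positivity)
          rw [norm_mul]
          exact mul_le_mul_of_nonneg_left (hx3 n) (norm_nonneg _)
      _ = (1 / (N : ℝ) * ∑ n ∈ Icc 1 N, ‖B n - P k n‖) * K := by rw [← Finset.sum_mul, mul_assoc]
      _ ≤ _ := mul_le_mul_of_nonneg_right hN2 hK0
  have h6 : ‖(b' k - b) * I‖ ≤ 1 / ((k : ℝ) + 1) * K := by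
    rw [norm_mul]
    exact mul_le_mul (hbb k) hIn (norm_nonneg _) (by positivity)
  have h7 : 1 / ((k : ℝ) + 1) * K ≤ 1 / ((k : ℝ) + 1) * (K + 1) :=
    mul_le_mul_of_nonneg_left (by linarith) (by positivity)
  refine (norm_add_le _ _).trans_lt ?_
  have h8 := norm_add_le ((1 / (N : ℂ)) * ∑ n ∈ Icc 1 N, P k n * ∏ j, f j (τ j (a * n) x) - b' k * I)
    ((1 / (N : ℂ)) * ∑ n ∈ Icc 1 N, (B n - P k n) * ∏ j, f j (τ j (a * n) x))
  linarith

/-- one exceptional set for countably many flows and weights, and all functions -/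
theorem uniform_bes {X : Type u} [MeasurableSpace X] {μ : Measure X} [IsProbabilityMeasure μ] [IsSeparable μ]
    {ι : Type} [Countable ι] {τ : ι → ℝ → X → X} (hτ : ∀ i, IsFlow μ (τ i)) {B : ℕ → ℕ → ℂ} {b : ℕ → ℂ}
    (hB : ∀ k, Bes (B k))
    (hmean : ∀ k, Tendsto (fun N : ℕ => (1 / (N : ℂ)) * ∑ n ∈ Icc 1 N, B k n) atTop (𝓝 (b k))) :
    ∃ D : Set ℝ, (∀ q : ℝ, 3 < q → GNull q D) ∧ ∀ a : ℝ, 0 < a → a ∉ D → ∀ (m : ℕ) (σ : Fin m → ι)
      (f : Fin m → X → ℂ), (∀ j, AEStronglyMeasurable (f j) μ) → (∀ j, ∃ C : ℝ, ∀ᵐ x ∂μ, ‖f j x‖ ≤ C) →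
        ∀ k, ∀ᵐ x ∂μ, Tendsto (fun N => cmp (B k) (b k) (fun v => ∏ j, f j (τ (σ j) v x)) a N) atTop (𝓝 0) := by
  choose A hA hAt using fun k => bes_at.{u} (hB k) (hmean k)
  have hAc : (⋃ k, A k).Countable := Set.countable_iUnion hA
  choose D hD1 hD2 using fun p : Σ m : ℕ, (Fin m → ι) =>
    uniform_char (μ := μ) (τ := fun j => τ (p.2 j)) (fun j => hτ _) hAc
  refine ⟨⋃ p, D p, fun q hq => gnull_iUnion (by linarith) fun p => hD1 p q hq, ?_⟩
  intro a ha0 haD m σ f hf hfb k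
  have haD' : a ∉ D ⟨m, σ⟩ := fun h => haD (Set.mem_iUnion.2 ⟨_, h⟩)
  exact hAt k (fun j => hτ (σ j)) hfb ha0 fun α hα => hD2 ⟨m, σ⟩ a ha0 haD' α (Set.mem_iUnion.2 ⟨k, hα⟩) f hf hfb

end Pool.Agent.U587.ET
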