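import Pool.Agent.U587.ET.Null

set_option autoImplicit false

/-!
Mean square bounds with one logarithm along a geometric sequence of lengths, for functions with Lipschitz constants of
the size of the length: convergence for almost every `x` at all times outside of a set of gauge measure zero.
-/

namespace Pool.Agent.U587.ET

open Filter Set MeasureTheory Finset
open scoped ENNReal NNReal Topology

universe u

lemma grid_point {A a : ℝ} (hA : 0 < A) (ha : a ∈ Set.Icc A (2 * A)) {K : ℕ} (hK : 1 ≤ K) :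
    ∃ i < K, a ∈ Set.Icc (A + i * (A / K)) (A + i * (A / K) + A / K) := by
  have hK0 : (0 : ℝ) < K := by exact_mod_cast hK
  obtain ⟨y, hy⟩ : ∃ y, y = (a - A) * K / A := ⟨_, rfl⟩
  have hy0 : 0 ≤ y := by
    rw [hy]
    have := ha.1
    have : 0 ≤ a - A := by linarith
    positivity
  have hyK : y ≤ K := by
    rw [hy, div_le_iff₀ hA]
    have := ha.2
    nlinarith
  have hay : a = A + y * (A / K) := by
    rw [hy]
    field_simp
    ring
  have hAK : 0 < A / K := by positivity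
  rcases Nat.lt_or_ge ⌊y⌋₊ K with h | h
  · refine ⟨⌊y⌋₊, h, ?_, ?_⟩
    · have h1 := Nat.floor_le hy0
      have : (⌊y⌋₊ : ℝ) * (A / K) ≤ y * (A / K) := by gcongr
      linarith
    · have h1 := (Nat.lt_floor_add_one y).le
      have : y * (A / K) ≤ (⌊y⌋₊ + 1 : ℝ) * (A / K) := by gcongr
      linarith
  · have h1 : (K : ℝ) ≤ y := by
      have h2 := Nat.floor_le hy0
      have h3 : (K : ℝ) ≤ (⌊y⌋₊ : ℝ) := by exact_mod_cast h
      linarith
    have h2 : y = K := le_antisymm hyK h1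
    refine ⟨K - 1, by omega, ?_⟩
    rw [Nat.cast_sub hK, hay, h2]
    push_cast
    constructor <;> nlinarith

lemma sum_lint {f : ℝ → ℝ≥0∞} {c : ℕ → ℝ} (hc : Monotone c) (k : ℕ) :
    ∑ i ∈ range k, ∫⁻ a in Set.Ioc (c i) (c (i + 1)), f a = ∫⁻ a in Set.Ioc (c 0) (c k), f a := by
  induction k with
  | zero => simp
  | succ k ih =>
    rw [sum_range_succ, ih, ← lintegral_union measurableSet_Ioc]
    · rw [Set.Ioc_union_Ioc_eq_Ioc (hc (Nat.zero_le _)) (hc (Nat.le_succ _))]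
    · exact Set.Ioc_disjoint_Ioc_of_le le_rfl

/-- the first moments on the grid -/
noncomputable def gm {X : Type u} [MeasurableSpace X] (μ : Measure X) (g : X → ℝ → ℂ) (A : ℝ) (K i : ℕ) : ℝ≥0∞ :=
  ∫⁻ x, ∫⁻ a in Set.Ioc (A + i * (A / K)) (A + (i + 1 : ℕ) * (A / K)), ENNReal.ofReal (‖g x a‖ ^ 2) ∂volume ∂μ

lemma gm_sum {X : Type u} [MeasurableSpace X] {μ : Measure X} [IsProbabilityMeasure μ] {g : X → ℝ → ℂ}
    (hg : Measurable (fun p : X × ℝ => g p.1 p.2)) {A : ℝ} (hA : 0 < A) {K : ℕ} (hK : 1 ≤ K) {b : ℝ}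
    (hc : ∀ x, ContinuousOn (g x) (Set.Icc A (2 * A)))
    (hb : ∀ x, ∫ a in A..2 * A, ‖g x a‖ ^ 2 ≤ b) : ∑ i ∈ range K, gm μ g A K i ≤ ENNReal.ofReal b := by
  have hK0 : (0 : ℝ) < K := by exact_mod_cast hK
  unfold gm
  have hm : Measurable (fun p : X × ℝ => ENNReal.ofReal (‖g p.1 p.2‖ ^ 2)) :=
    ENNReal.measurable_ofReal.comp (hg.norm.pow_const 2)
  rw [← lintegral_finsetSum _ (fun i _ => hm.lintegral_prod_right')]
  have hmono : Monotone (fun i : ℕ => A + i * (A / K)) := by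
    intro i j hij
    have : (i : ℝ) ≤ j := by exact_mod_cast hij
    simp only
    have : 0 < A / K := by positivity
    gcongr
  have h1 : ∀ x, ∑ i ∈ range K, ∫⁻ a in Set.Ioc (A + i * (A / K)) (A + (i + 1 : ℕ) * (A / K)),
      ENNReal.ofReal (‖g x a‖ ^ 2) ≤ ENNReal.ofReal b := by
    intro x
    rw [sum_lint (f := fun a => ENNReal.ofReal (‖g x a‖ ^ 2)) hmono K]
    have e1 : A + ((0 : ℕ) : ℝ) * (A / K) = A := by simp
    have e2 : A + (K : ℝ) * (A / K) = 2 * A := by field_simp; ring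
    rw [e1, e2]
    have hint : IntegrableOn (fun a => ‖g x a‖ ^ 2) (Set.Ioc A (2 * A)) :=
      (((hc x).norm.pow 2).integrableOn_compact isCompact_Icc).mono_set Set.Ioc_subset_Icc_self
    rw [← ofReal_integral_eq_lintegral_ofReal hint (ae_of_all _ fun a => by positivity),
      ← intervalIntegral.integral_of_le (by linarith)]
    exact ENNReal.ofReal_le_ofReal (hb x)
  calc _ ≤ ∫⁻ _x, ENNReal.ofReal b ∂μ := lintegral_mono h1
    _ = _ := by simp

/-- the step with Markov's inequality -/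
lemma markov {X : Type u} [MeasurableSpace X] {μ : Measure X} {g : X → ℝ → ℂ}
    (hg : Measurable (fun p : X × ℝ => g p.1 p.2)) {A δ : ℝ} (hA : 0 < A) (hδ : 0 < δ) {K i : ℕ} (hK : 1 ≤ K)
    (hi : i < K) {a : ℝ} (ha : a ∈ Set.Icc (A + i * (A / K)) (A + i * (A / K) + A / K))
    (hv : ∀ x, ∀ b ∈ Set.Icc A (2 * A), |a - b| ≤ A / K → ‖g x a - g x b‖ ≤ δ / 2) :
    μ {x | δ < ‖g x a‖} * ENNReal.ofReal ((δ / 2) ^ 2 * (A / K)) ≤ gm μ g A K i := by
  have hK0 : (0 : ℝ) < K := by exact_mod_cast hK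
  have hiK : ((i : ℝ) + 1) ≤ K := by exact_mod_cast hi
  have hAK : 0 < A / K := by positivity
  have hm : Measurable (fun p : X × ℝ => ENNReal.ofReal (‖g p.1 p.2‖ ^ 2)) :=
    ENNReal.measurable_ofReal.comp (hg.norm.pow_const 2)
  have hm2 : Measurable fun x => ∫⁻ a in Set.Ioc (A + i * (A / K)) (A + (i + 1 : ℕ) * (A / K)),
      ENNReal.ofReal (‖g x a‖ ^ 2) := hm.lintegral_prod_right'
  have h1 := mul_meas_ge_le_lintegral hm2 (μ := μ) (ENNReal.ofReal ((δ / 2) ^ 2 * (A / K)))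
  unfold gm
  refine le_trans ?_ h1
  rw [mul_comm]
  refine mul_le_mul_right (measure_mono fun x hx => ?_) _
  have hx' : δ < ‖g x a‖ := hx
  show ENNReal.ofReal ((δ / 2) ^ 2 * (A / K)) ≤ ∫⁻ a in Set.Ioc (A + i * (A / K)) (A + (i + 1 : ℕ) * (A / K)),
      ENNReal.ofReal (‖g x a‖ ^ 2)
  have h2 : ENNReal.ofReal ((δ / 2) ^ 2 * (A / K)) =
      ∫⁻ _b in Set.Ioc (A + i * (A / K)) (A + (i + 1 : ℕ) * (A / K)), ENNReal.ofReal ((δ / 2) ^ 2) := by
    rw [setLIntegral_const, Real.volume_Ioc, ← ENNReal.ofReal_mul (by positivity)]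
    congr 2
    push_cast
    ring
  rw [h2]
  refine setLIntegral_mono' measurableSet_Ioc fun b hb => ?_
  apply ENNReal.ofReal_le_ofReal
  have e1 : A + ((i + 1 : ℕ) : ℝ) * (A / K) = A + i * (A / K) + A / K := by push_cast; ring
  rw [e1] at hb
  have e3 : A + i * (A / K) + A / K ≤ 2 * A := by
    have : ((i : ℝ) + 1) * (A / K) ≤ K * (A / K) := by gcongr
    have h4 : (K : ℝ) * (A / K) = A := by field_simp
    linarith
  have h3 := hv x b ⟨by
    have := hb.1
    have : 0 ≤ (i : ℝ) * (A / K) := by positivity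
    linarith, hb.2.trans e3⟩ (by
    rw [abs_le]
    constructor
    · linarith [ha.1, hb.2]
    · linarith [ha.2, hb.1])
  have h4 : ‖g x a‖ ≤ ‖g x a - g x b‖ + ‖g x b‖ := by
    have := norm_add_le (g x a - g x b) (g x b)
    rwa [sub_add_cancel] at this
  have h5 : δ / 2 ≤ ‖g x b‖ := by linarith
  gcongr

theorem cov {X : Type u} [MeasurableSpace X] {μ : Measure X} [IsProbabilityMeasure μ] {q A ρ : ℝ} (hq : 3 < q)
    (hA : 0 < A) (hρ : 1 < ρ) (D : ℕ → X → ℝ → ℂ) (hDm : ∀ j, Measurable (fun p : X × ℝ => D j p.1 p.2))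
    {Λ : ℝ} (hΛ : 0 < Λ) (hlip : ∀ j x, ∀ a ∈ Set.Icc A (2 * A), ∀ b ∈ Set.Icc A (2 * A),
      ‖D j x a - D j x b‖ ≤ Λ * ρ ^ j * |a - b|)
    {C : ℝ} (hC : 0 < C) (hms : ∀ᶠ j : ℕ in atTop, ∀ x, ∫ a in A..2 * A, ‖D j x a‖ ^ 2 ≤ C * (j + 1) / ρ ^ j)
    {δ : ℝ} (hδ : 0 < δ) :
    ∃ E : Set ℝ, GNull q E ∧ ∀ a ∈ Set.Icc A (2 * A), a ∉ E → ∀ᵐ x ∂μ, ∀ᶠ j : ℕ in atTop, ‖D j x a‖ ≤ δ := by
  classical
  obtain ⟨κ, hκ⟩ : ∃ κ, κ = (q - 3) / 2 := ⟨_, rfl⟩
  have hκ0 : 0 < κ := by rw [hκ]; linarith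
  have hρ0 : 0 < ρ := by linarith
  have hρj : ∀ j : ℕ, 0 < ρ ^ j := fun j => pow_pos hρ0 j
  have hρ1 : ∀ j : ℕ, 1 ≤ ρ ^ j := fun j => one_le_pow₀ hρ.le
  obtain ⟨Λ', hΛ'⟩ : ∃ Λ', Λ' = 2 * A * Λ / δ + 1 := ⟨_, rfl⟩
  have hΛ'1 : 1 ≤ Λ' := by
    rw [hΛ']
    have : 0 ≤ 2 * A * Λ / δ := by positivity
    linarith
  obtain ⟨K, hKd⟩ : ∃ K : ℕ → ℕ, K = fun j => ⌈Λ' * ρ ^ j⌉₊ := ⟨_, rfl⟩
  have hK1 : ∀ j, Λ' * ρ ^ j ≤ K j := fun j => by rw [hKd]; exact Nat.le_ceil _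
  have hK1' : ∀ j, ρ ^ j ≤ (K j : ℝ) := fun j => le_trans (by have := hρj j; nlinarith) (hK1 j)
  have hK0 : ∀ j, (0 : ℝ) < K j := fun j => (hρj j).trans_le (hK1' j)
  have hKn : ∀ j, 1 ≤ K j := fun j => by exact_mod_cast (hK0 j)
  have hK2 : ∀ j, (K j : ℝ) ≤ (Λ' + 1) * ρ ^ j := fun j => by
    have h1 : (K j : ℝ) < Λ' * ρ ^ j + 1 := by
      rw [hKd]
      exact Nat.ceil_lt_add_one (by have := hρj j; positivity)
    have := hρ1 j
    linarith
  obtain ⟨t, ht⟩ : ∃ t : ℕ → ℝ, t = fun j : ℕ => ((j : ℝ) + 1) ^ (-(1 + κ)) * ((δ / 2) ^ 2 * (A / K j)) := ⟨_, rfl⟩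
  have ht0 : ∀ j, 0 < t j := fun j => by
    have := hK0 j
    rw [ht]
    positivity
  obtain ⟨H, hH⟩ : ∃ H : ℕ → Finset ℕ, H = fun j =>
    (range (K j)).filter (fun i => ENNReal.ofReal (t j) ≤ gm μ (D j) A (K j) i) := ⟨_, rfl⟩
  -- the number of bad intervals
  have hcard : ∀ᶠ j : ℕ in atTop, ((H j).card : ℝ) ≤
      (C * (4 / δ ^ 2) * ((Λ' + 1) / A)) * ((j : ℝ) + 1) ^ (2 + κ) := by
    filter_upwards [hms] with j hj
    have hj0 : (0 : ℝ) < (j : ℝ) + 1 := by positivity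
    have hcont : ∀ x, ContinuousOn (D j x) (Set.Icc A (2 * A)) := by
      intro x
      have : LipschitzOnWith (Real.toNNReal (Λ * ρ ^ j)) (D j x) (Set.Icc A (2 * A)) := by
        apply LipschitzOnWith.of_dist_le_mul
        intro a ha b hb
        rw [dist_eq_norm, Real.dist_eq, Real.coe_toNNReal _ (by have := hρj j; positivity)]
        exact hlip j x a ha b hb
      exact this.continuousOn
    have h1 := gm_sum (μ := μ) (hDm j) hA (hKn j) hcont hj
    have h2 : ENNReal.ofReal ((H j).card * t j) ≤ ENNReal.ofReal (C * (j + 1) / ρ ^ j) := by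
      calc ENNReal.ofReal ((H j).card * t j) = ∑ _i ∈ H j, ENNReal.ofReal (t j) := by
            rw [sum_const, nsmul_eq_mul, ENNReal.ofReal_mul (Nat.cast_nonneg _), ENNReal.ofReal_natCast]
        _ ≤ ∑ i ∈ H j, gm μ (D j) A (K j) i := by
            refine sum_le_sum fun i hi => ?_
            rw [hH] at hi
            exact (mem_filter.1 hi).2
        _ ≤ ∑ i ∈ range (K j), gm μ (D j) A (K j) i := by
            refine sum_le_sum_of_subset ?_
            rw [hH]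
            exact filter_subset _ _
        _ ≤ _ := h1
    rw [ENNReal.ofReal_le_ofReal_iff (by have := hρj j; positivity)] at h2
    have h3 : ((H j).card : ℝ) ≤ (C * (j + 1) / ρ ^ j) / t j := by
      rw [le_div_iff₀ (ht0 j)]
      exact h2
    refine h3.trans ?_
    have h4 : (C * (j + 1) / ρ ^ j) / t j = (C * (4 / δ ^ 2) * (K j / ρ ^ j / A)) * ((j : ℝ) + 1) ^ (2 + κ) := by
      have e1 : ((j : ℝ) + 1) ^ (2 + κ) = ((j : ℝ) + 1) * ((j : ℝ) + 1) ^ (1 + κ) := by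
        rw [show 2 + κ = 1 + (1 + κ) by ring, Real.rpow_add hj0, Real.rpow_one]
      rw [ht, e1]
      simp only
      rw [Real.rpow_neg hj0.le]
      have := hK0 j
      have := hρj j
      have : 0 < ((j : ℝ) + 1) ^ (1 + κ) := by positivity
      field_simp
      norm_num
    rw [h4]
    have h5 : (K j : ℝ) / ρ ^ j ≤ Λ' + 1 := by
      rw [div_le_iff₀ (hρj j)]
      exact hK2 j
    gcongr
  -- the lengths
  have hρt : Tendsto (fun j : ℕ => ρ ^ j) atTop atTop := tendsto_pow_atTop_atTop_of_one_lt hρ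
  have hlen : ∀ᶠ j : ℕ in atTop, 0 ≤ A / K j ∧ A / K j ≤ 1 / 2 := by
    filter_upwards [hρt.eventually_ge_atTop (2 * A)] with j hj
    refine ⟨by have := hK0 j; positivity, ?_⟩
    rw [div_le_iff₀ (hK0 j)]
    linarith [hK1' j]
  have hlogρ : 0 < Real.log ρ := Real.log_pos hρ
  have hlog : ∀ᶠ j : ℕ in atTop, Real.log ρ / 2 * ((j : ℝ) + 1) ≤ Real.log (1 / (A / K j)) := by
    have h1 : ∀ᶠ j : ℕ in atTop, 2 / Real.log ρ * (Real.log ρ / 2 + Real.log A) ≤ (j : ℝ) :=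
      tendsto_natCast_atTop_atTop.eventually_ge_atTop _
    filter_upwards [h1] with j hj
    have h2 : Real.log (1 / (A / K j)) = Real.log (K j) - Real.log A := by
      rw [one_div_div, Real.log_div (hK0 j).ne' hA.ne']
    rw [h2]
    have h3 : (j : ℝ) * Real.log ρ ≤ Real.log (K j) := by
      rw [← Real.log_pow]
      exact Real.log_le_log (hρj j) (hK1' j)
    have h4 : Real.log ρ / 2 + Real.log A ≤ Real.log ρ / 2 * j := by
      have := mul_le_mul_of_nonneg_left hj (by positivity : 0 ≤ Real.log ρ / 2)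
      have e : Real.log ρ / 2 * (2 / Real.log ρ * (Real.log ρ / 2 + Real.log A)) = Real.log ρ / 2 + Real.log A := by
        field_simp
      linarith
    linarith
  have hq0 : 0 < q := by linarith
  have hsum : Summable fun j => ((H j).card : ℝ) * (Real.log (1 / (A / K j))) ^ (-q) := by
    have h1 : Summable fun j : ℕ => (C * (4 / δ ^ 2) * ((Λ' + 1) / A)) * (Real.log ρ / 2) ^ (-q) *
        (((j + 1 : ℕ) : ℝ) ^ (-(1 + κ))) := by
      apply Summable.mul_left
      exact (summable_nat_add_iff 1).2 (Real.summable_nat_rpow.2 (by linarith))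
    refine Summable.of_norm_bounded_eventually_nat h1 ?_
    filter_upwards [hcard, hlog] with j hj1 hj2
    have hj0 : (0 : ℝ) < (j : ℝ) + 1 := by positivity
    have h3 : 0 < Real.log (1 / (A / K j)) := lt_of_lt_of_le (by positivity) hj2
    rw [Real.norm_of_nonneg (by positivity)]
    have h4 : (Real.log (1 / (A / K j))) ^ (-q) ≤ (Real.log ρ / 2 * ((j : ℝ) + 1)) ^ (-q) :=
      Real.rpow_le_rpow_of_nonpos (by positivity) hj2 (by linarith)
    rw [Real.mul_rpow (by positivity) hj0.le] at h4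
    calc ((H j).card : ℝ) * (Real.log (1 / (A / K j))) ^ (-q)
        ≤ ((C * (4 / δ ^ 2) * ((Λ' + 1) / A)) * ((j : ℝ) + 1) ^ (2 + κ)) *
          ((Real.log ρ / 2) ^ (-q) * ((j : ℝ) + 1) ^ (-q)) := by gcongr
      _ = (C * (4 / δ ^ 2) * ((Λ' + 1) / A)) * (Real.log ρ / 2) ^ (-q) *
          (((j : ℝ) + 1) ^ (2 + κ) * ((j : ℝ) + 1) ^ (-q)) := by ring
      _ = _ := by
        rw [← Real.rpow_add hj0]
        push_cast
        congr 2
        rw [hκ]
        ring
  refine ⟨{a | ∃ᶠ j in atTop, ∃ i ∈ H j, a ∈ Set.Icc (A + i * (A / K j)) (A + i * (A / K j) + A / K j)},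
    gnull_limsup hq0 H (fun j i => A + i * (A / K j)) (fun j => A / K j) hlen hsum, ?_⟩
  intro a ha haE
  simp only [Set.mem_ofPred_eq, not_frequently] at haE
  -- the measures
  have hmu : ∀ᶠ j : ℕ in atTop, μ {x | δ < ‖D j x a‖} ≤ ENNReal.ofReal (((j : ℝ) + 1) ^ (-(1 + κ))) := by
    filter_upwards [haE] with j hj
    obtain ⟨i, hiK, hai⟩ := grid_point hA ha (hKn j)
    have hiH : i ∉ H j := fun hi => hj ⟨i, hi, hai⟩
    have h1 : gm μ (D j) A (K j) i ≤ ENNReal.ofReal (t j) := by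
      rw [hH] at hiH
      simp only [Finset.mem_filter, Finset.mem_range, not_and, not_le] at hiH
      exact (hiH hiK).le
    have h2 := markov (μ := μ) (hDm j) hA hδ (hKn j) hiK hai (fun x b hb hab => by
      refine (hlip j x a ha b hb).trans ?_
      have h3 : Λ * ρ ^ j * |a - b| ≤ Λ * ρ ^ j * (A / K j) := by
        have := hρj j
        gcongr
      refine h3.trans ?_
      have h4 : 2 * A * Λ / δ * ρ ^ j ≤ K j := by
        refine le_trans ?_ (hK1 j)
        rw [hΛ']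
        have := hρj j
        nlinarith
      have h5 : Λ * ρ ^ j * (A / K j) = (2 * A * Λ / δ * ρ ^ j) * (δ / 2) / K j := by
        have := hK0 j
        field_simp
      rw [h5, div_le_iff₀ (hK0 j), mul_comm]
      gcongr)
    have h3 := h2.trans h1
    have ht' : t j = ((j : ℝ) + 1) ^ (-(1 + κ)) * ((δ / 2) ^ 2 * (A / K j)) := by rw [ht]
    rw [ht', ENNReal.ofReal_mul (p := ((j : ℝ) + 1) ^ (-(1 + κ))) (by positivity)] at h3
    have h4 : ENNReal.ofReal ((δ / 2) ^ 2 * (A / K j)) ≠ 0 := by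
      have := hK0 j
      have : 0 < (δ / 2) ^ 2 * (A / K j) := by positivity
      simpa using this
    exact (ENNReal.mul_le_mul_iff_left h4 ENNReal.ofReal_ne_top).1 h3
  obtain ⟨J, hJ⟩ := eventually_atTop.1 hmu
  have hbc : ∑' k : ℕ, μ {x | δ < ‖D (k + J) x a‖} ≠ ∞ := by
    have h1 : ∀ k : ℕ, μ {x | δ < ‖D (k + J) x a‖} ≤ ENNReal.ofReal ((((k + J : ℕ) : ℝ) + 1) ^ (-(1 + κ))) :=
      fun k => hJ (k + J) (by omega)
    refine ne_top_of_le_ne_top ?_ (ENNReal.tsum_le_tsum h1)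
    rw [← ENNReal.ofReal_tsum_of_nonneg (fun k => by positivity)]
    · exact ENNReal.ofReal_ne_top
    · have h2 : Summable fun j : ℕ => (((j + (J + 1) : ℕ) : ℝ) ^ (-(1 + κ))) :=
        (summable_nat_add_iff (J + 1)).2 (Real.summable_nat_rpow.2 (by linarith))
      refine h2.congr fun k => ?_
      push_cast
      ring_nf
  have h6 := ae_eventually_notMem hbc
  filter_upwards [h6] with x hx
  obtain ⟨k0, hk0⟩ := eventually_atTop.1 hx
  filter_upwards [eventually_ge_atTop (k0 + J)] with j hj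
  have h7 := hk0 (j - J) (by omega)
  rw [Nat.sub_add_cancel (by omega)] at h7
  simp only [not_lt] at h7
  exact h7

end Pool.Agent.U587.ET
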