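import Pool.Agent.N542.PP.Van

set_option autoImplicit false

/-!
Exponential sums with the phases `α n + θ log n` over `(M, N]`, `N ≤ K M`: the second derivative test with the
inequality of Kusmin and Landau, uniformly in `θ`.
-/

namespace Pool.Agent.U587.ET

open Finset MeasureTheory
open Pool.Agent.H469R2.NK (e norm_e e_add conj_e norm_sum_neg Cq Cq_pos harm_le kusmin_landau_mono
  kusmin_landau_anti e_nat)
open Pool.Agent.TH915.PW (Hy)
open Pool.Agent.N542.PP (exp_bound_avg)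

lemma sum_shift (M N : ℕ) (f : ℕ → ℂ) : ∑ n ∈ Ioc M N, f n = ∑ i ∈ range (N - M), f (M + 1 + i) := by
  have h : Ioc M N = Ico (M + 1) (N + 1) := by
    ext n
    simp only [mem_Ioc, mem_Ico]
    omega
  rw [h, sum_Ico_eq_sum_range, Nat.add_sub_add_right]

/-- the phase -/
noncomputable def ph (β : ℝ) : ℕ → ℝ → ℝ
  | 0, t => β * t - Real.log t
  | 1, t => β - t⁻¹
  | 2, t => (t ^ 2)⁻¹
  | 3, t => -(2 * t / (t ^ 2) ^ 2)
  | _, _ => 0

lemma ph_hy (β : ℝ) {A B : ℝ} (hA : 0 < A) : Hy 1 A B (1 / B ^ 2) (1 / A ^ 2) (ph β) := by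
  refine ⟨?_, ?_, ?_, ?_⟩
  · intro m hm t ht
    have ht0 : 0 < t := hA.trans_le ht.1
    interval_cases m
    · have h1 : HasDerivAt (fun t : ℝ => β * t - Real.log t) (β * 1 - t⁻¹) t :=
        ((hasDerivAt_id t).const_mul β).sub (Real.hasDerivAt_log ht0.ne')
      rw [mul_one] at h1
      exact h1
    · have h1 : HasDerivAt (fun t : ℝ => β - t⁻¹) (-(-(t ^ 2)⁻¹)) t := (hasDerivAt_inv ht0.ne').const_sub β
      rw [neg_neg] at h1
      exact h1
    · have h1 : HasDerivAt (fun t : ℝ => (t ^ 2)⁻¹) (-(2 * t) / (t ^ 2) ^ 2) t := by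
        have h2 : HasDerivAt (fun t : ℝ => t ^ 2) (2 * t) t := by
          simpa using hasDerivAt_pow 2 t
        exact h2.fun_inv (by positivity)
      have h3 : ph β 3 t = -(2 * t) / (t ^ 2) ^ 2 := by
        simp only [ph]
        ring
      rw [h3]
      exact h1
  · intro t ht
    have ht0 : 0 < t := hA.trans_le ht.1
    show 1 / B ^ 2 ≤ (t ^ 2)⁻¹
    rw [one_div]
    have := ht.2
    gcongr
  · intro t ht
    have ht0 : 0 < t := hA.trans_le ht.1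
    show (t ^ 2)⁻¹ ≤ 1 / A ^ 2
    rw [one_div]
    have := ht.1
    gcongr
  · intro t ht
    have ht0 : 0 < t := hA.trans_le ht.1
    show -(2 * t / (t ^ 2) ^ 2) ≤ 0
    have : 0 ≤ 2 * t / (t ^ 2) ^ 2 := by positivity
    linarith

/-- the second derivative test -/
lemma sd (K c : ℝ) (hK : 1 ≤ K) (hc : 0 < c) : ∃ C : ℝ, 0 < C ∧ ∀ M N : ℕ, 1 ≤ M → M ≤ N → (N : ℝ) ≤ K * M →
    ∀ β θ : ℝ, c * M ≤ θ → θ ≤ ((M : ℝ) + 1) ^ 2 / 2 →
      ‖∑ n ∈ Ioc M N, e (β * n - θ * Real.log n)‖ ^ 2 ≤ C * (N * (1 + Real.log N) + θ) := by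
  refine ⟨Cq 1 * (64 * K ^ 2 + 8 * K / c + 1), by have := Cq_pos 1; positivity, ?_⟩
  intro M N hM hMN hNK β θ hθ1 hθ2
  have hCq := Cq_pos 1
  have hM0 : (0 : ℝ) < M := by exact_mod_cast hM
  have hM1 : (1 : ℝ) ≤ M := by exact_mod_cast hM
  have hθ0 : 0 < θ := lt_of_lt_of_le (by positivity) hθ1
  have hN1 : 1 ≤ N := hM.trans hMN
  have hN1' : (1 : ℝ) ≤ N := by exact_mod_cast hN1
  have hN0 : (0 : ℝ) < N := by linarith
  have hlog : 0 ≤ Real.log N := Real.log_nonneg hN1'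
  rw [sum_shift]
  set x : ℝ := ((M : ℝ) + 1) ^ 2 / (2 * θ) with hx
  have hx1 : 1 ≤ x := by
    rw [hx, le_div_iff₀ (by positivity)]
    linarith
  have hx0 : 0 < x := by linarith
  set H : ℕ := min ⌊x⌋₊ N with hH
  have hH1 : 1 ≤ H := le_min (Nat.le_floor (by simpa using hx1)) hN1
  have hH0 : (0 : ℝ) < H := by exact_mod_cast hH1
  have hHN : H ≤ N := min_le_right _ _
  have hHx : (H : ℝ) ≤ x := by
    have h1 : (H : ℝ) ≤ (⌊x⌋₊ : ℝ) := by exact_mod_cast min_le_left _ _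
    exact h1.trans (Nat.floor_le hx0.le)
  have hHinv : 1 / (H : ℝ) ≤ 2 / x + 1 / N := by
    rcases min_choice ⌊x⌋₊ N with h | h
    · have h1 : x / 2 ≤ (H : ℝ) := by
        rw [hH, h]
        have h2 := Nat.lt_floor_add_one x
        have h3 : (1 : ℝ) ≤ (⌊x⌋₊ : ℝ) := by exact_mod_cast Nat.le_floor (by simpa using hx1)
        linarith
      have h2 : 1 / (H : ℝ) ≤ 1 / (x / 2) := one_div_le_one_div_of_le (by positivity) h1
      have h3 : 1 / (x / 2) = 2 / x := by field_simp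
      have h4 : 0 ≤ 1 / (N : ℝ) := by positivity
      linarith
    · rw [hH, h]
      have : 0 ≤ 2 / x := by positivity
      linarith
  have key := exp_bound_avg (k := 1) (A := (M : ℝ) + 1) (B := (N : ℝ) + 1) (lo := 1 / ((N : ℝ) + 1) ^ 2)
    (hi := 1 / ((M : ℝ) + 1) ^ 2) (φ := ph (β / θ)) (by positivity) (by positivity) θ hθ0
    (ph_hy _ (by positivity)) ((M : ℝ) + 1) N (N - M) H hN1 (Nat.sub_le _ _) le_rfl (by
      rw [Nat.cast_sub hMN]
      linarith) hH1 hHN (by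
      rw [pow_one]
      have h1 : θ * (1 / ((M : ℝ) + 1) ^ 2 * H) ≤ θ * (1 / ((M : ℝ) + 1) ^ 2 * x) := by gcongr
      have h2 : θ * (1 / ((M : ℝ) + 1) ^ 2 * x) = 1 / 2 := by
        rw [hx]
        field_simp
      linarith)
  have hS : ∑ n ∈ range (N - M), e (θ * ph (β / θ) 0 ((M : ℝ) + 1 + n)) =
      ∑ i ∈ range (N - M), e (β * ((M + 1 + i : ℕ) : ℝ) - θ * Real.log ((M + 1 + i : ℕ) : ℝ)) := by
    refine sum_congr rfl fun i _ => ?_
    congr 1
    simp only [ph]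
    push_cast
    field_simp
  rw [hS] at key
  set S : ℝ := ‖∑ i ∈ range (N - M), e (β * ((M + 1 + i : ℕ) : ℝ) - θ * Real.log ((M + 1 + i : ℕ) : ℝ))‖ with hSd
  have hharm : ∑ l ∈ Ico 1 H, (1 : ℝ) / l ≤ 1 + Real.log N := by
    refine (harm_le H).trans ?_
    have : Real.log H ≤ Real.log N := Real.log_le_log hH0 (by exact_mod_cast hHN)
    linarith
  have hharm0 : 0 ≤ ∑ l ∈ Ico 1 H, (1 : ℝ) / l := sum_nonneg fun _ _ => by positivity
  rw [pow_one, pow_one] at key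
  have e1 : (S / N) ^ 2 = S ^ 2 / (N : ℝ) ^ 2 := by rw [div_pow]
  rw [e1, div_le_iff₀ (by positivity)] at key
  refine key.trans ?_
  have hA : 2 / (θ * (1 / ((N : ℝ) + 1) ^ 2)) / N ≤ 8 * N / θ := by
    have h1 : 2 / (θ * (1 / ((N : ℝ) + 1) ^ 2)) / N = 2 * ((N : ℝ) + 1) ^ 2 / (θ * N) := by
      field_simp
    rw [h1, div_le_div_iff₀ (by positivity) hθ0]
    have h2 : ((N : ℝ) + 1) ^ 2 ≤ (2 * N) ^ 2 := by gcongr; linarith
    calc 2 * ((N : ℝ) + 1) ^ 2 * θ ≤ 2 * (2 * N) ^ 2 * θ := by gcongr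
      _ = 8 * N * (θ * N) := by ring
  have hB : (∑ l ∈ Ico 1 H, (1 : ℝ) / l) / H ≤ (1 + Real.log N) * (2 / x + 1 / N) := by
    rw [div_eq_mul_one_div]
    gcongr
  have h2x : 2 / x = 4 * θ / ((M : ℝ) + 1) ^ 2 := by
    rw [hx]
    field_simp
    ring
  have hNM : (N : ℝ) ^ 2 / ((M : ℝ) + 1) ^ 2 ≤ K ^ 2 := by
    rw [← div_pow]
    refine pow_le_pow_left₀ (by positivity) ?_ 2
    rw [div_le_iff₀ (by positivity)]
    nlinarith
  have hNθ : (N : ℝ) / θ ≤ K / c := by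
    rw [div_le_div_iff₀ hθ0 hc]
    calc (N : ℝ) * c ≤ K * M * c := by gcongr
      _ = K * (c * M) := by ring
      _ ≤ K * θ := by gcongr
  calc Cq 1 * (1 / H + 2 / (θ * (1 / ((N : ℝ) + 1) ^ 2)) / N * ((∑ l ∈ Ico 1 H, (1 : ℝ) / l) / H)) * (N : ℝ) ^ 2
      ≤ Cq 1 * ((2 / x + 1 / N) + 8 * N / θ * ((1 + Real.log N) * (2 / x + 1 / N))) * (N : ℝ) ^ 2 := by
        gcongr
    _ = Cq 1 * (4 * θ * ((N : ℝ) ^ 2 / ((M : ℝ) + 1) ^ 2) + N +
          32 * (N * (1 + Real.log N)) * ((N : ℝ) ^ 2 / ((M : ℝ) + 1) ^ 2) +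
          8 * (N * (1 + Real.log N)) * (N / θ)) := by
        rw [h2x]
        field_simp
        ring
    _ ≤ Cq 1 * (4 * θ * K ^ 2 + N + 32 * (N * (1 + Real.log N)) * K ^ 2 +
          8 * (N * (1 + Real.log N)) * (K / c)) := by
        gcongr
    _ ≤ Cq 1 * ((64 * K ^ 2 + 8 * K / c + 1) * (N * (1 + Real.log N) + θ)) := by
        refine mul_le_mul_of_nonneg_left ?_ hCq.le
        have h1 : (N : ℝ) ≤ N * (1 + Real.log N) := by nlinarith
        have h2 : 0 ≤ N * (1 + Real.log N) := by positivity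
        have h3 : 8 * (N * (1 + Real.log N)) * (K / c) = 8 * K / c * (N * (1 + Real.log N)) := by ring
        have h4 : 0 ≤ 8 * K / c * θ := by positivity
        have h5 : 0 ≤ K ^ 2 * θ := by positivity
        have h6 : 0 ≤ K ^ 2 * (N * (1 + Real.log N)) := by positivity
        rw [h3]
        nlinarith
    _ = _ := by ring

end Pool.Agent.U587.ET
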