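import Pool.Agent.U587.ET.Exp

set_option autoImplicit false

/-!
Exponential sums with the phases `α n + κ log n`, uniformly in `κ`, for `α` not an integer, and the difference of the
sum and of the integral for `α = 0`.
-/

namespace Pool.Agent.U587.ET

open Finset MeasureTheory
open Pool.Agent.H469R2.NK (e norm_e e_add conj_e norm_sum_neg Cq Cq_pos harm_le kusmin_landau_mono
  kusmin_landau_anti e_nat)

lemma log_step {k : ℝ} (hk : 0 < k) :
    1 / (k + 1) ≤ Real.log (k + 1) - Real.log k ∧ Real.log (k + 1) - Real.log k ≤ 1 / k := by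
  constructor
  · have h1 := Real.log_le_sub_one_of_pos (show 0 < k / (k + 1) by positivity)
    rw [Real.log_div hk.ne' (by positivity)] at h1
    have h2 : k / (k + 1) - 1 = -(1 / (k + 1)) := by field_simp; ring
    linarith
  · have h1 := Real.log_le_sub_one_of_pos (show 0 < (k + 1) / k by positivity)
    rw [Real.log_div (by positivity) hk.ne'] at h1
    have h2 : (k + 1) / k - 1 = 1 / k := by field_simp; ring
    linarith

lemma log_step_anti {k : ℝ} (hk : 0 < k) :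
    Real.log (k + 2) - Real.log (k + 1) ≤ Real.log (k + 1) - Real.log k := by
  have h1 : Real.log ((k + 2) * k) ≤ Real.log ((k + 1) * (k + 1)) := by
    apply Real.log_le_log (by positivity)
    nlinarith
  rw [Real.log_mul (by positivity) hk.ne', Real.log_mul (by positivity) (by positivity)] at h1
  linarith

/-- small `θ`, `α` far from the integers -/
lemma kl1 {d α θ : ℝ} (hd : 0 < d) (h1 : d ≤ α) (h2 : α ≤ 1 - d) {M N : ℕ} (hM : 1 ≤ M)
    (hθ : |θ| ≤ d * M / 2) : ‖∑ n ∈ Ioc M N, e (α * n + θ * Real.log n)‖ ≤ 4 / d := by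
  have hM0 : (0 : ℝ) < M := by exact_mod_cast hM
  rw [sum_shift]
  set x : ℕ → ℝ := fun i => α * ((M + 1 + i : ℕ) : ℝ) + θ * Real.log ((M + 1 + i : ℕ) : ℝ) with hx
  have hdiff : ∀ i : ℕ, x (i + 1) - x i =
      α + θ * (Real.log (((M : ℝ) + 1 + i) + 1) - Real.log ((M : ℝ) + 1 + i)) := by
    intro i
    simp only [hx]
    push_cast
    rw [show (M : ℝ) + 1 + (i + 1) = (M : ℝ) + 1 + i + 1 by ring]
    ring
  have hk : ∀ i : ℕ, (0 : ℝ) < (M : ℝ) + 1 + i := fun i => by positivity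
  have hsm : ∀ i : ℕ, |θ * (Real.log (((M : ℝ) + 1 + i) + 1) - Real.log ((M : ℝ) + 1 + i))| ≤ d / 2 := by
    intro i
    obtain ⟨g1, g2⟩ := log_step (hk i)
    have g0 : 0 ≤ Real.log (((M : ℝ) + 1 + i) + 1) - Real.log ((M : ℝ) + 1 + i) :=
      le_trans (by have := hk i; positivity) g1
    have g3 : 1 / ((M : ℝ) + 1 + i) ≤ 1 / M := by
      apply one_div_le_one_div_of_le hM0
      have : (0 : ℝ) ≤ i := Nat.cast_nonneg i
      linarith
    rw [abs_mul, abs_of_nonneg g0]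
    calc |θ| * (Real.log (((M : ℝ) + 1 + i) + 1) - Real.log ((M : ℝ) + 1 + i)) ≤ (d * M / 2) * (1 / M) := by
          gcongr
          exact g2.trans g3
      _ = d / 2 := by field_simp
  have hlo : ∀ i : ℕ, d / 2 ≤ x (i + 1) - x i := fun i => by
    rw [hdiff]
    have := (abs_le.1 (hsm i)).1
    linarith
  have hhi : ∀ i : ℕ, x (i + 1) - x i ≤ 1 - d / 2 := fun i => by
    rw [hdiff]
    have := (abs_le.1 (hsm i)).2
    linarith
  have hmon : ∀ i : ℕ, Real.log (((M : ℝ) + 1 + (i + 1 : ℕ)) + 1) - Real.log ((M : ℝ) + 1 + (i + 1 : ℕ)) ≤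
      Real.log (((M : ℝ) + 1 + i) + 1) - Real.log ((M : ℝ) + 1 + i) := by
    intro i
    have h := log_step_anti (hk i)
    push_cast
    rw [show (M : ℝ) + 1 + (i + 1) + 1 = (M : ℝ) + 1 + i + 2 by ring,
      show (M : ℝ) + 1 + ((i : ℝ) + 1) = (M : ℝ) + 1 + i + 1 by ring]
    exact h
  have e4 : 4 / d = 2 / (d / 2) := by field_simp; ring
  rw [e4]
  rcases le_total 0 θ with h0 | h0
  · refine kusmin_landau_anti x (N - M) (by positivity) (fun i _ => hlo i) (fun i _ => hhi i) fun i _ => ?_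
    show x (i + 1 + 1) - x (i + 1) ≤ x (i + 1) - x i
    rw [hdiff (i + 1), hdiff i]
    have := mul_le_mul_of_nonneg_left (hmon i) h0
    linarith
  · refine kusmin_landau_mono x (N - M) (by positivity) (fun i _ => hlo i) (fun i _ => hhi i) fun i _ => ?_
    show x (i + 1) - x i ≤ x (i + 1 + 1) - x (i + 1)
    rw [hdiff (i + 1), hdiff i]
    have := mul_le_mul_of_nonpos_left (hmon i) h0
    linarith

/-- `α = 0`, `θ` at most `M / 2` -/
lemma kl2 {θ : ℝ} (hθ : 0 < θ) {M N : ℕ} (hMN : M ≤ N) (hM : θ ≤ ((M : ℝ) + 1) / 2) :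
    ‖∑ n ∈ Ioc M N, e (θ * Real.log n)‖ ≤ 2 * ((N : ℝ) + 1) / θ := by
  rw [sum_shift]
  set x : ℕ → ℝ := fun i => θ * Real.log ((M + 1 + i : ℕ) : ℝ) with hx
  have hdiff : ∀ i : ℕ, x (i + 1) - x i =
      θ * (Real.log (((M : ℝ) + 1 + i) + 1) - Real.log ((M : ℝ) + 1 + i)) := by
    intro i
    simp only [hx]
    push_cast
    rw [show (M : ℝ) + 1 + (i + 1) = (M : ℝ) + 1 + i + 1 by ring]
    ring
  have hk : ∀ i : ℕ, (0 : ℝ) < (M : ℝ) + 1 + i := fun i => by positivity
  have hMN' : (M : ℝ) ≤ N := by exact_mod_cast hMN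
  have hth : θ / ((N : ℝ) + 1) ≤ 1 / 2 := by
    rw [div_le_iff₀ (by positivity)]
    linarith
  have e4 : 2 * ((N : ℝ) + 1) / θ = 2 / (θ / ((N : ℝ) + 1)) := by field_simp
  rw [e4]
  refine kusmin_landau_anti x (N - M) (by positivity) (fun i hi => ?_) (fun i hi => ?_) fun i hi => ?_
  · rw [hdiff]
    obtain ⟨g1, -⟩ := log_step (hk i)
    have h1 : 1 / ((N : ℝ) + 1) ≤ 1 / ((M : ℝ) + 1 + i + 1) := by
      apply one_div_le_one_div_of_le (by have := hk i; positivity)
      have : i + 1 ≤ N - M := hi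
      have h2 : M + 1 + i + 1 ≤ N + 1 := by omega
      exact_mod_cast h2
    calc θ / ((N : ℝ) + 1) = θ * (1 / ((N : ℝ) + 1)) := by ring
      _ ≤ θ * (Real.log (((M : ℝ) + 1 + i) + 1) - Real.log ((M : ℝ) + 1 + i)) := by
        gcongr
        exact h1.trans g1
  · rw [hdiff]
    obtain ⟨-, g2⟩ := log_step (hk i)
    have h1 : 1 / ((M : ℝ) + 1 + i) ≤ 1 / ((M : ℝ) + 1) := by
      apply one_div_le_one_div_of_le (by positivity)
      have : (0 : ℝ) ≤ i := Nat.cast_nonneg i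
      linarith
    have h3 : θ * (Real.log (((M : ℝ) + 1 + i) + 1) - Real.log ((M : ℝ) + 1 + i)) ≤ 1 / 2 := by
      calc _ ≤ (((M : ℝ) + 1) / 2) * (1 / ((M : ℝ) + 1)) := by
            refine mul_le_mul hM (g2.trans h1) ?_ (by positivity)
            have := (log_step (hk i)).1
            exact le_trans (by have := hk i; positivity) this
        _ = 1 / 2 := by field_simp
    linarith
  · show x (i + 1 + 1) - x (i + 1) ≤ x (i + 1) - x i
    rw [hdiff (i + 1), hdiff i]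
    refine mul_le_mul_of_nonneg_left ?_ hθ.le
    have h := log_step_anti (hk i)
    push_cast
    rw [show (M : ℝ) + 1 + (i + 1) + 1 = (M : ℝ) + 1 + i + 2 by ring,
      show (M : ℝ) + 1 + ((i : ℝ) + 1) = (M : ℝ) + 1 + i + 1 by ring]
    exact h

/-- `exp (i κ log v)` -/
noncomputable def q (κ v : ℝ) : ℂ := Complex.exp (((κ * Real.log v : ℝ) : ℂ) * Complex.I)

lemma norm_q (κ v : ℝ) : ‖q κ v‖ = 1 := Complex.norm_exp_ofReal_mul_I _

lemma q_e (κ v : ℝ) : q κ v = e (κ / (2 * Real.pi) * Real.log v) := by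
  unfold q e
  congr 3
  have := Real.pi_pos
  field_simp

lemma q_cont (κ : ℝ) {M N : ℝ} (hM : 0 < M) : ContinuousOn (q κ) (Set.uIcc M N ∩ Set.Ici M) := by
  unfold q
  refine Complex.continuous_exp.comp_continuousOn ?_
  refine ContinuousOn.mul ?_ continuousOn_const
  refine Complex.continuous_ofReal.comp_continuousOn ?_
  refine continuousOn_const.mul ?_
  refine Real.continuousOn_log.mono fun v hv => ?_
  have : M ≤ v := hv.2
  simp only [Set.mem_compl_iff, Set.mem_singleton_iff]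
  linarith [hM.trans_le this]

lemma q_ii (κ : ℝ) {M N : ℝ} (hM : 0 < M) (hMN : M ≤ N) : IntervalIntegrable (q κ) volume M N := by
  apply ContinuousOn.intervalIntegrable
  refine (q_cont κ (M := M) (N := N) hM).mono fun v hv => ⟨hv, ?_⟩
  rw [Set.uIcc_of_le hMN] at hv
  exact hv.1

/-- the integral -/
lemma int_le {κ : ℝ} (hκ : κ ≠ 0) {M N : ℝ} (hM : 0 < M) (hMN : M ≤ N) : ‖∫ v in M..N, q κ v‖ ≤ 2 * N / |κ| := by
  have hz : (1 + κ * Complex.I : ℂ) ≠ 0 := by
    intro h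
    have := congrArg Complex.re h
    simp at this
  have hder : ∀ v ∈ Set.uIcc M N, HasDerivAt (fun v : ℝ => (v : ℂ) * q κ v / (1 + κ * Complex.I)) (q κ v) v := by
    intro v hv
    rw [Set.uIcc_of_le hMN] at hv
    have hv0 : 0 < v := hM.trans_le hv.1
    have h1 : HasDerivAt (fun v : ℝ => ((κ * Real.log v : ℝ) : ℂ) * Complex.I)
        (((κ * v⁻¹ : ℝ) : ℂ) * Complex.I) v :=
      (((Real.hasDerivAt_log hv0.ne').const_mul κ).ofReal_comp).mul_const _
    have h2 : HasDerivAt (fun v : ℝ => q κ v) (q κ v * (((κ * v⁻¹ : ℝ) : ℂ) * Complex.I)) v := h1.cexp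
    have h3 : HasDerivAt (fun v : ℝ => (v : ℂ)) 1 v := (hasDerivAt_id v).ofReal_comp
    have h4 := (h3.mul h2).div_const (1 + κ * Complex.I)
    have hvc : (v : ℂ) ≠ 0 := by exact_mod_cast hv0.ne'
    have h5 : (v : ℂ) * (q κ v * (((κ * v⁻¹ : ℝ) : ℂ) * Complex.I)) = q κ v * (κ * Complex.I) := by
      push_cast
      field_simp
    have h6 : (1 * q κ v + (v : ℂ) * (q κ v * (((κ * v⁻¹ : ℝ) : ℂ) * Complex.I))) / (1 + κ * Complex.I) = q κ v := by
      rw [div_eq_iff hz, h5]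
      ring
    rw [h6] at h4
    exact h4
  rw [intervalIntegral.integral_eq_sub_of_hasDerivAt hder (q_ii κ hM hMN), ← sub_div, norm_div]
  have hκ0 : 0 < |κ| := abs_pos.2 hκ
  have hN0 : 0 < N := hM.trans_le hMN
  have h1 : |κ| ≤ ‖(1 + κ * Complex.I : ℂ)‖ := by
    have := Complex.abs_im_le_norm (1 + κ * Complex.I : ℂ)
    simpa using this
  have h2 : ‖(N : ℂ) * q κ N - (M : ℂ) * q κ M‖ ≤ 2 * N := by
    refine (norm_sub_le _ _).trans ?_
    rw [norm_mul, norm_mul, norm_q, norm_q, Complex.norm_real, Complex.norm_real, Real.norm_of_nonneg hN0.le,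
      Real.norm_of_nonneg hM.le]
    linarith
  calc _ ≤ 2 * N / ‖(1 + κ * Complex.I : ℂ)‖ := by gcongr
    _ ≤ 2 * N / |κ| := by gcongr

lemma exp_sub_le (a b : ℝ) : ‖Complex.exp ((a : ℂ) * Complex.I) - Complex.exp ((b : ℂ) * Complex.I)‖ ≤ |a - b| := by
  have h1 : Complex.exp ((a : ℂ) * Complex.I) - Complex.exp ((b : ℂ) * Complex.I) =
      Complex.exp ((b : ℂ) * Complex.I) * (Complex.exp (Complex.I * ((a - b : ℝ) : ℂ)) - 1) := by
    rw [mul_sub, ← Complex.exp_add, mul_one]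
    congr 2
    push_cast
    ring
  rw [h1, norm_mul, Complex.norm_exp_ofReal_mul_I, one_mul]
  exact Real.norm_exp_I_mul_ofReal_sub_one_le

/-- small `κ` -/
lemma small (κ : ℝ) {M N : ℕ} (hM : 1 ≤ M) (hMN : M ≤ N) :
    ‖∑ n ∈ Ioc M N, q κ n - ∫ v in (M : ℝ)..N, q κ v‖ ≤ |κ| * N / M := by
  have hM0 : (0 : ℝ) < M := by exact_mod_cast hM
  obtain ⟨L, rfl⟩ : ∃ L, N = M + L := ⟨N - M, by omega⟩
  have key : ‖∑ n ∈ Ioc M (M + L), q κ n - ∫ v in (M : ℝ)..((M + L : ℕ) : ℝ), q κ v‖ ≤ |κ| / M * L := by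
    induction L with
    | zero => simp
    | succ L ih =>
      have ih' := ih (by omega)
      have e1 : ∑ n ∈ Ioc M (M + (L + 1)), q κ n = ∑ n ∈ Ioc M (M + L), q κ n + q κ ((M + L + 1 : ℕ) : ℝ) := by
        rw [← add_assoc, Finset.sum_Ioc_succ_top (by omega)]
      have hle1 : (M : ℝ) ≤ ((M + L : ℕ) : ℝ) := by push_cast; linarith [(Nat.cast_nonneg L : (0 : ℝ) ≤ L)]
      have hle2 : ((M + L : ℕ) : ℝ) ≤ ((M + (L + 1) : ℕ) : ℝ) := by push_cast; linarith
      have hpos : (0 : ℝ) < ((M + L : ℕ) : ℝ) := hM0.trans_le hle1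
      have e2 : ∫ v in (M : ℝ)..((M + (L + 1) : ℕ) : ℝ), q κ v =
          (∫ v in (M : ℝ)..((M + L : ℕ) : ℝ), q κ v) +
            ∫ v in ((M + L : ℕ) : ℝ)..((M + (L + 1) : ℕ) : ℝ), q κ v :=
        (intervalIntegral.integral_add_adjacent_intervals (q_ii κ hM0 hle1) (q_ii κ hpos hle2)).symm
      have e3 : q κ ((M + L + 1 : ℕ) : ℝ) =
          ∫ _v in ((M + L : ℕ) : ℝ)..((M + (L + 1) : ℕ) : ℝ), q κ ((M + L + 1 : ℕ) : ℝ) := by
        rw [intervalIntegral.integral_const]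
        push_cast
        rw [show (M : ℝ) + (L + 1) - (M + L) = 1 by ring, one_smul]
      have e4 : ‖q κ ((M + L + 1 : ℕ) : ℝ) - ∫ v in ((M + L : ℕ) : ℝ)..((M + (L + 1) : ℕ) : ℝ), q κ v‖ ≤
          |κ| / M := by
        conv_lhs => rw [e3]
        rw [← intervalIntegral.integral_sub (by simp) (q_ii κ hpos hle2)]
        have h1 := intervalIntegral.norm_integral_le_of_norm_le_const (f := fun v : ℝ =>
          q κ ((M + L + 1 : ℕ) : ℝ) - q κ v) (a := ((M + L : ℕ) : ℝ)) (b := ((M + (L + 1) : ℕ) : ℝ))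
          (C := |κ| / M) (fun v hv => ?_)
        · refine h1.trans (le_of_eq ?_)
          push_cast
          rw [show (M : ℝ) + (L + 1) - (M + L) = 1 by ring, abs_one, mul_one]
        · rw [Set.uIoc_of_le hle2] at hv
          have hv0 : 0 < v := hpos.trans hv.1
          have hw : v ≤ ((M + L + 1 : ℕ) : ℝ) := hv.2
          unfold q
          refine (exp_sub_le _ _).trans ?_
          rw [← mul_sub, abs_mul, div_eq_mul_one_div]
          refine mul_le_mul_of_nonneg_left ?_ (abs_nonneg _)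
          have h2 : 0 ≤ Real.log ((M + L + 1 : ℕ) : ℝ) - Real.log v := by
            have := Real.log_le_log hv0 hw
            linarith
          rw [abs_of_nonneg h2, ← Real.log_div (by positivity) hv0.ne']
          refine (Real.log_le_sub_one_of_pos (by positivity)).trans ?_
          have h3 : ((M + L + 1 : ℕ) : ℝ) / v - 1 = (((M + L + 1 : ℕ) : ℝ) - v) / v := by field_simp
          rw [h3]
          have h4 : ((M + L + 1 : ℕ) : ℝ) - v ≤ 1 := by
            have := hv.1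
            push_cast at this ⊢
            linarith
          have h5 : (M : ℝ) ≤ v := hle1.trans hv.1.le
          gcongr
      rw [e1, e2]
      have e5 : ∑ n ∈ Ioc M (M + L), q κ n + q κ ((M + L + 1 : ℕ) : ℝ) -
          ((∫ v in (M : ℝ)..((M + L : ℕ) : ℝ), q κ v) +
            ∫ v in ((M + L : ℕ) : ℝ)..((M + (L + 1) : ℕ) : ℝ), q κ v) =
          (∑ n ∈ Ioc M (M + L), q κ n - ∫ v in (M : ℝ)..((M + L : ℕ) : ℝ), q κ v) +
          (q κ ((M + L + 1 : ℕ) : ℝ) - ∫ v in ((M + L : ℕ) : ℝ)..((M + (L + 1) : ℕ) : ℝ), q κ v) := by ring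
      rw [e5]
      refine (norm_add_le _ _).trans ?_
      push_cast at ih' e4 ⊢
      linarith
  refine key.trans ?_
  rw [div_mul_eq_mul_div]
  push_cast
  have : (L : ℝ) ≤ M + L := by linarith
  gcongr

end Pool.Agent.U587.ET
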