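import Pool.Agent.U587.ET.Exp2

set_option autoImplicit false

/-!
The exponential sums with the phases `α n + κ log n`, uniformly in all real `κ`.
-/

namespace Pool.Agent.U587.ET

open Finset MeasureTheory
open Pool.Agent.H469R2.NK (e norm_e e_add conj_e norm_sum_neg Cq Cq_pos harm_le kusmin_landau_mono
  kusmin_landau_anti e_nat)

lemma e_int_mul (k : ℤ) (n : ℕ) : e ((k : ℝ) * n) = 1 := by
  unfold e
  rw [show ((2 * Real.pi * ((k : ℝ) * n) : ℝ) : ℂ) * Complex.I = ((k * n : ℤ) : ℂ) * (2 * Real.pi * Complex.I) by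
    push_cast; ring]
  exact Complex.exp_int_mul_two_pi_mul_I _

lemma e_fract (α : ℝ) (n : ℕ) : e (α * n) = e (Int.fract α * n) := by
  have h : α * n = Int.fract α * n + (⌊α⌋ : ℝ) * n := by
    rw [← add_mul, Int.fract_add_floor]
  rw [h, e_add, e_int_mul, mul_one]

lemma norm_conj_sum (s : Finset ℕ) (x : ℕ → ℝ) : ‖∑ n ∈ s, e (-(x n))‖ = ‖∑ n ∈ s, e (x n)‖ := by
  have h : ∑ n ∈ s, e (-(x n)) = (starRingEnd ℂ) (∑ n ∈ s, e (x n)) := by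
    rw [map_sum]
    exact sum_congr rfl fun n _ => (conj_e _).symm
  rw [h, RCLike.norm_conj]

lemma triv_le (s : Finset ℕ) (f : ℕ → ℂ) (hf : ∀ n, ‖f n‖ ≤ 1) : ‖∑ n ∈ s, f n‖ ≤ s.card := by
  refine (norm_sum_le _ _).trans ?_
  calc ∑ n ∈ s, ‖f n‖ ≤ ∑ _n ∈ s, (1 : ℝ) := sum_le_sum fun n _ => hf n
    _ = s.card := by simp

/-- `|θ|` in the middle range, both signs -/
lemma mid (K c : ℝ) (hK : 1 ≤ K) (hc : 0 < c) : ∃ C : ℝ, 0 < C ∧ ∀ M N : ℕ, 1 ≤ M → M ≤ N → (N : ℝ) ≤ K * M →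
    ∀ β θ : ℝ, c * M ≤ |θ| → |θ| ≤ ((M : ℝ) + 1) ^ 2 / 2 →
      ‖∑ n ∈ Ioc M N, e (β * n + θ * Real.log n)‖ ^ 2 ≤ C * (N * (1 + Real.log N) + |θ|) := by
  obtain ⟨C, hC, h⟩ := sd K c hK hc
  refine ⟨C, hC, fun M N hM hMN hNK β θ h1 h2 => ?_⟩
  rcases le_total 0 θ with h0 | h0
  · rw [abs_of_nonneg h0] at h1 h2 ⊢
    have h3 := h M N hM hMN hNK (-β) θ h1 h2
    have h4 : ∑ n ∈ Ioc M N, e (-β * n - θ * Real.log n) = ∑ n ∈ Ioc M N, e (-(β * n + θ * Real.log n)) :=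
      sum_congr rfl fun n _ => by congr 1; ring
    rw [h4, norm_conj_sum] at h3
    exact h3
  · rw [abs_of_nonpos h0] at h1 h2 ⊢
    have h3 := h M N hM hMN hNK β (-θ) h1 h2
    have h4 : ∑ n ∈ Ioc M N, e (β * n - -θ * Real.log n) = ∑ n ∈ Ioc M N, e (β * n + θ * Real.log n) :=
      sum_congr rfl fun n _ => by congr 1; ring
    rw [h4] at h3
    exact h3

lemma theta_le (κ : ℝ) : |κ / (2 * Real.pi)| ≤ |κ| := by
  rw [abs_div, abs_of_pos (by positivity : (0 : ℝ) < 2 * Real.pi)]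
  refine div_le_self (abs_nonneg _) ?_
  have := Real.pi_gt_three
  linarith

/-- `α` is not an integer -/
theorem uni_nonint (K α : ℝ) (hK : 1 ≤ K) (hα : ∀ k : ℤ, α ≠ k) : ∃ C : ℝ, 0 < C ∧ ∀ M N : ℕ, 1 ≤ M → M ≤ N →
    (N : ℝ) ≤ K * M → ∀ κ : ℝ, ‖∑ n ∈ Ioc M N, e (α * n) * q κ n‖ ^ 2 ≤ C * (N * (1 + Real.log N) + |κ|) := by
  obtain ⟨β, hβ⟩ : ∃ β, β = Int.fract α := ⟨_, rfl⟩
  have hβ1 : β < 1 := hβ ▸ Int.fract_lt_one α
  have hβ0 : 0 < β := by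
    rw [hβ]
    refine lt_of_le_of_ne (Int.fract_nonneg α) fun h => ?_
    exact hα ⌊α⌋ (by have := Int.fract_add_floor α; rw [← h, zero_add] at this; exact this.symm)
  obtain ⟨d, hd⟩ : ∃ d, d = min β (1 - β) := ⟨_, rfl⟩
  have hd0 : 0 < d := hd ▸ lt_min hβ0 (by linarith)
  have hd1 : d ≤ β := hd ▸ min_le_left _ _
  have hd2 : β ≤ 1 - d := by
    have : d ≤ 1 - β := hd ▸ min_le_right _ _
    linarith
  obtain ⟨C, hC, h⟩ := mid K (d / 2) hK (by positivity)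
  refine ⟨16 / d ^ 2 + C + 2 * K ^ 2, by positivity, fun M N hM hMN hNK κ => ?_⟩
  have hM0 : (0 : ℝ) < M := by exact_mod_cast hM
  have hM1 : (1 : ℝ) ≤ M := by exact_mod_cast hM
  have hN1 : (1 : ℝ) ≤ N := by exact_mod_cast hM.trans hMN
  have hlog : 0 ≤ Real.log N := Real.log_nonneg hN1
  have hsum : ∑ n ∈ Ioc M N, e (α * n) * q κ n =
      ∑ n ∈ Ioc M N, e (β * n + κ / (2 * Real.pi) * Real.log n) := by
    refine sum_congr rfl fun n _ => ?_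
    rw [e_add, e_fract, q_e, hβ]
  rw [hsum]
  have hX : 1 ≤ N * (1 + Real.log N) + |κ| := by
    have : 0 ≤ |κ| := abs_nonneg _
    nlinarith
  have hX0 : 0 < N * (1 + Real.log N) + |κ| := by linarith
  have hθκ := theta_le κ
  obtain ⟨θ, hθ⟩ : ∃ θ, θ = κ / (2 * Real.pi) := ⟨_, rfl⟩
  rw [← hθ] at hθκ ⊢
  rcases le_or_gt |θ| (d * M / 2) with c1 | c1
  · have h1 := kl1 (d := d) (α := β) (θ := θ) hd0 hd1 hd2 (M := M) (N := N) hM c1
    have h2 : ‖∑ n ∈ Ioc M N, e (β * n + θ * Real.log n)‖ ^ 2 ≤ (4 / d) ^ 2 :=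
      pow_le_pow_left₀ (norm_nonneg _) h1 2
    have h3 : (4 / d) ^ 2 = 16 / d ^ 2 := by
      rw [div_pow]; norm_num
    rw [h3] at h2
    refine h2.trans ?_
    have h4 : 16 / d ^ 2 ≤ 16 / d ^ 2 * (N * (1 + Real.log N) + |κ|) := le_mul_of_one_le_right (by positivity) hX
    have h5 : 0 ≤ (C + 2 * K ^ 2) * (N * (1 + Real.log N) + |κ|) := by positivity
    calc _ ≤ _ := h4
      _ ≤ 16 / d ^ 2 * (N * (1 + Real.log N) + |κ|) + (C + 2 * K ^ 2) * (N * (1 + Real.log N) + |κ|) := by linarith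
      _ = _ := by ring
  rcases le_or_gt |θ| (((M : ℝ) + 1) ^ 2 / 2) with c2 | c2
  · have h1 := h M N hM hMN hNK β θ (by linarith) c2
    refine h1.trans ?_
    calc C * (N * (1 + Real.log N) + |θ|) ≤ C * (N * (1 + Real.log N) + |κ|) := by gcongr
      _ ≤ (16 / d ^ 2 + C + 2 * K ^ 2) * (N * (1 + Real.log N) + |κ|) := by
        refine mul_le_mul_of_nonneg_right ?_ hX0.le
        have : 0 ≤ 16 / d ^ 2 := by positivity
        have : 0 ≤ 2 * K ^ 2 := by positivity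
        linarith
  · have h1 : ‖∑ n ∈ Ioc M N, e (β * n + θ * Real.log n)‖ ≤ N := by
      refine (triv_le _ _ fun n => (norm_e _).le).trans ?_
      rw [Nat.card_Ioc]
      exact_mod_cast Nat.sub_le _ _
    have h2 : ‖∑ n ∈ Ioc M N, e (β * n + θ * Real.log n)‖ ^ 2 ≤ (N : ℝ) ^ 2 :=
      pow_le_pow_left₀ (norm_nonneg _) h1 2
    refine h2.trans ?_
    have h3 : (N : ℝ) ^ 2 ≤ 2 * K ^ 2 * |κ| := by
      calc (N : ℝ) ^ 2 ≤ (K * M) ^ 2 := by gcongr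
        _ = 2 * K ^ 2 * ((M : ℝ) ^ 2 / 2) := by ring
        _ ≤ 2 * K ^ 2 * (((M : ℝ) + 1) ^ 2 / 2) := by gcongr; linarith
        _ ≤ 2 * K ^ 2 * |θ| := by gcongr
        _ ≤ 2 * K ^ 2 * |κ| := by gcongr
    have h4 : 0 ≤ (16 / d ^ 2 + C) * (N * (1 + Real.log N) + |κ|) := by positivity
    have h5 : 2 * K ^ 2 * |κ| ≤ 2 * K ^ 2 * (N * (1 + Real.log N) + |κ|) := by
      refine mul_le_mul_of_nonneg_left ?_ (by positivity)
      have : 0 ≤ N * (1 + Real.log N) := by positivity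
      linarith
    calc _ ≤ _ := h3
      _ ≤ _ := h5
      _ ≤ (16 / d ^ 2 + C) * (N * (1 + Real.log N) + |κ|) + 2 * K ^ 2 * (N * (1 + Real.log N) + |κ|) := by linarith
      _ = _ := by ring

/-- `α = 0`: the sum minus the integral -/
theorem uni_int (K : ℝ) (hK : 1 ≤ K) : ∃ C : ℝ, 0 < C ∧ ∀ M N : ℕ, 1 ≤ M → M ≤ N →
    (N : ℝ) ≤ K * M → ∀ κ : ℝ, ‖∑ n ∈ Ioc M N, q κ n - ∫ v in (M : ℝ)..N, q κ v‖ ^ 2 ≤
      C * (N * (1 + Real.log N) + |κ|) := by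
  obtain ⟨C, hC, h⟩ := mid K (1 / 2) hK (by positivity)
  have hpi := Real.pi_gt_three
  have hpi4 := Real.pi_le_four
  refine ⟨K ^ 2 + 3000 * K + (2 * C + 2 * K ^ 2) + 8 * K ^ 2, by positivity, fun M N hM hMN hNK κ => ?_⟩
  have hM0 : (0 : ℝ) < M := by exact_mod_cast hM
  have hM1 : (1 : ℝ) ≤ M := by exact_mod_cast hM
  have hMN' : (M : ℝ) ≤ N := by exact_mod_cast hMN
  have hN1 : (1 : ℝ) ≤ N := by exact_mod_cast hM.trans hMN
  have hN0 : (0 : ℝ) < N := by linarith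
  have hlog : 0 ≤ Real.log N := Real.log_nonneg hN1
  have hX1 : (N : ℝ) ≤ N * (1 + Real.log N) + |κ| := by
    have : 0 ≤ |κ| := abs_nonneg _
    nlinarith
  have hX : 1 ≤ N * (1 + Real.log N) + |κ| := by linarith
  have hX0 : 0 < N * (1 + Real.log N) + |κ| := by linarith
  have hXκ : |κ| ≤ N * (1 + Real.log N) + |κ| := by
    have : 0 ≤ N * (1 + Real.log N) := by positivity
    linarith
  obtain ⟨X, hXd⟩ : ∃ X, X = N * (1 + Real.log N) + |κ| := ⟨_, rfl⟩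
  rw [← hXd] at hX1 hX hX0 hXκ ⊢
  obtain ⟨D, hD⟩ : ∃ D : ℂ, D = ∑ n ∈ Ioc M N, q κ n - ∫ v in (M : ℝ)..N, q κ v := ⟨_, rfl⟩
  rw [← hD]
  have hθκ := theta_le κ
  have hsum : ∑ n ∈ Ioc M N, q κ n = ∑ n ∈ Ioc M N, e (0 * n + κ / (2 * Real.pi) * Real.log n) := by
    refine sum_congr rfl fun n _ => ?_
    rw [zero_mul, zero_add, q_e]
  rcases le_or_gt (κ ^ 2) (M : ℝ) with c1 | c1
  · -- small
    have h1 := small κ hM hMN
    rw [← hD] at h1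
    have h2 : ‖D‖ ^ 2 ≤ (|κ| * N / M) ^ 2 := pow_le_pow_left₀ (norm_nonneg _) h1 2
    have h3 : (|κ| * N / M) ^ 2 ≤ K ^ 2 * X := by
      have h4 : |κ| * N / M ≤ |κ| * K := by
        rw [div_le_iff₀ hM0, mul_assoc]
        gcongr
      calc (|κ| * N / M) ^ 2 ≤ (|κ| * K) ^ 2 := by gcongr
        _ = K ^ 2 * κ ^ 2 := by rw [mul_pow, sq_abs]; ring
        _ ≤ K ^ 2 * M := by gcongr
        _ ≤ K ^ 2 * X := by gcongr; linarith
    refine h2.trans (h3.trans ?_)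
    refine mul_le_mul_of_nonneg_right ?_ hX0.le
    have : 0 ≤ 3000 * K + (2 * C + 2 * K ^ 2) + 8 * K ^ 2 := by positivity
    linarith
  have hκ0 : κ ≠ 0 := by
    rintro rfl
    norm_num at c1
    linarith
  have hκa : 0 < |κ| := abs_pos.2 hκ0
  have hI : ‖∫ v in (M : ℝ)..N, q κ v‖ ≤ 2 * N / |κ| := int_le hκ0 hM0 hMN'
  have hsplit : ‖D‖ ^ 2 ≤ 2 * ‖∑ n ∈ Ioc M N, q κ n‖ ^ 2 + 2 * ‖∫ v in (M : ℝ)..N, q κ v‖ ^ 2 := by
    have h1 : ‖D‖ ≤ ‖∑ n ∈ Ioc M N, q κ n‖ + ‖∫ v in (M : ℝ)..N, q κ v‖ := by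
      rw [hD]
      exact norm_sub_le _ _
    have h2 : ‖D‖ ^ 2 ≤ (‖∑ n ∈ Ioc M N, q κ n‖ + ‖∫ v in (M : ℝ)..N, q κ v‖) ^ 2 :=
      pow_le_pow_left₀ (norm_nonneg _) h1 2
    nlinarith [sq_nonneg (‖∑ n ∈ Ioc M N, q κ n‖ - ‖∫ v in (M : ℝ)..N, q κ v‖)]
  rw [hsum] at hsplit
  obtain ⟨θ, hθ⟩ : ∃ θ, θ = κ / (2 * Real.pi) := ⟨_, rfl⟩
  have hκθ : |κ| = 2 * Real.pi * |θ| := by
    rw [hθ, abs_div, abs_of_pos (by positivity : (0 : ℝ) < 2 * Real.pi)]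
    field_simp
  rw [← hθ] at hθκ hsplit
  have hθ0 : 0 < |θ| := by
    by_contra hcon
    have : |θ| = 0 := le_antisymm (not_lt.1 hcon) (abs_nonneg _)
    rw [this, mul_zero] at hκθ
    linarith
  rcases le_or_gt |θ| (((M : ℝ) + 1) / 2) with c2 | c2
  · -- `|θ| ≤ (M + 1) / 2`
    have h1 : ‖∑ n ∈ Ioc M N, e (0 * n + θ * Real.log n)‖ ≤ 2 * ((N : ℝ) + 1) / |θ| := by
      rcases le_total 0 θ with h0 | h0
      · rw [abs_of_nonneg h0] at c2 hθ0 ⊢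
        have := kl2 hθ0 hMN c2
        simpa using this
      · rw [abs_of_nonpos h0] at c2 hθ0 ⊢
        have := kl2 hθ0 hMN c2
        have h4 : ∑ n ∈ Ioc M N, e (0 * n + θ * Real.log n) = ∑ n ∈ Ioc M N, e (-(-θ * Real.log n)) :=
          sum_congr rfl fun n _ => by congr 1; ring
        rw [h4, norm_conj_sum]
        exact this
    have h2 : ‖∑ n ∈ Ioc M N, e (0 * n + θ * Real.log n)‖ ≤ 32 * N / |κ| := by
      refine h1.trans ?_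
      rw [hκθ, div_le_div_iff₀ hθ0 (by positivity)]
      calc 2 * ((N : ℝ) + 1) * (2 * Real.pi * |θ|) ≤ 2 * ((N : ℝ) + N) * (2 * 4 * |θ|) := by gcongr
        _ = 32 * N * |θ| := by ring
    have h3 : ‖∑ n ∈ Ioc M N, e (0 * n + θ * Real.log n)‖ ^ 2 ≤ 1024 * (K * N) := by
      calc _ ≤ (32 * N / |κ|) ^ 2 := pow_le_pow_left₀ (norm_nonneg _) h2 2
        _ = 1024 * (N ^ 2 / κ ^ 2) := by rw [div_pow, mul_pow, sq_abs]; ring
        _ ≤ 1024 * (K * N) := by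
          gcongr
          rw [div_le_iff₀ (by positivity)]
          calc (N : ℝ) ^ 2 ≤ N * (K * M) := by rw [sq]; gcongr
            _ = K * N * M := by ring
            _ ≤ K * N * κ ^ 2 := by gcongr
    have h4 : ‖∫ v in (M : ℝ)..N, q κ v‖ ^ 2 ≤ 4 * (K * N) := by
      calc _ ≤ (2 * N / |κ|) ^ 2 := pow_le_pow_left₀ (norm_nonneg _) hI 2
        _ = 4 * (N ^ 2 / κ ^ 2) := by rw [div_pow, mul_pow, sq_abs]; ring
        _ ≤ 4 * (K * N) := by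
          gcongr
          rw [div_le_iff₀ (by positivity)]
          calc (N : ℝ) ^ 2 ≤ N * (K * M) := by rw [sq]; gcongr
            _ = K * N * M := by ring
            _ ≤ K * N * κ ^ 2 := by gcongr
    have h5 : ‖D‖ ^ 2 ≤ 2056 * (K * N) := by linarith
    refine h5.trans ?_
    have h6 : K * N ≤ K * X := by gcongr
    have h7 : K ≤ K ^ 2 := by nlinarith
    have h8 : K * X ≤ K ^ 2 * X := by gcongr
    have h9 : 0 ≤ C * X := by positivity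
    nlinarith
  have hI2 : ‖∫ v in (M : ℝ)..N, q κ v‖ ^ 2 ≤ K ^ 2 := by
    refine pow_le_pow_left₀ (norm_nonneg _) (hI.trans ?_) 2
    rw [div_le_iff₀ hκa, hκθ]
    have h1 : (2 : ℝ) * Real.pi * |θ| ≥ 2 * 3 * (((M : ℝ) + 1) / 2) := by gcongr
    have h2 : K * (2 * 3 * (((M : ℝ) + 1) / 2)) ≤ K * (2 * Real.pi * |θ|) := by gcongr
    nlinarith
  rcases le_or_gt |θ| (((M : ℝ) + 1) ^ 2 / 2) with c3 | c3
  · have h1 := h M N hM hMN hNK 0 θ (by linarith) c3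
    have h2 : C * (N * (1 + Real.log N) + |θ|) ≤ C * X := by
      rw [hXd]
      gcongr
    have h3 : K ^ 2 ≤ K ^ 2 * X := le_mul_of_one_le_right (by positivity) hX
    have h4 : ‖D‖ ^ 2 ≤ (2 * C + 2 * K ^ 2) * X := by nlinarith
    refine h4.trans ?_
    refine mul_le_mul_of_nonneg_right ?_ hX0.le
    have : 0 ≤ K ^ 2 + 3000 * K := by positivity
    have : 0 ≤ 8 * K ^ 2 := by positivity
    linarith
  · have h1 : ‖∑ n ∈ Ioc M N, e (0 * n + θ * Real.log n)‖ ≤ N := by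
      refine (triv_le _ _ fun n => (norm_e _).le).trans ?_
      rw [Nat.card_Ioc]
      exact_mod_cast Nat.sub_le _ _
    have h2 : ‖∑ n ∈ Ioc M N, e (0 * n + θ * Real.log n)‖ ^ 2 ≤ (N : ℝ) ^ 2 :=
      pow_le_pow_left₀ (norm_nonneg _) h1 2
    have h3 : (N : ℝ) ^ 2 ≤ 2 * K ^ 2 * |κ| := by
      calc (N : ℝ) ^ 2 ≤ (K * M) ^ 2 := by gcongr
        _ = 2 * K ^ 2 * ((M : ℝ) ^ 2 / 2) := by ring
        _ ≤ 2 * K ^ 2 * (((M : ℝ) + 1) ^ 2 / 2) := by gcongr; linarith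
        _ ≤ 2 * K ^ 2 * |θ| := by gcongr
        _ ≤ 2 * K ^ 2 * |κ| := by gcongr
    have h5 : 2 * K ^ 2 * |κ| ≤ 2 * K ^ 2 * X := by gcongr
    have h6 : K ^ 2 ≤ K ^ 2 * X := le_mul_of_one_le_right (by positivity) hX
    have h7 : ‖D‖ ^ 2 ≤ (6 * K ^ 2) * X := by nlinarith
    refine h7.trans ?_
    refine mul_le_mul_of_nonneg_right ?_ hX0.le
    have : 0 ≤ 3000 * K + 2 * C + 5 * K ^ 2 := by positivity
    nlinarith

end Pool.Agent.U587.ET
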