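import Pool.Agent.U587.ET.Blk
import Pool.Agent.U587.ET.Cov

set_option autoImplicit false

/-!
Families of Lipschitz functions: discrete and continuous averages at all times off a set of gauge measure zero.
-/

namespace Pool.Agent.U587.ET

open MeasureTheory Filter Finset
open Pool.Agent.H469R2.NK (e norm_e)
open scoped Topology

universe u

/-- a piece of the difference -/
noncomputable def rs (α : ℝ) (F : ℝ → ℂ) (a : ℝ) (M N : ℕ) : ℂ :=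
  ∑ n ∈ Ioc M N, e (α * n) * F (a * n) - dl α * ∫ v in (M : ℝ)..N, F (a * v)

lemma rs_add {α : ℝ} {F : ℝ → ℂ} (hF : Continuous F) (a : ℝ) {M N K : ℕ} (h1 : M ≤ N) (h2 : N ≤ K) :
    rs α F a M N + rs α F a N K = rs α F a M K := by
  unfold rs
  have hi : ∀ u v : ℝ, IntervalIntegrable (fun v => F (a * v)) volume u v := fun u v =>
    (hF.comp (continuous_const.mul continuous_id)).intervalIntegrable _ _
  rw [← sum_Ioc_consecutive _ h1 h2, ← intervalIntegral.integral_add_adjacent_intervals (hi M N) (hi N K)]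
  ring

lemma rs_le {α : ℝ} {F : ℝ → ℂ} (hF : ∀ v, ‖F v‖ ≤ 1) (a : ℝ) {M N : ℕ} (h : M ≤ N) :
    ‖rs α F a M N‖ ≤ 2 * ((N : ℝ) - M) := by
  unfold rs
  have hMN : (M : ℝ) ≤ N := by exact_mod_cast h
  have h1 : ‖∑ n ∈ Ioc M N, e (α * n) * F (a * n)‖ ≤ (N : ℝ) - M := by
    refine (triv_le (Ioc M N) (fun n => e (α * n) * F (a * n)) fun n => ?_).trans ?_
    · rw [norm_mul, norm_e, one_mul]
      exact hF _
    · rw [Nat.card_Ioc, Nat.cast_sub h]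
  have h2 : ‖∫ v in (M : ℝ)..N, F (a * v)‖ ≤ (N : ℝ) - M := by
    refine (intervalIntegral.norm_integral_le_of_norm_le_const (C := 1) fun v _ => hF _).trans ?_
    rw [one_mul, abs_of_nonneg (by linarith)]
  have h3 : ‖dl α * ∫ v in (M : ℝ)..N, F (a * v)‖ ≤ 1 * ((N : ℝ) - M) := by
    rw [norm_mul]
    exact mul_le_mul (norm_dl α) h2 (norm_nonneg _) zero_le_one
  calc _ ≤ ‖∑ n ∈ Ioc M N, e (α * n) * F (a * n)‖ + ‖dl α * ∫ v in (M : ℝ)..N, F (a * v)‖ := norm_sub_le _ _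
    _ ≤ _ := by linarith

/-- the difference of the discrete and the continuous averages -/
noncomputable def fd (α : ℝ) (F : ℝ → ℂ) (a : ℝ) (N : ℕ) : ℂ := (1 / (N : ℂ)) * rs α F a 0 N

lemma norm_fd (α : ℝ) (F : ℝ → ℂ) (a : ℝ) (N : ℕ) : ‖fd α F a N‖ = (1 / (N : ℝ)) * ‖rs α F a 0 N‖ := by
  unfold fd
  rw [norm_mul, norm_div, norm_one, Complex.norm_natCast]

lemma fd_step {α : ℝ} {F : ℝ → ℂ} (hF : Continuous F) (hF1 : ∀ v, ‖F v‖ ≤ 1) (a : ℝ) {M N : ℕ} (hM : 1 ≤ M)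
    (h : M ≤ N) : ‖fd α F a N‖ ≤ ‖fd α F a M‖ + 2 * (1 - (M : ℝ) / N) := by
  have hM0 : (0 : ℝ) < M := by exact_mod_cast hM
  have hMN : (M : ℝ) ≤ N := by exact_mod_cast h
  have hN0 : (0 : ℝ) < N := by linarith
  rw [norm_fd, norm_fd, ← rs_add hF a (Nat.zero_le M) h]
  have h1 := norm_add_le (rs α F a 0 M) (rs α F a M N)
  have h2 := rs_le (α := α) hF1 a h
  have h3 : 1 / (N : ℝ) * ‖rs α F a 0 M‖ ≤ 1 / (M : ℝ) * ‖rs α F a 0 M‖ := by
    refine mul_le_mul_of_nonneg_right ?_ (norm_nonneg _)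
    exact one_div_le_one_div_of_le hM0 hMN
  calc 1 / (N : ℝ) * ‖rs α F a 0 M + rs α F a M N‖
      ≤ 1 / (N : ℝ) * (‖rs α F a 0 M‖ + 2 * ((N : ℝ) - M)) := by gcongr; linarith
    _ = 1 / (N : ℝ) * ‖rs α F a 0 M‖ + 2 * (1 - (M : ℝ) / N) := by field_simp
    _ ≤ _ := by linarith

lemma fd_bk {α : ℝ} {F : ℝ → ℂ} (hF : Continuous F) (hF1 : ∀ v, ‖F v‖ ≤ 1) (a : ℝ) {ε : ℝ} (hε : 0 ≤ ε)
    (hε1 : ε ≤ 1) {N : ℕ} (hN : 1 ≤ N) : ‖fd α F a N‖ ≤ ‖bk α ε F N a‖ + 2 * ε := by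
  have hN0 : (0 : ℝ) < N := by exact_mod_cast hN
  have hMN' : (⌊ε * N⌋₊ : ℝ) ≤ ε * N := Nat.floor_le (by positivity)
  have hMN : ⌊ε * N⌋₊ ≤ N := by
    have : (⌊ε * N⌋₊ : ℝ) ≤ N := hMN'.trans (by nlinarith)
    exact_mod_cast this
  have hbk : ‖bk α ε F N a‖ = 1 / (N : ℝ) * ‖rs α F a ⌊ε * N⌋₊ N‖ := by
    unfold bk rs
    rw [norm_mul, norm_div, norm_one, Complex.norm_natCast]
  rw [norm_fd, hbk, ← rs_add hF a (Nat.zero_le _) hMN]
  have h1 := norm_add_le (rs α F a 0 ⌊ε * N⌋₊) (rs α F a ⌊ε * N⌋₊ N)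
  have h2 := rs_le (α := α) hF1 a (Nat.zero_le ⌊ε * N⌋₊)
  rw [Nat.cast_zero, sub_zero] at h2
  calc 1 / (N : ℝ) * ‖rs α F a 0 ⌊ε * N⌋₊ + rs α F a ⌊ε * N⌋₊ N‖
      ≤ 1 / (N : ℝ) * (2 * (ε * N) + ‖rs α F a ⌊ε * N⌋₊ N‖) := by gcongr; linarith
    _ = _ := by field_simp; ring

/-- from a geometric sequence to all lengths -/
lemma conv_step {α : ℝ} {F : ℝ → ℂ} (hF : Continuous F) (hF1 : ∀ v, ‖F v‖ ≤ 1) {a η : ℝ} (hη : 0 < η)
    (hη1 : η ≤ 1) (h : ∀ᶠ j : ℕ in atTop, ‖bk α η F ⌈(1 + η) ^ j⌉₊ a‖ ≤ η) :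
    ∀ᶠ N : ℕ in atTop, ‖fd α F a N‖ ≤ 5 * η := by
  obtain ⟨J, hJ⟩ := eventually_atTop.1 h
  have hρ : 1 < 1 + η := by linarith
  filter_upwards [eventually_ge_atTop 1, tendsto_natCast_atTop_atTop.eventually_ge_atTop ((1 + η) ^ J)]
    with N hN1 hNJ
  have hN1' : (1 : ℝ) ≤ N := by exact_mod_cast hN1
  obtain ⟨j, hj1, hj2⟩ := exists_nat_pow_near hN1' hρ
  have hjJ : J ≤ j := by
    have h1 : (1 + η) ^ J < (1 + η) ^ (j + 1) := lt_of_le_of_lt hNJ hj2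
    have h2 := (pow_lt_pow_iff_right₀ hρ).1 h1
    omega
  have hρj : 0 < (1 + η) ^ j := by positivity
  have hM1 : 1 ≤ ⌈(1 + η) ^ j⌉₊ := Nat.one_le_iff_ne_zero.2 (by
    have := Nat.ceil_pos.2 hρj
    omega)
  have hMN : ⌈(1 + η) ^ j⌉₊ ≤ N := Nat.ceil_le.2 hj1
  have h1 := fd_step (α := α) hF hF1 a hM1 hMN
  have h2 := fd_bk (α := α) hF hF1 a hη.le hη1 hM1
  have h3 := hJ j hjJ
  have h4 : 1 - ((⌈(1 + η) ^ j⌉₊ : ℕ) : ℝ) / N ≤ η := by
    have h5 : (1 + η) ^ j / N ≤ ((⌈(1 + η) ^ j⌉₊ : ℕ) : ℝ) / N := by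
      gcongr
      exact Nat.le_ceil _
    have h6 : 1 / (1 + η) ≤ (1 + η) ^ j / N := by
      rw [div_le_div_iff₀ (by linarith) (by linarith), one_mul, ← pow_succ]
      exact hj2.le
    have h7 : 1 - η ≤ 1 / (1 + η) := by
      rw [le_div_iff₀ (by linarith)]
      nlinarith
    linarith
  linarith

lemma bk_meas {X : Type u} [MeasurableSpace X] {F : X → ℝ → ℂ} (hFm : Measurable (fun p : X × ℝ => F p.1 p.2))
    (α ε : ℝ) (hε : 0 ≤ ε) (hε1 : ε ≤ 1) (N : ℕ) : Measurable (fun p : X × ℝ => bk α ε (F p.1) N p.2) := by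
  unfold bk
  have hMN : (⌊ε * N⌋₊ : ℝ) ≤ N := (Nat.floor_le (by positivity)).trans (by
    have : (0 : ℝ) ≤ N := Nat.cast_nonneg _
    nlinarith)
  refine measurable_const.mul (Measurable.sub ?_ (measurable_const.mul ?_))
  · refine Finset.measurable_sum _ fun n _ => measurable_const.mul ?_
    exact hFm.comp (measurable_fst.prodMk (measurable_snd.mul_const _))
  · simp only [intervalIntegral.integral_of_le hMN]
    have h1 : Measurable (fun r : (X × ℝ) × ℝ => F r.1.1 (r.1.2 * r.2)) :=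
      hFm.comp ((measurable_fst.comp measurable_fst).prodMk
        ((measurable_snd.comp measurable_fst).mul measurable_snd))
    exact (h1.stronglyMeasurable.integral_prod_right' (ν := volume.restrict (Set.Ioc (⌊ε * N⌋₊ : ℝ) N))).measurable

lemma bk_lip {F : ℝ → ℂ} {L : ℝ} (hL : 0 ≤ L) (hFL : ∀ v w, ‖F v - F w‖ ≤ L * |v - w|) (α ε : ℝ) (hε : 0 ≤ ε)
    (hε1 : ε ≤ 1) {N : ℕ} (hN : 1 ≤ N) (a b : ℝ) : ‖bk α ε F N a - bk α ε F N b‖ ≤ 2 * L * N * |a - b| := by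
  have hN0 : (0 : ℝ) < N := by exact_mod_cast hN
  have hM0 : (0 : ℝ) ≤ (⌊ε * N⌋₊ : ℝ) := Nat.cast_nonneg _
  have hMN : (⌊ε * N⌋₊ : ℝ) ≤ N := (Nat.floor_le (by positivity)).trans (by nlinarith)
  have hFc := lip_meas hL hFL
  have hi : ∀ c : ℝ, IntervalIntegrable (fun v => F (c * v)) volume (⌊ε * N⌋₊ : ℝ) N := fun c =>
    (hFc.comp (continuous_const.mul continuous_id)).intervalIntegrable _ _
  have e1 : bk α ε F N a - bk α ε F N b = (1 / (N : ℂ)) *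
      (∑ n ∈ Ioc ⌊ε * N⌋₊ N, e (α * n) * (F (a * n) - F (b * n)) -
        dl α * ∫ v in (⌊ε * N⌋₊ : ℝ)..N, (F (a * v) - F (b * v))) := by
    unfold bk
    rw [intervalIntegral.integral_sub (hi a) (hi b)]
    simp only [mul_sub, sum_sub_distrib]
    ring
  have hB : ∀ v : ℝ, 0 ≤ v → v ≤ N → ‖F (a * v) - F (b * v)‖ ≤ L * N * |a - b| := by
    intro v hv0 hv1
    refine (hFL _ _).trans ?_
    rw [← sub_mul, abs_mul, abs_of_nonneg hv0]
    calc L * (|a - b| * v) ≤ L * (|a - b| * N) := by gcongr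
      _ = _ := by ring
  have h1 : ‖∑ n ∈ Ioc ⌊ε * N⌋₊ N, e (α * n) * (F (a * n) - F (b * n))‖ ≤ N * (L * N * |a - b|) := by
    refine (norm_sum_le _ _).trans ?_
    calc ∑ n ∈ Ioc ⌊ε * N⌋₊ N, ‖e (α * n) * (F (a * n) - F (b * n))‖
        ≤ ∑ _n ∈ Ioc ⌊ε * N⌋₊ N, L * N * |a - b| := by
          refine sum_le_sum fun n hn => ?_
          rw [norm_mul, norm_e, one_mul]
          rw [mem_Ioc] at hn
          exact hB n (Nat.cast_nonneg _) (by exact_mod_cast hn.2)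
      _ ≤ _ := by
          rw [sum_const, Nat.card_Ioc, nsmul_eq_mul]
          refine mul_le_mul_of_nonneg_right ?_ (by positivity)
          exact_mod_cast Nat.sub_le _ _
  have h2 : ‖∫ v in (⌊ε * N⌋₊ : ℝ)..N, (F (a * v) - F (b * v))‖ ≤ N * (L * N * |a - b|) := by
    refine (intervalIntegral.norm_integral_le_of_norm_le_const (C := L * N * |a - b|) fun v hv => ?_).trans ?_
    · rw [Set.uIoc_of_le hMN] at hv
      exact hB v (hM0.trans hv.1.le) hv.2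
    · rw [abs_of_nonneg (show (0 : ℝ) ≤ N - (⌊ε * N⌋₊ : ℝ) by linarith), mul_comm]
      refine mul_le_mul_of_nonneg_right (by linarith) (by positivity)
  have h3 : ‖dl α * ∫ v in (⌊ε * N⌋₊ : ℝ)..N, (F (a * v) - F (b * v))‖ ≤ 1 * (N * (L * N * |a - b|)) := by
    rw [norm_mul]
    exact mul_le_mul (norm_dl α) h2 (norm_nonneg _) zero_le_one
  rw [e1, norm_mul, norm_div, norm_one, Complex.norm_natCast, one_div, inv_mul_le_iff₀ hN0]
  refine (norm_sub_le _ _).trans ?_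
  calc _ ≤ N * (L * N * |a - b|) + 1 * (N * (L * N * |a - b|)) := add_le_add h1 h3
    _ = _ := by ring

variable {X : Type u} [MeasurableSpace X] {μ : Measure X} [IsProbabilityMeasure μ]

theorem fam_A {q A η : ℝ} (hq : 3 < q) (hA : 0 < A) (hη : 0 < η) (hη1 : η ≤ 1) (α : ℝ) {F : X → ℝ → ℂ}
    (hFm : Measurable (fun p : X × ℝ => F p.1 p.2)) (hF1 : ∀ x v, ‖F x v‖ ≤ 1) {L : ℝ} (hL : 0 ≤ L)
    (hFL : ∀ x v w, ‖F x v - F x w‖ ≤ L * |v - w|) :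
    ∃ E : Set ℝ, GNull q E ∧ ∀ a ∈ Set.Icc A (2 * A), a ∉ E →
      ∀ᵐ x ∂μ, ∀ᶠ N : ℕ in atTop, ‖fd α (F x) a N‖ ≤ 5 * η := by
  obtain ⟨C, hC, hblk⟩ := blk α hη hη1 hA hL
  have hρ : 1 < 1 + η := by linarith
  have hρ0 : 0 < 1 + η := by linarith
  have hρj : ∀ j : ℕ, 1 ≤ (1 + η) ^ j := fun j => one_le_pow₀ hρ.le
  have hlogρ : 0 < Real.log (1 + η) := Real.log_pos hρ
  obtain ⟨K, hK⟩ : ∃ K : ℕ → ℕ, ∀ j, K j = ⌈(1 + η) ^ j⌉₊ := ⟨fun j => ⌈(1 + η) ^ j⌉₊, fun j => rfl⟩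
  have hN1 : ∀ j : ℕ, 1 ≤ K j := fun j => Nat.one_le_iff_ne_zero.2 (by
    rw [hK]
    have := Nat.ceil_pos.2 (zero_lt_one.trans_le (hρj j))
    omega)
  have hN2 : ∀ j : ℕ, (K j : ℝ) ≤ 2 * (1 + η) ^ j := fun j => by
    rw [hK]
    have := Nat.ceil_lt_add_one (zero_le_one.trans (hρj j))
    have := hρj j
    linarith
  have hN3 : ∀ j : ℕ, (1 + η) ^ j ≤ (K j : ℝ) := fun j => by rw [hK]; exact Nat.le_ceil _
  have hNt : Tendsto K atTop atTop := by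
    have h1 : Tendsto (fun j : ℕ => ⌈(1 + η) ^ j⌉₊) atTop atTop :=
      tendsto_nat_ceil_atTop.comp (tendsto_pow_atTop_atTop_of_one_lt hρ)
    exact h1.congr fun j => (hK j).symm
  have hlip : ∀ (j : ℕ) (x : X), ∀ a ∈ Set.Icc A (2 * A), ∀ b ∈ Set.Icc A (2 * A),
      ‖bk α η (F x) (K j) a - bk α η (F x) (K j) b‖ ≤ (4 * L + 1) * (1 + η) ^ j * |a - b| := by
    intro j x a _ b _
    refine (bk_lip hL (hFL x) α η hη.le hη1 (hN1 j) a b).trans ?_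
    have h1 : 2 * L * (K j : ℝ) ≤ (4 * L + 1) * (1 + η) ^ j := by
      have h2 : 2 * L * (K j : ℝ) ≤ 2 * L * (2 * (1 + η) ^ j) :=
        mul_le_mul_of_nonneg_left (hN2 j) (by positivity)
      have := hρj j
      nlinarith
    exact mul_le_mul_of_nonneg_right h1 (abs_nonneg _)
  have hms : ∀ᶠ j : ℕ in atTop, ∀ x : X, ∫ a in A..2 * A, ‖bk α η (F x) (K j) a‖ ^ 2 ≤
      C * (2 + Real.log (1 + η)) * ((j : ℝ) + 1) / (1 + η) ^ j := by
    filter_upwards [hNt.eventually hblk] with j hj x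
    refine (hj (F x) (hF1 x) (hFL x)).trans ?_
    have hNj : (0 : ℝ) < (K j : ℝ) := by exact_mod_cast hN1 j
    have hNj1 : (1 : ℝ) ≤ (K j : ℝ) := by exact_mod_cast hN1 j
    have hlog0 : 0 ≤ Real.log (K j : ℝ) := Real.log_nonneg hNj1
    have h1 : Real.log (K j : ℝ) ≤ Real.log 2 + j * Real.log (1 + η) := by
      rw [← Real.log_pow, ← Real.log_mul two_ne_zero (by positivity)]
      exact Real.log_le_log hNj (hN2 j)
    have hlog2 : Real.log 2 ≤ 1 := by have := Real.log_two_lt_d9; linarith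
    have h2 : 1 + Real.log (K j : ℝ) ≤ (2 + Real.log (1 + η)) * ((j : ℝ) + 1) := by
      have : (0 : ℝ) ≤ j := Nat.cast_nonneg _
      nlinarith
    have h3 := hρj j
    have h4 : C * (1 + Real.log (K j : ℝ)) ≤ C * ((2 + Real.log (1 + η)) * ((j : ℝ) + 1)) :=
      mul_le_mul_of_nonneg_left h2 hC.le
    calc C * (1 + Real.log (K j : ℝ)) / (K j : ℝ)
        ≤ C * ((2 + Real.log (1 + η)) * ((j : ℝ) + 1)) / (1 + η) ^ j :=
          div_le_div₀ (by positivity) h4 (by positivity) (hN3 j)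
      _ = _ := by ring
  obtain ⟨E, hE, hE2⟩ := cov (X := X) (μ := μ) (q := q) (A := A) (ρ := 1 + η) hq hA hρ
    (fun j x a => bk α η (F x) (K j) a) (fun j => bk_meas hFm α η hη.le hη1 _) (Λ := 4 * L + 1) (by linarith) hlip
    (C := C * (2 + Real.log (1 + η))) (by positivity) hms (δ := η) hη
  refine ⟨E, hE, fun a ha haE => ?_⟩
  filter_upwards [hE2 a ha haE] with x hx
  refine conv_step (lip_meas hL (hFL x)) (hF1 x) hη hη1 ?_
  filter_upwards [hx] with j hj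
  rw [← hK]
  exact hj

theorem fam {q : ℝ} (hq : 3 < q) (α : ℝ) {F : X → ℝ → ℂ}
    (hFm : Measurable (fun p : X × ℝ => F p.1 p.2)) (hF1 : ∀ x v, ‖F x v‖ ≤ 1) {L : ℝ} (hL : 0 ≤ L)
    (hFL : ∀ x v w, ‖F x v - F x w‖ ≤ L * |v - w|) :
    GNull q {a | 0 < a ∧ ¬ ∀ᵐ x ∂μ, Tendsto (fun N => fd α (F x) a N) atTop (𝓝 0)} := by
  have hη : ∀ n : ℕ, 0 < 1 / ((n : ℝ) + 1) := fun n => by positivity
  have hη1 : ∀ n : ℕ, 1 / ((n : ℝ) + 1) ≤ 1 := fun n => by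
    rw [div_le_one (by positivity)]
    have : (0 : ℝ) ≤ n := Nat.cast_nonneg _
    linarith
  choose E hE1 hE2 using fun p : ℤ × ℕ => fam_A (μ := μ) (A := (2 : ℝ) ^ p.1) hq (by positivity) (hη p.2)
    (hη1 p.2) α hFm hF1 hL hFL
  refine (gnull_iUnion (by linarith) hE1).mono ?_
  rintro a ⟨ha0, ha⟩
  by_contra hcon
  apply ha
  simp only [Set.mem_iUnion, not_exists] at hcon
  obtain ⟨k, hk1, hk2⟩ := exists_mem_Ico_zpow ha0 (one_lt_two (α := ℝ))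
  have hk3 : a ∈ Set.Icc ((2 : ℝ) ^ k) (2 * 2 ^ k) := by
    refine ⟨hk1, ?_⟩
    rw [zpow_add_one₀ two_ne_zero] at hk2
    linarith
  have h1 : ∀ᵐ x ∂μ, ∀ n : ℕ, ∀ᶠ N : ℕ in atTop, ‖fd α (F x) a N‖ ≤ 5 * (1 / ((n : ℝ) + 1)) := by
    rw [ae_all_iff]
    intro n
    exact hE2 (k, n) a hk3 (hcon (k, n))
  filter_upwards [h1] with x hx
  rw [Metric.tendsto_nhds]
  intro ε hε
  obtain ⟨n, hn⟩ := exists_nat_one_div_lt (show 0 < ε / 5 by positivity)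
  filter_upwards [hx n] with N hN
  rw [dist_zero_right]
  linarith

end Pool.Agent.U587.ET
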