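import Mathlib

set_option autoImplicit false

/-!
Sets of real numbers whose Hausdorff measure for the gauge `(log (1 / r))^(-q)` is zero.
-/

namespace Pool.Agent.U587.ET

open Filter Set MeasureTheory
open scoped ENNReal NNReal Topology

/-- Hausdorff measure zero for the gauge `(log (1 / r))^(-q)` -/
def GNull (q : ℝ) (D : Set ℝ) : Prop := ∀ ε : ℝ, 0 < ε → ∃ c r : ℕ → ℝ, (∀ i, 0 ≤ r i ∧ r i ≤ 1 / 2) ∧
  D ⊆ ⋃ i, Set.Icc (c i) (c i + r i) ∧ ∑' i, ENNReal.ofReal ((Real.log (1 / r i)) ^ (-q)) ≤ ENNReal.ofReal ε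

lemma GNull.mono {q : ℝ} {D D' : Set ℝ} (h : GNull q D') (hD : D ⊆ D') : GNull q D := by
  intro ε hε
  obtain ⟨c, r, h1, h2, h3⟩ := h ε hε
  exact ⟨c, r, h1, hD.trans h2, h3⟩

lemma cost_zero {q : ℝ} (hq : 0 < q) : ENNReal.ofReal ((Real.log (1 / (0 : ℝ))) ^ (-q)) = 0 := by
  rw [div_zero, Real.log_zero, Real.zero_rpow (by linarith), ENNReal.ofReal_zero]

lemma gnull_empty {q : ℝ} (hq : 0 < q) : GNull q ∅ := by
  intro ε hε
  refine ⟨fun _ => 0, fun _ => 0, fun _ => ⟨le_rfl, by norm_num⟩, empty_subset _, ?_⟩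
  simp only [cost_zero hq, tsum_zero, zero_le]

lemma gnull_iUnion_nat {q : ℝ} {D : ℕ → Set ℝ} (h : ∀ n, GNull q (D n)) : GNull q (⋃ n, D n) := by
  intro ε hε
  obtain ⟨δ, hδ, hsum⟩ := ENNReal.exists_pos_sum_of_countable (ε := ENNReal.ofReal ε)
    (by simpa using hε) ℕ
  choose c r h1 h2 h3 using fun n => h n (δ n) (by exact_mod_cast hδ n)
  refine ⟨fun k => c (Nat.pairEquiv.symm k).1 (Nat.pairEquiv.symm k).2,
    fun k => r (Nat.pairEquiv.symm k).1 (Nat.pairEquiv.symm k).2, fun k => h1 _ _, ?_, ?_⟩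
  · refine iUnion_subset fun n => (h2 n).trans ?_
    refine iUnion_subset fun i => ?_
    refine subset_iUnion_of_subset (Nat.pairEquiv (n, i)) ?_
    simp
  · rw [Nat.pairEquiv.symm.tsum_eq (fun p : ℕ × ℕ => ENNReal.ofReal ((Real.log (1 / r p.1 p.2)) ^ (-q))),
      ENNReal.tsum_prod']
    refine le_trans (ENNReal.tsum_le_tsum fun n => (h3 n)) ?_
    simp only [ENNReal.ofReal_coe_nnreal]
    exact hsum.le

lemma gnull_iUnion {q : ℝ} (hq : 0 < q) {ι : Type*} [Countable ι] {D : ι → Set ℝ} (h : ∀ n, GNull q (D n)) :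
    GNull q (⋃ n, D n) := by
  rcases isEmpty_or_nonempty ι with hι | hι
  · rw [iUnion_of_empty]
    exact gnull_empty hq
  · obtain ⟨f, hf⟩ := exists_surjective_nat ι
    rw [← hf.iUnion_comp]
    exact gnull_iUnion_nat fun n => h (f n)

lemma gnull_limsup {q : ℝ} (hq : 0 < q) (I : ℕ → Finset ℕ) (c : ℕ → ℕ → ℝ) (r : ℕ → ℝ)
    (hr : ∀ᶠ j in atTop, 0 ≤ r j ∧ r j ≤ 1 / 2)
    (hs : Summable fun j => ((I j).card : ℝ) * (Real.log (1 / r j)) ^ (-q)) :
    GNull q {a | ∃ᶠ j in atTop, ∃ i ∈ I j, a ∈ Set.Icc (c j i) (c j i + r j)} := by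
  classical
  intro ε hε
  have h1 := tendsto_sum_nat_add (fun j => ((I j).card : ℝ) * (Real.log (1 / r j)) ^ (-q))
  obtain ⟨J, hJ1, hJ2⟩ : ∃ J : ℕ, (∀ j, J ≤ j → 0 ≤ r j ∧ r j ≤ 1 / 2) ∧
      ∑' k, (((I (k + J)).card : ℝ) * (Real.log (1 / r (k + J))) ^ (-q)) ≤ ε := by
    obtain ⟨J1, hJ1⟩ := eventually_atTop.1 hr
    obtain ⟨J2, hJ2⟩ := eventually_atTop.1 (h1.eventually (gt_mem_nhds hε))
    refine ⟨max J1 J2, fun j hj => hJ1 j ((le_max_left _ _).trans hj), (hJ2 _ (le_max_right _ _)).le⟩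
  have hlog : ∀ k, 0 ≤ Real.log (1 / r (k + J)) := by
    intro k
    obtain ⟨g1, g2⟩ := hJ1 (k + J) (by omega)
    rcases g1.eq_or_lt with g0 | g0
    · rw [← g0]; simp
    · apply Real.log_nonneg
      rw [le_div_iff₀ g0]
      linarith
  refine ⟨fun k => if (Nat.pairEquiv.symm k).2 ∈ I ((Nat.pairEquiv.symm k).1 + J) then
      c ((Nat.pairEquiv.symm k).1 + J) (Nat.pairEquiv.symm k).2 else 0,
    fun k => if (Nat.pairEquiv.symm k).2 ∈ I ((Nat.pairEquiv.symm k).1 + J) then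
      r ((Nat.pairEquiv.symm k).1 + J) else 0, fun k => ?_, ?_, ?_⟩
  · beta_reduce
    split_ifs
    · exact hJ1 _ (by omega)
    · exact ⟨le_rfl, by norm_num⟩
  · intro a ha
    obtain ⟨j, hj, i, hi, hai⟩ := (frequently_atTop.1 ha) J
    rw [mem_iUnion]
    refine ⟨Nat.pairEquiv (j - J, i), ?_⟩
    beta_reduce
    rw [Equiv.symm_apply_apply]
    simp only [Nat.sub_add_cancel hj]
    rw [if_pos hi, if_pos hi]
    exact hai
  · rw [Nat.pairEquiv.symm.tsum_eq (fun p : ℕ × ℕ => ENNReal.ofReal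
      ((Real.log (1 / (if p.2 ∈ I (p.1 + J) then r (p.1 + J) else 0))) ^ (-q))), ENNReal.tsum_prod']
    have h2 : ∀ k : ℕ, ∑' i : ℕ, ENNReal.ofReal
        ((Real.log (1 / (if i ∈ I (k + J) then r (k + J) else 0))) ^ (-q)) =
        ENNReal.ofReal (((I (k + J)).card : ℝ) * (Real.log (1 / r (k + J))) ^ (-q)) := by
      intro k
      rw [tsum_eq_sum (s := I (k + J)) (fun i hi => by rw [if_neg hi]; exact cost_zero hq)]
      rw [Finset.sum_congr rfl fun i hi => by rw [if_pos hi], Finset.sum_const, nsmul_eq_mul,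
        ENNReal.ofReal_mul (Nat.cast_nonneg _), ENNReal.ofReal_natCast]
    simp only [h2]
    rw [← ENNReal.ofReal_tsum_of_nonneg]
    · exact ENNReal.ofReal_le_ofReal hJ2
    · intro k
      exact mul_nonneg (Nat.cast_nonneg _) (Real.rpow_nonneg (hlog k) _)
    · exact (summable_nat_add_iff J).2 hs

lemma pow_le_gauge {q s : ℝ} (hq : 0 < q) (hs : 0 < s) : ∃ K : ℝ, 0 < K ∧ ∀ r : ℝ, 0 ≤ r → r ≤ 1 / 2 →
    r ^ s ≤ K * (Real.log (1 / r)) ^ (-q) := by
  refine ⟨Real.exp (-q - q * Real.log (s / q)), Real.exp_pos _, fun r hr0 hr1 => ?_⟩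
  rcases hr0.eq_or_lt with h0 | h0
  · rw [← h0, Real.zero_rpow hs.ne', div_zero, Real.log_zero, Real.zero_rpow (by linarith), mul_zero]
  obtain ⟨u, hu⟩ : ∃ u, u = Real.log (1 / r) := ⟨_, rfl⟩
  have hu0 : 0 < u := by
    rw [hu]
    apply Real.log_pos
    rw [lt_div_iff₀ h0]
    linarith
  have hr : r = Real.exp (-u) := by
    rw [hu, one_div, Real.log_inv, neg_neg, Real.exp_log h0]
  rw [← hu, hr, ← Real.exp_mul, Real.rpow_def_of_pos hu0, ← Real.exp_add]
  apply Real.exp_le_exp.2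
  have h1 := Real.log_le_sub_one_of_pos (show 0 < s / q * u by positivity)
  rw [Real.log_mul (by positivity) hu0.ne'] at h1
  have h2 : q * (Real.log (s / q) + Real.log u) ≤ q * (s / q * u - 1) := mul_le_mul_of_nonneg_left h1 hq.le
  have h3 : q * (s / q * u - 1) = s * u - q := by field_simp
  rw [h3] at h2
  linarith

/-- Hausdorff dimension zero -/
theorem gnull_dimH {q : ℝ} (hq : 0 < q) {D : Set ℝ} (h : GNull q D) : dimH D = 0 := by
  by_contra hne
  have hpos : 0 < dimH D := pos_iff_ne_zero.2 hne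
  obtain ⟨s, hs0, hs⟩ := ENNReal.lt_iff_exists_nnreal_btwn.1 hpos
  have hs0' : (0 : ℝ) < s := by exact_mod_cast hs0
  obtain ⟨K, hK, hKr⟩ := pow_le_gauge hq hs0'
  choose c r h1 h2 h3 using fun n : ℕ => h (1 / ((n : ℝ) + 1)) (by positivity)
  have hsm : ∀ n i, r n i ≤ Real.exp (-(((n : ℝ) + 1) ^ (1 / q))) := by
    intro n i
    rcases (h1 n i).1.eq_or_lt with h0 | h0
    · rw [← h0]; positivity
    have h4 : ENNReal.ofReal ((Real.log (1 / r n i)) ^ (-q)) ≤ ENNReal.ofReal (1 / ((n : ℝ) + 1)) :=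
      (ENNReal.le_tsum i).trans (h3 n)
    rw [ENNReal.ofReal_le_ofReal_iff (by positivity)] at h4
    obtain ⟨u, hu⟩ : ∃ u, u = Real.log (1 / r n i) := ⟨_, rfl⟩
    have hu0 : 0 < u := by
      rw [hu]
      apply Real.log_pos
      rw [lt_div_iff₀ h0]
      linarith [(h1 n i).2]
    have hr : r n i = Real.exp (-u) := by
      rw [hu, one_div, Real.log_inv, neg_neg, Real.exp_log h0]
    rw [← hu, Real.rpow_neg hu0.le, one_div, inv_le_inv₀ (by positivity) (by positivity)] at h4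
    rw [hr]
    apply Real.exp_le_exp.2
    have h5 : ((n : ℝ) + 1) ^ (1 / q) ≤ (u ^ q) ^ (1 / q) := Real.rpow_le_rpow (by positivity) h4 (by positivity)
    rw [← Real.rpow_mul hu0.le, mul_one_div_cancel hq.ne', Real.rpow_one] at h5
    linarith
  have hlim : Tendsto (fun n : ℕ => ENNReal.ofReal (Real.exp (-(((n : ℝ) + 1) ^ (1 / q))))) atTop (𝓝 0) := by
    rw [← ENNReal.ofReal_zero]
    refine ENNReal.tendsto_ofReal (Real.tendsto_exp_neg_atTop_nhds_zero.comp ?_)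
    refine (tendsto_rpow_atTop (by positivity)).comp ?_
    exact tendsto_atTop_add_const_right _ _ tendsto_natCast_atTop_atTop
  have hd : ∀ n i, Metric.ediam (Set.Icc (c n i) (c n i + r n i)) = ENNReal.ofReal (r n i) := by
    intro n i
    rw [Real.ediam_Icc]
    congr 1
    ring
  have key : μH[(s : ℝ)] D = 0 := by
    have h4 := Measure.hausdorffMeasure_le_liminf_tsum (s : ℝ) D (l := atTop)
      (fun n : ℕ => ENNReal.ofReal (Real.exp (-(((n : ℝ) + 1) ^ (1 / q))))) hlim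
      (fun n (i : ℕ) => Set.Icc (c n i) (c n i + r n i))
      (Eventually.of_forall fun n i => by
        rw [hd]
        exact ENNReal.ofReal_le_ofReal (hsm n i)) (Eventually.of_forall fun n => h2 n)
    refine le_antisymm (h4.trans ?_) (zero_le)
    have h5 : ∀ n : ℕ, ∑' i, Metric.ediam (Set.Icc (c n i) (c n i + r n i)) ^ (s : ℝ) ≤
        ENNReal.ofReal (K * (1 / ((n : ℝ) + 1))) := by
      intro n
      have h6 : ∀ i, Metric.ediam (Set.Icc (c n i) (c n i + r n i)) ^ (s : ℝ) ≤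
          ENNReal.ofReal K * ENNReal.ofReal ((Real.log (1 / r n i)) ^ (-q)) := by
        intro i
        rw [hd, ENNReal.ofReal_rpow_of_nonneg (h1 n i).1 hs0'.le, ← ENNReal.ofReal_mul hK.le]
        exact ENNReal.ofReal_le_ofReal (hKr _ (h1 n i).1 (h1 n i).2)
      refine (ENNReal.tsum_le_tsum h6).trans ?_
      rw [ENNReal.tsum_mul_left, ENNReal.ofReal_mul hK.le]
      gcongr
      exact h3 n
    have h6 : Tendsto (fun n : ℕ => ENNReal.ofReal (K * (1 / ((n : ℝ) + 1)))) atTop (𝓝 0) := by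
      rw [← ENNReal.ofReal_zero]
      refine ENNReal.tendsto_ofReal ?_
      have := (tendsto_one_div_add_atTop_nhds_zero_nat (𝕜 := ℝ)).const_mul K
      rwa [mul_zero] at this
    refine (liminf_le_liminf (Eventually.of_forall h5)).trans ?_
    rw [h6.liminf_eq]
  have h7 : dimH D ≤ s := dimH_le_of_hausdorffMeasure_ne_top (by rw [key]; exact ENNReal.zero_ne_top)
  exact absurd hs (not_lt.2 h7)

/-- the definition with real series -/
lemma gnull_real {q : ℝ} {D : Set ℝ} (h : GNull q D) : ∀ ε : ℝ, 0 < ε → ∃ c r : ℕ → ℝ,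
    (∀ i, 0 ≤ r i ∧ r i ≤ 1 / 2) ∧ D ⊆ ⋃ i, Set.Icc (c i) (c i + r i) ∧
    Summable (fun i => (Real.log (1 / r i)) ^ (-q)) ∧ ∑' i, (Real.log (1 / r i)) ^ (-q) ≤ ε := by
  intro ε hε
  obtain ⟨c, r, h1, h2, h3⟩ := h ε hε
  have hlog : ∀ i, 0 ≤ (Real.log (1 / r i)) ^ (-q) := by
    intro i
    apply Real.rpow_nonneg
    obtain ⟨g1, g2⟩ := h1 i
    rcases g1.eq_or_lt with g0 | g0
    · rw [← g0]; simp
    · apply Real.log_nonneg
      rw [le_div_iff₀ g0]
      linarith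
  have hs : Summable (fun i => (Real.log (1 / r i)) ^ (-q)) := by
    have h4 : ∑' i, ENNReal.ofReal ((Real.log (1 / r i)) ^ (-q)) ≠ ⊤ := ne_top_of_le_ne_top ENNReal.ofReal_ne_top h3
    have h5 := ENNReal.summable_toReal h4
    refine h5.congr fun i => ?_
    rw [ENNReal.toReal_ofReal (hlog i)]
  refine ⟨c, r, h1, h2, hs, ?_⟩
  rw [← ENNReal.ofReal_tsum_of_nonneg hlog hs] at h3
  exact (ENNReal.ofReal_le_ofReal_iff hε.le).1 h3

end Pool.Agent.U587.ET
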