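import Pool.Agent.U587.ET.Core5

set_option autoImplicit false

/-!
The suspension flow of an invertible measure preserving map on `[0, 1) × X`, written on `ℝ × X`.
-/

namespace Pool.Agent.U587.ET

open MeasureTheory Filter Finset
open Pool.Agent.Y957.MC (IsFlow)
open scoped Topology

universe u

/-- Lebesgue measure on `[0, 1)` -/
noncomputable def lam : Measure ℝ := volume.restrict (Set.Ico 0 1)

instance : IsProbabilityMeasure lam := ⟨by
  unfold lam
  rw [Measure.restrict_apply_univ, Real.volume_Ico]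
  norm_num⟩

/-- the rotation of the base -/
noncomputable def sh (t s : ℝ) : ℝ := ⌊s⌋ + Int.fract (s + t)

/-- the cocycle -/
noncomputable def ct (t s : ℝ) : ℤ := ⌊s + t⌋ - ⌊s⌋

lemma floor_sh (t s : ℝ) : ⌊sh t s⌋ = ⌊s⌋ := by
  unfold sh
  rw [Int.floor_intCast_add, Int.floor_fract, add_zero]

lemma fract_sh (t s : ℝ) : Int.fract (sh t s) = Int.fract (s + t) := by
  unfold sh
  rw [Int.fract_intCast_add, Int.fract_fract]

lemma sh_add_eq (t u s : ℝ) : sh t s + u = (s + t + u) - (ct t s : ℤ) := by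
  unfold sh ct Int.fract
  push_cast
  ring

lemma sh_zero (s : ℝ) : sh 0 s = s := by
  unfold sh
  rw [add_zero, Int.floor_add_fract]

lemma ct_zero (s : ℝ) : ct 0 s = 0 := by
  unfold ct
  rw [add_zero, sub_self]

lemma sh_sh (t u s : ℝ) : sh u (sh t s) = sh (u + t) s := by
  have h1 : sh u (sh t s) = ⌊sh t s⌋ + Int.fract (sh t s + u) := rfl
  rw [h1, floor_sh, sh_add_eq, Int.fract_sub_intCast]
  unfold sh
  congr 2
  ring

lemma ct_add (t u s : ℝ) : ct (u + t) s = ct u (sh t s) + ct t s := by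
  have h1 : ct u (sh t s) = ⌊sh t s + u⌋ - ⌊sh t s⌋ := rfl
  rw [h1, floor_sh, sh_add_eq, Int.floor_sub_intCast]
  unfold ct
  have : s + t + u = s + (u + t) := by ring
  rw [this]
  ring

lemma meas_ct : Measurable fun p : ℝ × ℝ => ct p.1 p.2 := by
  unfold ct
  exact ((measurable_snd.add measurable_fst).floor).sub measurable_snd.floor

lemma meas_sh : Measurable fun p : ℝ × ℝ => sh p.1 p.2 := by
  unfold sh
  refine Measurable.add ?_ (measurable_snd.add measurable_fst).fract
  exact (measurable_from_top (f := fun k : ℤ => (k : ℝ))).comp measurable_snd.floor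

open Set in
lemma mp_sh (t : ℝ) : MeasurePreserving (sh t) lam lam := by
  have hf : Measurable (sh t) := meas_sh.comp (measurable_const.prodMk measurable_id)
  refine ⟨hf, ?_⟩
  ext A hA
  unfold lam
  rw [Measure.map_apply hf hA, Measure.restrict_apply (hf hA), Measure.restrict_apply hA]
  set P : Set ℝ := Int.fract ⁻¹' A with hP
  have hPm : MeasurableSet P := measurable_fract hA
  have hinv : ∀ g : AddSubgroup.zmultiples (1 : ℝ), (fun x : ℝ => g +ᵥ x) ⁻¹' P = P := by
    rintro ⟨g, hg⟩
    obtain ⟨n, rfl⟩ := AddSubgroup.mem_zmultiples_iff.1 hg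
    ext x
    have h1 : Int.fract (n • (1 : ℝ) + x) = Int.fract x := by
      rw [zsmul_eq_mul, mul_one, Int.fract_intCast_add]
    simp only [Set.mem_preimage, hP]
    constructor
    · intro h
      have h' : Int.fract (n • (1 : ℝ) + x) ∈ A := h
      rwa [h1] at h'
    · intro h
      show Int.fract (n • (1 : ℝ) + x) ∈ A
      rwa [h1]
  have hset := (isAddFundamentalDomain_Ioc (one_pos (α := ℝ)) t volume).measure_set_eq
    (isAddFundamentalDomain_Ioc (one_pos (α := ℝ)) 0 volume) hPm hinv
  have e1 : sh t ⁻¹' A ∩ Ico 0 1 = (fun x => x + t) ⁻¹' (P ∩ Ico t (t + 1)) := by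
    ext x
    simp only [mem_inter_iff, Set.mem_preimage, Set.mem_Ico, hP]
    constructor
    · rintro ⟨h, h1, h2⟩
      have h3 : ⌊x⌋ = 0 := Int.floor_eq_zero_iff.2 ⟨h1, h2⟩
      have h4 : sh t x = Int.fract (x + t) := by
        unfold sh
        rw [h3, Int.cast_zero, zero_add]
      rw [h4] at h
      exact ⟨h, by linarith, by linarith⟩
    · rintro ⟨h, h1, h2⟩
      have h3 : ⌊x⌋ = 0 := Int.floor_eq_zero_iff.2 ⟨by linarith, by linarith⟩
      refine ⟨?_, by linarith, by linarith⟩
      have h4 : sh t x = Int.fract (x + t) := by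
        unfold sh
        rw [h3, Int.cast_zero, zero_add]
      rw [h4]
      exact h
  have e2 : A ∩ Ico 0 1 = P ∩ Ico 0 (0 + 1) := by
    ext x
    simp only [mem_inter_iff, Set.mem_preimage, hP, zero_add]
    constructor
    · rintro ⟨h, ht⟩
      refine ⟨?_, ht⟩
      rw [Int.fract_eq_self.2 ⟨ht.1, ht.2⟩]
      exact h
    · rintro ⟨h, ht⟩
      refine ⟨?_, ht⟩
      rwa [Int.fract_eq_self.2 ⟨ht.1, ht.2⟩] at h
  rw [e1, e2]
  have e3 : volume ((fun x : ℝ => x + t) ⁻¹' (P ∩ Ico t (t + 1))) = volume (P ∩ Ico t (t + 1)) :=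
    (measurePreserving_add_right volume t).measure_preimage (hPm.inter measurableSet_Ico).nullMeasurableSet
  rw [e3]
  have e4 : ∀ a b : ℝ, volume (P ∩ Ico a b) = volume (P ∩ Ioc a b) := by
    intro a b
    exact measure_congr ((ae_eq_refl P).inter Ico_ae_eq_Ioc)
  rw [e4, e4]
  exact hset

variable {X : Type u} [MeasurableSpace X] {μ : Measure X} [IsProbabilityMeasure μ]

lemma meas_zpow (T : X ≃ᵐ X) (k : ℤ) : Measurable fun x => ((T.toEquiv : Equiv.Perm X) ^ k) x := by
  induction k using Int.induction_on with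
  | zero => exact measurable_id
  | succ k ih =>
    have h : (fun x => ((T.toEquiv : Equiv.Perm X) ^ ((k : ℤ) + 1)) x) =
        (fun x => ((T.toEquiv : Equiv.Perm X) ^ (k : ℤ)) x) ∘ T := by
      funext x
      rw [zpow_add_one]
      rfl
    rw [h]
    exact ih.comp T.measurable
  | pred k ih =>
    have h : (fun x => ((T.toEquiv : Equiv.Perm X) ^ (-(k : ℤ) - 1)) x) =
        (fun x => ((T.toEquiv : Equiv.Perm X) ^ (-(k : ℤ))) x) ∘ T.symm := by
      funext x
      rw [zpow_sub_one]
      rfl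
    rw [h]
    exact ih.comp T.symm.measurable

omit [IsProbabilityMeasure μ] in
lemma mp_zpow {T : X ≃ᵐ X} (hT : MeasurePreserving T μ μ) (k : ℤ) :
    MeasurePreserving (fun x => ((T.toEquiv : Equiv.Perm X) ^ k) x) μ μ := by
  induction k using Int.induction_on with
  | zero => exact MeasurePreserving.id μ
  | succ k ih =>
    have h : (fun x => ((T.toEquiv : Equiv.Perm X) ^ ((k : ℤ) + 1)) x) =
        (fun x => ((T.toEquiv : Equiv.Perm X) ^ (k : ℤ)) x) ∘ T := by
      funext x
      rw [zpow_add_one]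
      rfl
    rw [h]
    exact ih.comp hT
  | pred k ih =>
    have h : (fun x => ((T.toEquiv : Equiv.Perm X) ^ (-(k : ℤ) - 1)) x) =
        (fun x => ((T.toEquiv : Equiv.Perm X) ^ (-(k : ℤ))) x) ∘ T.symm := by
      funext x
      rw [zpow_sub_one]
      rfl
    rw [h]
    exact ih.comp (MeasurePreserving.symm T hT)

/-- the suspension flow -/
noncomputable def susp (T : X ≃ᵐ X) (t : ℝ) (p : ℝ × X) : ℝ × X :=
  (sh t p.1, ((T.toEquiv : Equiv.Perm X) ^ ct t p.1) p.2)

theorem susp_flow {T : X ≃ᵐ X} (hT : MeasurePreserving T μ μ) : IsFlow (lam.prod μ) (susp T) := by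
  have hm : Measurable fun q : ℤ × X => ((T.toEquiv : Equiv.Perm X) ^ q.1) q.2 :=
    measurable_from_prod_countable_right fun k => meas_zpow T k
  refine ⟨?_, ?_, ?_, ?_⟩
  · unfold susp
    refine Measurable.prodMk (meas_sh.comp (measurable_fst.prodMk (measurable_fst.comp measurable_snd))) ?_
    exact hm.comp ((meas_ct.comp (measurable_fst.prodMk (measurable_fst.comp measurable_snd))).prodMk
      (measurable_snd.comp measurable_snd))
  · rintro ⟨s, x⟩
    unfold susp
    simp only
    rw [sh_zero, ct_zero, zpow_zero]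
    rfl
  · rintro t u ⟨s, x⟩
    unfold susp
    simp only
    rw [sh_sh, ct_add, zpow_add]
    rfl
  · intro t
    have h := (mp_sh t).skew_product (μc := μ) (μd := μ)
      (g := fun s x => ((T.toEquiv : Equiv.Perm X) ^ ct t s) x) ?_ ?_
    · exact h
    · exact hm.comp ((meas_ct.comp (measurable_const.prodMk measurable_fst)).prodMk measurable_snd)
    · exact ae_of_all _ fun s => (mp_zpow hT _).map_eq

end Pool.Agent.U587.ET
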